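import Pool.Agent.CAL.Sub

set_option autoImplicit false
set_option linter.unusedSectionVars false
set_option linter.style.haveILetI false

/-!
Automorphic loops: the multiplication group, the maps `lam a b` and the relation `sim` (MP_951c8d_al).
-/

namespace LPM

open CAL

variable {Q : Type} {mul : Q → Q → Q} {e : Q}

/-- The multiplication group. -/
def mlt (h : IsLoop mul e) : Subgroup (Equiv.Perm Q) :=
  Subgroup.closure (Set.range (Lp h) ∪ Set.range (Rp h))

theorem Lp_mem (h : IsLoop mul e) (a : Q) : Lp h a ∈ mlt h :=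
  Subgroup.subset_closure (Or.inl ⟨a, rfl⟩)

theorem Rp_mem (h : IsLoop mul e) (a : Q) : Rp h a ∈ mlt h :=
  Subgroup.subset_closure (Or.inr ⟨a, rfl⟩)

/-- `L_{y x}⁻¹ L_y L_x` is inner. -/
theorem innL_mem (h : IsLoop mul e) (x y : Q) : (Lp h (mul y x))⁻¹ * (Lp h y * Lp h x) ∈ inn mul := by
  apply Subgroup.subset_closure
  refine Or.inl ⟨x, y, fun z => ?_⟩
  exact app_inv (Lp h (mul y x)) (mul y (mul x z))

/-- `R_{x y}⁻¹ R_y R_x` is inner. -/
theorem innR_mem (h : IsLoop mul e) (x y : Q) : (Rp h (mul x y))⁻¹ * (Rp h y * Rp h x) ∈ inn mul := by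
  apply Subgroup.subset_closure
  refine Or.inr (Or.inl ⟨x, y, fun z => ?_⟩)
  exact app_inv (Rp h (mul x y)) (mul (mul z x) y)

/-- `L_x⁻¹ R_x` is inner. -/
theorem innT_mem (h : IsLoop mul e) (x : Q) : (Lp h x)⁻¹ * Rp h x ∈ inn mul := by
  apply Subgroup.subset_closure
  refine Or.inr (Or.inr ⟨x, fun z => ?_⟩)
  exact app_inv (Lp h x) (mul z x)

/-- Every inner mapping is in the multiplication group. -/
theorem inn_le (h : IsLoop mul e) : inn mul ≤ mlt h := by
  unfold inn
  rw [Subgroup.closure_le]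
  rintro f (⟨x, y, hf⟩ | ⟨x, y, hf⟩ | ⟨x, hf⟩)
  · have : f = (Lp h (mul y x))⁻¹ * (Lp h y * Lp h x) := by
      rw [eq_inv_mul_iff_mul_eq]
      ext z
      exact hf z
    rw [this]
    exact Subgroup.mul_mem _ (Subgroup.inv_mem _ (Lp_mem h _)) (Subgroup.mul_mem _ (Lp_mem h _) (Lp_mem h _))
  · have : f = (Rp h (mul x y))⁻¹ * (Rp h y * Rp h x) := by
      rw [eq_inv_mul_iff_mul_eq]
      ext z
      exact hf z
    rw [this]
    exact Subgroup.mul_mem _ (Subgroup.inv_mem _ (Rp_mem h _)) (Subgroup.mul_mem _ (Rp_mem h _) (Rp_mem h _))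
  · have : f = (Lp h x)⁻¹ * Rp h x := by
      rw [eq_inv_mul_iff_mul_eq]
      ext z
      exact hf z
    rw [this]
    exact Subgroup.mul_mem _ (Subgroup.inv_mem _ (Lp_mem h _)) (Rp_mem h _)

/-- `L_{u e}⁻¹ u` is inner. -/
theorem mlt_decomp (h : IsLoop mul e) {u : Equiv.Perm Q} (hu : u ∈ mlt h) :
    (Lp h (u e))⁻¹ * u ∈ inn mul := by
  have hL : ∀ c b : Q, (Lp h (mul c b))⁻¹ * (Lp h c * Lp h b) ∈ inn mul := fun c b => innL_mem h b c
  have hR : ∀ c b : Q, (Lp h (mul b c))⁻¹ * (Rp h c * Lp h b) ∈ inn mul := by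
    intro c b
    have e1 : (Lp h (mul b c))⁻¹ * (Rp h c * Lp h b) =
        ((Lp h (mul b c))⁻¹ * Rp h (mul b c)) * ((Rp h (mul b c))⁻¹ * (Rp h c * Rp h b)) *
        ((Lp h b)⁻¹ * Rp h b)⁻¹ := by group
    rw [e1]
    exact Subgroup.mul_mem _ (Subgroup.mul_mem _ (innT_mem h _) (innR_mem h b c))
      (Subgroup.inv_mem _ (innT_mem h _))
  have key : ∀ u ∈ mlt h, ∀ b : Q, (Lp h (u b))⁻¹ * (u * Lp h b) ∈ inn mul := by
    intro u hu
    induction hu using Subgroup.closure_induction with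
    | mem u hu =>
      intro b
      rcases hu with ⟨c, rfl⟩ | ⟨c, rfl⟩
      · exact hL c b
      · exact hR c b
    | one =>
      intro b
      simp
    | mul u v _ _ iu iv =>
      intro b
      have e1 : (Lp h ((u * v) b))⁻¹ * (u * v * Lp h b) =
          ((Lp h (u (v b)))⁻¹ * (u * Lp h (v b))) * ((Lp h (v b))⁻¹ * (v * Lp h b)) := by
        rw [Equiv.Perm.mul_apply]
        group
      rw [e1]
      exact Subgroup.mul_mem _ (iu _) (iv _)
    | inv u _ iu =>
      intro b
      have h1 := iu (u⁻¹ b)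
      rw [app_inv] at h1
      have h2 := Subgroup.inv_mem _ h1
      have e1 : (Lp h (u⁻¹ b))⁻¹ * (u⁻¹ * Lp h b) = ((Lp h b)⁻¹ * (u * Lp h (u⁻¹ b)))⁻¹ := by group
      rw [e1]
      exact h2
  have h1 := key u hu e
  have h2 : Lp h e = 1 := by
    ext z
    exact h.one_mul z
  rwa [h2, mul_one] at h1

theorem Lp_e (h : IsLoop mul e) : Lp h e = 1 := by
  ext z
  exact h.one_mul z

/-- The elements of the multiplication group which fix `e` are inner. -/
theorem stab_inn (h : IsLoop mul e) {u : Equiv.Perm Q} (hu : u ∈ mlt h) (he : u e = e) : u ∈ inn mul := by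
  have h1 := mlt_decomp h hu
  rw [he, Lp_e, inv_one, one_mul] at h1
  exact h1

theorem stab_aut (h : IsLoop mul e) (ha : IsAut mul) {u : Equiv.Perm Q} (hu : u ∈ mlt h) (he : u e = e)
    (x y : Q) : u (mul x y) = mul (u x) (u y) :=
  inn_aut ha (stab_inn h hu he) x y

/-- An automorphism commutes with the left translations. -/
theorem aut_Lp (h : IsLoop mul e) {u : Equiv.Perm Q} (hu : ∀ x y, u (mul x y) = mul (u x) (u y)) (a : Q) :
    u * Lp h a = Lp h (u a) * u := by
  ext z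
  exact hu a z

theorem aut_Rp (h : IsLoop mul e) {u : Equiv.Perm Q} (hu : ∀ x y, u (mul x y) = mul (u x) (u y)) (a : Q) :
    u * Rp h a = Rp h (u a) * u := by
  ext z
  exact hu z a

theorem aut_ld (h : IsLoop mul e) {u : Equiv.Perm Q} (hu : ∀ x y, u (mul x y) = mul (u x) (u y)) (a b : Q) :
    u (ld h a b) = ld h (u a) (u b) := by
  apply mul_left_inj' h (a := u a)
  rw [← hu, mul_ld h, mul_ld h]

section autom

variable (h : IsLoop mul e) (ha : IsAut mul)
include h ha

/-- `L_a` and `R_a` commute. -/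
theorem LR_comm (a : Q) : Lp h a * Rp h a = Rp h a * Lp h a := by
  have hT := innT_mem h a
  have h1 : ((Lp h a)⁻¹ * Rp h a) a = a := by
    apply (Lp h a).injective
    rw [Equiv.Perm.mul_apply, app_inv]
    rfl
  have h2 := aut_Lp h (inn_aut ha hT) a
  rw [h1] at h2
  have h3 : Rp h a = Lp h a * ((Lp h a)⁻¹ * Rp h a) := by group
  calc Lp h a * Rp h a = Lp h a * (Lp h a * ((Lp h a)⁻¹ * Rp h a)) := by rw [← h3]
    _ = Lp h a * (((Lp h a)⁻¹ * Rp h a) * Lp h a) := by rw [← h2]
    _ = Rp h a * Lp h a := by group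

theorem flex (a z : Q) : mul a (mul z a) = mul (mul a z) a := by
  have := congrArg (fun f : Equiv.Perm Q => f z) (LR_comm h ha a)
  exact this

/-- The inverse is two-sided. -/
theorem inv_mul' (a : Q) : mul (ld h a e) a = e := by
  apply mul_left_inj' h (a := a)
  rw [flex h ha, mul_ld h, h.one_mul, h.mul_one]

theorem inv_inv' (a : Q) : ld h (ld h a e) e = a := by
  apply mul_left_inj' h (a := ld h a e)
  rw [mul_ld h, inv_mul' h ha]

/-- The inner map `L_a L_{a⁻¹}`. -/
theorem kk_mem (a : Q) : Lp h a * Lp h (ld h a e) ∈ inn mul := by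
  have h1 := innL_mem h (ld h a e) a
  rwa [mul_ld h, Lp_e, inv_one, one_mul] at h1

theorem kk_fix (a : Q) : (Lp h a * Lp h (ld h a e)) a = a := by
  rw [Equiv.Perm.mul_apply, Lp_apply, Lp_apply, inv_mul' h ha, h.mul_one]

/-- `L_a` commutes with `L_{a⁻¹}`. -/
theorem LLi_comm (a : Q) : Lp h a * Lp h (ld h a e) = Lp h (ld h a e) * Lp h a := by
  have h2 := aut_Lp h (inn_aut ha (kk_mem h ha a)) a
  rw [kk_fix h ha] at h2
  have h3 : Lp h a * (Lp h (ld h a e) * Lp h a) = Lp h a * (Lp h a * Lp h (ld h a e)) := by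
    rw [← mul_assoc]
    exact h2
  exact (mul_left_cancel h3).symm

/-- `R_a` commutes with `L_{a⁻¹}`. -/
theorem RLi_comm (a : Q) : Rp h a * Lp h (ld h a e) = Lp h (ld h a e) * Rp h a := by
  have h2 := aut_Rp h (inn_aut ha (kk_mem h ha a)) a
  rw [kk_fix h ha] at h2
  have h3 : Lp h a * (Lp h (ld h a e) * Rp h a) = Lp h a * (Rp h a * Lp h (ld h a e)) := by
    rw [← mul_assoc, h2, ← mul_assoc, ← LR_comm h ha, mul_assoc]
  exact (mul_left_cancel h3).symm

/-- `a (z a⁻¹) = (a z) a⁻¹`. -/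
theorem flex_inv (a z : Q) : mul a (mul z (ld h a e)) = mul (mul a z) (ld h a e) := by
  have h1 := RLi_comm h ha (ld h a e)
  rw [inv_inv' h ha] at h1
  exact (congrArg (fun f : Equiv.Perm Q => f z) h1).symm

end autom

/-- The translation from `a` to `b`, based at `a`. -/
noncomputable def lam (h : IsLoop mul e) (a b : Q) : Equiv.Perm Q :=
  Lp h a * Lp h (ld h a b) * (Lp h a)⁻¹

theorem lam_mem (h : IsLoop mul e) (a b : Q) : lam h a b ∈ mlt h :=
  Subgroup.mul_mem _ (Subgroup.mul_mem _ (Lp_mem h _) (Lp_mem h _)) (Subgroup.inv_mem _ (Lp_mem h _))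

theorem lam_e (h : IsLoop mul e) (b : Q) : lam h e b = Lp h b := by
  unfold lam
  rw [Lp_e, ld_e, inv_one, mul_one, one_mul]

theorem lam_self (h : IsLoop mul e) (a : Q) : lam h a a = 1 := by
  unfold lam
  rw [ld_self, Lp_e, mul_one, mul_inv_cancel]

theorem lam_apply (h : IsLoop mul e) (a b z : Q) : lam h a b z = mul a (mul (ld h a b) (ld h a z)) := rfl

theorem lam_app (h : IsLoop mul e) (a b : Q) : lam h a b a = b := by
  rw [lam_apply, ld_self h, h.mul_one, mul_ld h]

/-- Equivariance. -/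
theorem lam_conj (h : IsLoop mul e) (ha : IsAut mul) {u : Equiv.Perm Q} (hu : u ∈ mlt h) (a b : Q) :
    u * lam h a b = lam h (u a) (u b) * u := by
  have hv : (Lp h (u a))⁻¹ * (u * Lp h a) ∈ inn mul := by
    have h1 := mlt_decomp h (Subgroup.mul_mem _ hu (Lp_mem h a))
    rw [Equiv.Perm.mul_apply, Lp_apply, h.mul_one] at h1
    exact h1
  set v := (Lp h (u a))⁻¹ * (u * Lp h a) with hvd
  have h2 := aut_Lp h (inn_aut ha hv) (ld h a b)
  have h3 : u * Lp h a = Lp h (u a) * v := by rw [hvd]; group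
  have h4 : v (ld h a b) = ld h (u a) (u b) := by
    apply mul_left_inj' h (a := u a)
    rw [mul_ld h]
    have := congrArg (fun f : Equiv.Perm Q => f (ld h a b)) h3
    simp only [Equiv.Perm.mul_apply, Lp_apply, mul_ld h] at this
    exact this.symm
  unfold lam
  have h5 : v * (Lp h a)⁻¹ = (Lp h (u a))⁻¹ * u := by rw [hvd]; group
  calc u * (Lp h a * Lp h (ld h a b) * (Lp h a)⁻¹) = (u * Lp h a) * Lp h (ld h a b) * (Lp h a)⁻¹ := by group
    _ = Lp h (u a) * (v * Lp h (ld h a b)) * (Lp h a)⁻¹ := by rw [h3]; group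
    _ = Lp h (u a) * Lp h (v (ld h a b)) * (v * (Lp h a)⁻¹) := by rw [h2]; group
    _ = Lp h (u a) * Lp h (ld h (u a) (u b)) * (Lp h (u a))⁻¹ * u := by rw [h4, h5]; group

/-- The basic identity. -/
theorem lam_I (h : IsLoop mul e) (ha : IsAut mul) (a b c : Q) :
    lam h a c b = lam h b c (lam h a b b) := by
  -- base `b = e`
  have base : ∀ a c : Q, lam h a c e = lam h e c (lam h a e e) := by
    intro a c
    have h1 : lam h a c e = mul c (ld h a e) := by
      rw [lam_apply, flex_inv h ha, mul_ld h]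
    have h2 : lam h a e e = ld h a e := by
      rw [lam_apply, flex_inv h ha, mul_ld h, h.one_mul]
    rw [h1, h2, lam_e, Lp_apply]
  have hb : Lp h b e = b := h.mul_one b
  obtain ⟨a', rfl⟩ : ∃ a', Lp h b a' = a := ⟨ld h b a, mul_ld h b a⟩
  obtain ⟨c', rfl⟩ : ∃ c', Lp h b c' = c := ⟨ld h b c, mul_ld h b c⟩
  have k1 : lam h (Lp h b a') (Lp h b c') b = Lp h b (lam h a' c' e) := by
    have := congrArg (fun f : Equiv.Perm Q => f e) (lam_conj h ha (Lp_mem h b) a' c')
    simp only [Equiv.Perm.mul_apply, hb] at this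
    exact this.symm
  have k2 : lam h (Lp h b a') b b = Lp h b (lam h a' e e) := by
    have := congrArg (fun f : Equiv.Perm Q => f e) (lam_conj h ha (Lp_mem h b) a' e)
    simp only [Equiv.Perm.mul_apply, hb] at this
    exact this.symm
  have k3 : lam h b (Lp h b c') (Lp h b (lam h a' e e)) = Lp h b (lam h e c' (lam h a' e e)) := by
    have := congrArg (fun f : Equiv.Perm Q => f (lam h a' e e)) (lam_conj h ha (Lp_mem h b) e c')
    simp only [Equiv.Perm.mul_apply, hb] at this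
    exact this.symm
  rw [k1, k2, k3, base]

end LPM
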