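import Pool.Agent.LPM.A1

set_option autoImplicit false
set_option linter.unusedSectionVars false
set_option linter.style.haveILetI false

/-!
The relation `sim` (classes = cosets of the middle nucleus) and the main lemma.
-/

namespace LPM

open CAL

variable {Q : Type} {mul : Q → Q → Q} {e : Q}

/-- `b ~ c`. -/
def sim (h : IsLoop mul e) (b c : Q) : Prop := ∀ z, lam h z c = lam h b c * lam h z b

theorem sim_refl (h : IsLoop mul e) (b : Q) : sim h b b := by
  intro z
  rw [lam_self, one_mul]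

theorem sim_symm {h : IsLoop mul e} {b c : Q} (hs : sim h b c) : sim h c b := by
  have h1 := hs c
  rw [lam_self] at h1
  have h3 : lam h c b = (lam h b c)⁻¹ := eq_inv_of_mul_eq_one_right h1.symm
  intro z
  rw [hs z, ← mul_assoc, h3, inv_mul_cancel, one_mul]

theorem sim_trans {h : IsLoop mul e} {b c d : Q} (h1 : sim h b c) (h2 : sim h c d) : sim h b d := by
  intro z
  rw [h2 z, h1 z, h2 b, mul_assoc]

/-- Invariance under the multiplication group. -/
theorem sim_map (h : IsLoop mul e) (ha : IsAut mul) {u : Equiv.Perm Q} (hu : u ∈ mlt h) {b c : Q}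
    (hs : sim h b c) : sim h (u b) (u c) := by
  intro z
  obtain ⟨z', rfl⟩ : ∃ z', u z' = z := ⟨u⁻¹ z, app_inv u z⟩
  have h1 := lam_conj h ha hu z' c
  have h2 := lam_conj h ha hu z' b
  have h3 := lam_conj h ha hu b c
  apply mul_right_cancel (b := u)
  rw [← h1, hs z', ← mul_assoc, h3, mul_assoc, h2, mul_assoc]

theorem sim_map_iff (h : IsLoop mul e) (ha : IsAut mul) {u : Equiv.Perm Q} (hu : u ∈ mlt h) {b c : Q} :
    sim h (u b) (u c) ↔ sim h b c := by
  constructor
  · intro hs
    have := sim_map h ha (Subgroup.inv_mem _ hu) hs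
    rwa [inv_app, inv_app] at this
  · exact sim_map h ha hu

theorem sim_mul (h : IsLoop mul e) (ha : IsAut mul) {a b c d : Q} (h1 : sim h a b) (h2 : sim h c d) :
    sim h (mul a c) (mul b d) :=
  sim_trans (sim_map h ha (Rp_mem h c) h1) (sim_map h ha (Lp_mem h b) h2)

theorem sim_mul_left (h : IsLoop mul e) (ha : IsAut mul) {a b c : Q} :
    sim h (mul a b) (mul a c) ↔ sim h b c := sim_map_iff h ha (Lp_mem h a)

theorem sim_mul_right (h : IsLoop mul e) (ha : IsAut mul) {a b c : Q} :
    sim h (mul b a) (mul c a) ↔ sim h b c := sim_map_iff h ha (Rp_mem h a)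

/-- The class of `e` is the middle nucleus. -/
theorem sim_e_iff (h : IsLoop mul e) (ha : IsAut mul) (v : Q) :
    sim h e v ↔ ∀ y z, mul (mul y v) z = mul y (mul v z) := by
  have key : ∀ v y, lam h (ld h y e) v = (Lp h y)⁻¹ * Lp h (mul y v) * Lp h y := by
    intro v y
    have h1 := lam_conj h ha (Lp_mem h y) (ld h y e) v
    rw [Lp_apply, Lp_apply, mul_ld h, lam_e] at h1
    rw [mul_assoc, ← h1]
    group
  have key2 : ∀ y, lam h (ld h y e) e = Lp h y := by
    intro y
    rw [key, h.mul_one]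
    group
  constructor
  · intro hs y z
    have h1 := hs (ld h y e)
    rw [key, key2, lam_e, mul_assoc, inv_mul_eq_iff_eq_mul, ← mul_assoc] at h1
    have h2 := mul_right_cancel h1
    exact congrArg (fun f : Equiv.Perm Q => f z) h2
  · intro hv z
    obtain ⟨y, hy⟩ : ∃ y, ld h y e = z := ⟨ld h z e, inv_inv' h ha z⟩
    rw [← hy, key, key2, lam_e, mul_assoc, inv_mul_eq_iff_eq_mul, ← mul_assoc]
    congr 1
    ext t
    exact hv y t

/-- `S` generates. -/
def Gen (mul : Q → Q → Q) (e x w : Q) : Prop :=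
  ∀ S : Q → Prop, S e → S x → S w → (∀ a b, S a → S b → S (mul a b)) →
    (∀ a b, S a → S (mul a b) → S b) → (∀ a b, S b → S (mul a b) → S a) → ∀ y, S y

/-- Rigidity. -/
theorem rigid {h : IsLoop mul e} (ha : IsAut mul) {x w : Q} (hg : Gen mul e x w) {u : Equiv.Perm Q}
    (hu : u ∈ mlt h) (he : u e = e) (hx : u x = x) (hw : u w = w) : u = 1 := by
  have hau := stab_aut h ha hu he
  have key : ∀ y, u y = y := by
    apply hg (fun y => u y = y) he hx hw
    · intro a b h1 h2
      rw [hau, h1, h2]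
    · intro a b h1 h2
      apply mul_left_inj' h (a := a)
      rw [hau, h1] at h2
      exact h2
    · intro a b h1 h2
      apply mul_right_inj' h (a := b)
      rw [hau, h1] at h2
      exact h2
  ext y
  exact key y

theorem eq_of_agree {h : IsLoop mul e} (ha : IsAut mul) {x w : Q} (hg : Gen mul e x w)
    {u v : Equiv.Perm Q} (hu : u ∈ mlt h) (hv : v ∈ mlt h) (he : u e = v e) (hx : u x = v x)
    (hw : u w = v w) : u = v := by
  have h1 : v⁻¹ * u = 1 := by
    apply rigid ha hg (Subgroup.mul_mem _ (Subgroup.inv_mem _ hv) hu)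
    · rw [Equiv.Perm.mul_apply, he, inv_app]
    · rw [Equiv.Perm.mul_apply, hx, inv_app]
    · rw [Equiv.Perm.mul_apply, hw, inv_app]
  exact (inv_mul_eq_one.1 h1).symm

/-- `lam a w` is inverse to `lam w a` at `a`. -/
theorem lam_back (h : IsLoop mul e) (ha : IsAut mul) (a w : Q) : lam h a w (lam h w a a) = a := by
  have h1 := lam_I h ha w a w
  rw [lam_self] at h1
  exact h1.symm

/-- **Main lemma.** If `x, w` generate and `s` is an inner mapping that fixes `x` and commutes with all inner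
mappings which fix `x`, then `w ~ s w`. -/
theorem main_lemma {h : IsLoop mul e} (ha : IsAut mul) {x w : Q} (hg : Gen mul e x w) {s : Equiv.Perm Q}
    (hs : s ∈ mlt h) (he : s e = e) (hx : s x = x)
    (hc : ∀ t ∈ mlt h, t e = e → t x = x → s * t = t * s) : sim h w (s w) := by
  -- the element `q`
  have hq1 : ∀ a b c : Q, ((lam h a c)⁻¹ * (lam h b c * lam h a b)) a = a := by
    intro a b c
    rw [Equiv.Perm.mul_apply, Equiv.Perm.mul_apply, lam_app, lam_app, Equiv.Perm.inv_eq_iff_eq, lam_app]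
  have hq2 : ∀ a b c : Q, ((lam h a c)⁻¹ * (lam h b c * lam h a b)) b = b := by
    intro a b c
    rw [Equiv.Perm.mul_apply, Equiv.Perm.mul_apply, ← lam_I h ha, inv_app]
  have hqm : ∀ a b c : Q, ((lam h a c)⁻¹ * (lam h b c * lam h a b)) ∈ mlt h := fun a b c =>
    Subgroup.mul_mem _ (Subgroup.inv_mem _ (lam_mem h _ _))
      (Subgroup.mul_mem _ (lam_mem h _ _) (lam_mem h _ _))
  have hcq := hc _ (hqm e x w) (hq1 e x w) (hq2 e x w)
  have hcl : s * lam h e x = lam h e x * s := by
    rw [lam_conj h ha hs, he, hx]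
  have hA := lam_conj h ha hs e w
  rw [he] at hA
  have hB := lam_conj h ha hs x w
  rw [hx] at hB
  -- `D = lam e (s w) (lam e w)⁻¹ = lam x (s w) (lam x w)⁻¹`
  have hD : lam h e (s w) * (lam h e w)⁻¹ = lam h x (s w) * (lam h x w)⁻¹ := by
    have e1 : lam h e (s w) = s * lam h e w * s⁻¹ := by rw [hA]; group
    have e2 : lam h x (s w) = s * lam h x w * s⁻¹ := by rw [hB]; group
    have e3 : s * ((lam h e w)⁻¹ * lam h x w) = (lam h e w)⁻¹ * lam h x w * s := by
      have : (lam h e w)⁻¹ * lam h x w =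
          ((lam h e w)⁻¹ * (lam h x w * lam h e x)) * (lam h e x)⁻¹ := by group
      rw [this, ← mul_assoc, hcq]
      have e4 : s * (lam h e x)⁻¹ = (lam h e x)⁻¹ * s := by
        rw [eq_inv_mul_iff_mul_eq, ← mul_assoc, ← hcl]
        group
      calc (lam h e w)⁻¹ * (lam h x w * lam h e x) * s * (lam h e x)⁻¹
          = (lam h e w)⁻¹ * (lam h x w * lam h e x) * (s * (lam h e x)⁻¹) := by group
        _ = _ := by rw [e4]; group
    have e5 : s⁻¹ * (lam h e w)⁻¹ * lam h x w = (lam h e w)⁻¹ * lam h x w * s⁻¹ := by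
      calc s⁻¹ * (lam h e w)⁻¹ * lam h x w = s⁻¹ * ((lam h e w)⁻¹ * lam h x w * s) * s⁻¹ := by group
        _ = s⁻¹ * (s * ((lam h e w)⁻¹ * lam h x w)) * s⁻¹ := by rw [← e3]
        _ = _ := by group
    rw [e1, e2]
    calc s * lam h e w * s⁻¹ * (lam h e w)⁻¹
        = s * lam h e w * (s⁻¹ * (lam h e w)⁻¹ * lam h x w) * (lam h x w)⁻¹ := by group
      _ = s * lam h e w * ((lam h e w)⁻¹ * lam h x w * s⁻¹) * (lam h x w)⁻¹ := by rw [e5]
      _ = s * lam h x w * s⁻¹ * (lam h x w)⁻¹ := by group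
  have back : ∀ a : Q, lam h a (s w) ((lam h a w)⁻¹ a) = lam h w (s w) a := by
    intro a
    have e1 : (lam h a w)⁻¹ a = lam h w a a := by
      rw [Equiv.Perm.inv_eq_iff_eq, lam_back h ha]
    rw [e1, ← lam_I h ha]
  have hDe : lam h e (s w) * (lam h e w)⁻¹ = lam h w (s w) := by
    apply eq_of_agree ha hg (Subgroup.mul_mem _ (lam_mem h _ _) (Subgroup.inv_mem _ (lam_mem h _ _)))
      (lam_mem h _ _)
    · exact back e
    · rw [hD]
      exact back x
    · rw [Equiv.Perm.mul_apply, lam_app]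
      have : (lam h e w)⁻¹ w = e := by rw [Equiv.Perm.inv_eq_iff_eq, lam_app]
      rw [this, lam_app]
  have hDx : lam h x (s w) * (lam h x w)⁻¹ = lam h w (s w) := hD ▸ hDe
  -- the general point
  intro z
  have fin : ∀ a : Q, lam h a (s w) * (lam h a w)⁻¹ = lam h w (s w) →
      lam h z (s w) a = (lam h w (s w) * lam h z w) a := by
    intro a hDa
    have e1 : (lam h a w)⁻¹ (lam h z w a) = lam h z a a := by
      rw [Equiv.Perm.inv_eq_iff_eq, ← lam_I h ha]
    rw [← hDa]
    rw [Equiv.Perm.mul_apply, Equiv.Perm.mul_apply, e1, ← lam_I h ha]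
  apply eq_of_agree ha hg (lam_mem h _ _) (Subgroup.mul_mem _ (lam_mem h _ _) (lam_mem h _ _))
  · exact fin e hDe
  · exact fin x hDx
  · rw [Equiv.Perm.mul_apply, ← lam_I h ha]

end LPM
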