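import Pool.Agent.LPM.A2

set_option autoImplicit false
set_option linter.unusedSectionVars false
set_option linter.style.haveILetI false

/-!
A 2-generated automorphic loop modulo its middle nucleus is an abelian group.
-/

namespace LPM

open CAL

variable {Q : Type} {mul : Q → Q → Q} {e : Q}

theorem gen_swap {x w : Q} (hg : Gen mul e x w) : Gen mul e w x :=
  fun S he hw hx => hg S he hx hw

/-- Maps which fix the classes of `e`, `x`, `w` fix all classes. -/
theorem bar_rigid {h : IsLoop mul e} (ha : IsAut mul) {x w : Q} (hg : Gen mul e x w) {u : Equiv.Perm Q}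
    (hu : u ∈ mlt h) (he : sim h (u e) e) (hx : sim h (u x) x) (hw : sim h (u w) w) (y : Q) :
    sim h (u y) y := by
  -- first for inner maps
  have inner : ∀ g ∈ mlt h, g e = e → sim h (g x) x → sim h (g w) w → ∀ y, sim h (g y) y := by
    intro g hgm hge hgx hgw
    have hau := stab_aut h ha hgm hge
    apply hg (fun y => sim h (g y) y)
    · rw [hge]
      exact sim_refl h e
    · exact hgx
    · exact hgw
    · intro a b h1 h2
      rw [hau]
      exact sim_mul h ha h1 h2
    · intro a b h1 h2
      rw [hau] at h2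
      exact (sim_mul_left h ha).1 (sim_trans (sim_map h ha (Rp_mem h (g b)) (sim_symm h1)) h2)
    · intro a b h1 h2
      rw [hau] at h2
      exact (sim_mul_right h ha).1 (sim_trans (sim_map h ha (Lp_mem h (g a)) (sim_symm h1)) h2)
  have hn : ∀ y, sim h (mul (u e) y) y := by
    intro y
    have := sim_map h ha (Rp_mem h y) he
    rwa [Rp_apply, Rp_apply, h.one_mul] at this
  have hdec := inn_le h (mlt_decomp h hu)
  have hge : ((Lp h (u e))⁻¹ * u) e = e := by
    rw [Equiv.Perm.mul_apply, Equiv.Perm.inv_eq_iff_eq, Lp_apply, h.mul_one]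
  have hug : ∀ y, u y = mul (u e) (((Lp h (u e))⁻¹ * u) y) := by
    intro y
    rw [Equiv.Perm.mul_apply, ← Lp_apply h, app_inv]
  have hgy : ∀ y, sim h (u y) y → sim h (((Lp h (u e))⁻¹ * u) y) y := by
    intro y hy
    refine sim_trans (sim_symm (hn _)) ?_
    rw [← hug y]
    exact hy
  have key := inner _ hdec hge (hgy x hx) (hgy w hw) y
  rw [hug y]
  exact sim_trans (hn _) key

/-- Two maps which agree modulo `~` on `e`, `x`, `w` agree modulo `~`. -/
theorem bar_agree {h : IsLoop mul e} (ha : IsAut mul) {x w : Q} (hg : Gen mul e x w)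
    {u v : Equiv.Perm Q} (hu : u ∈ mlt h) (hv : v ∈ mlt h) (he : sim h (u e) (v e))
    (hx : sim h (u x) (v x)) (hw : sim h (u w) (v w)) (y : Q) : sim h (u y) (v y) := by
  have hvi := Subgroup.inv_mem _ hv
  have k : ∀ y, sim h (u y) (v y) → sim h ((v⁻¹ * u) y) y := by
    intro y hy
    have := sim_map h ha hvi hy
    rwa [inv_app] at this
  have h1 := bar_rigid ha hg (Subgroup.mul_mem _ hvi hu) (k e he) (k x hx) (k w hw) y
  have h2 := sim_map h ha hv h1
  rwa [Equiv.Perm.mul_apply, app_inv] at h2

theorem comm_LR {h : IsLoop mul e} (ha : IsAut mul) {x : Q} {t : Equiv.Perm Q} (ht : t ∈ mlt h)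
    (he : t e = e) (hx : t x = x) :
    t * Lp h x = Lp h x * t ∧ t * Rp h x = Rp h x * t ∧ t * Lp h (mul x x) = Lp h (mul x x) * t := by
  have hau := stab_aut h ha ht he
  refine ⟨?_, ?_, ?_⟩
  · have := aut_Lp h hau x
    rwa [hx] at this
  · have := aut_Rp h hau x
    rwa [hx] at this
  · have := aut_Lp h hau (mul x x)
    rwa [hau, hx] at this

/-- A generator commutes with everything modulo `~`. -/
theorem bar_comm_gen {h : IsLoop mul e} (ha : IsAut mul) {x w : Q} (hg : Gen mul e x w) (y : Q) :
    sim h (mul y x) (mul x y) := by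
  have hs : (Lp h x)⁻¹ * Rp h x ∈ mlt h :=
    Subgroup.mul_mem _ (Subgroup.inv_mem _ (Lp_mem h x)) (Rp_mem h x)
  have he : ((Lp h x)⁻¹ * Rp h x) e = e := by
    rw [Equiv.Perm.mul_apply, Equiv.Perm.inv_eq_iff_eq, Lp_apply, Rp_apply, h.mul_one, h.one_mul]
  have hx : ((Lp h x)⁻¹ * Rp h x) x = x := by
    rw [Equiv.Perm.mul_apply, Equiv.Perm.inv_eq_iff_eq, Lp_apply, Rp_apply]
  have h1 := main_lemma ha hg hs he hx (by
    intro t ht hte htx
    obtain ⟨h1, h2, -⟩ := comm_LR ha ht hte htx
    have h3 : t * (Lp h x)⁻¹ = (Lp h x)⁻¹ * t := by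
      rw [eq_inv_mul_iff_mul_eq, ← mul_assoc, ← h1]
      group
    rw [← mul_assoc t, h3, mul_assoc _ t, h2, mul_assoc])
  have h2 := bar_rigid ha hg hs (by rw [he]; exact sim_refl h e) (by rw [hx]; exact sim_refl h x) (sim_symm h1) y
  have h3 := sim_map h ha (Lp_mem h x) h2
  rwa [Equiv.Perm.mul_apply, app_inv, Rp_apply, Lp_apply] at h3

/-- Commutativity modulo `~`. -/
theorem bar_comm {h : IsLoop mul e} (ha : IsAut mul) {x w : Q} (hg : Gen mul e x w) (y z : Q) :
    sim h (mul z y) (mul y z) := by
  have := bar_agree ha hg (Rp_mem h y) (Lp_mem h y)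
    (by rw [Rp_apply, Lp_apply, h.mul_one, h.one_mul]; exact sim_refl h y)
    (sim_symm (bar_comm_gen ha hg y)) (sim_symm (bar_comm_gen ha (gen_swap hg) y)) z
  exact this

/-- `(x x) y ~ x (x y)`. -/
theorem bar_sq {h : IsLoop mul e} (ha : IsAut mul) {x w : Q} (hg : Gen mul e x w) (y : Q) :
    sim h (mul (mul x x) y) (mul x (mul x y)) := by
  have hs : (Lp h (mul x x))⁻¹ * (Lp h x * Lp h x) ∈ mlt h :=
    Subgroup.mul_mem _ (Subgroup.inv_mem _ (Lp_mem h _)) (Subgroup.mul_mem _ (Lp_mem h x) (Lp_mem h x))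
  have he : ((Lp h (mul x x))⁻¹ * (Lp h x * Lp h x)) e = e := by
    rw [Equiv.Perm.mul_apply, Equiv.Perm.inv_eq_iff_eq, Lp_apply, Equiv.Perm.mul_apply, Lp_apply, Lp_apply,
      h.mul_one, h.mul_one]
  have hx : ((Lp h (mul x x))⁻¹ * (Lp h x * Lp h x)) x = x := by
    rw [Equiv.Perm.mul_apply, Equiv.Perm.inv_eq_iff_eq, Lp_apply, Equiv.Perm.mul_apply, Lp_apply, Lp_apply,
      flex h ha]
  have h1 := main_lemma ha hg hs he hx (by
    intro t ht hte htx
    obtain ⟨h1, -, h2⟩ := comm_LR ha ht hte htx
    have h3 : t * (Lp h (mul x x))⁻¹ = (Lp h (mul x x))⁻¹ * t := by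
      rw [eq_inv_mul_iff_mul_eq, ← mul_assoc, ← h2]
      group
    have h4 : t * (Lp h x * Lp h x) = (Lp h x * Lp h x) * t := by
      rw [← mul_assoc, h1, mul_assoc, h1, mul_assoc]
    rw [← mul_assoc t, h3, mul_assoc _ t, h4, mul_assoc, mul_assoc])
  have h2 := bar_rigid ha hg hs (by rw [he]; exact sim_refl h e) (by rw [hx]; exact sim_refl h x) (sim_symm h1) y
  have h3 := sim_map h ha (Lp_mem h (mul x x)) h2
  rw [Equiv.Perm.mul_apply, app_inv, Equiv.Perm.mul_apply, Lp_apply, Lp_apply, Lp_apply] at h3
  exact sim_symm h3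

/-- The two generators: `x (w y) ~ w (x y)`. -/
theorem bar_xw {h : IsLoop mul e} (ha : IsAut mul) {x w : Q} (hg : Gen mul e x w) (y : Q) :
    sim h (mul x (mul w y)) (mul w (mul x y)) := by
  have L : ∀ {a b c : Q}, sim h b c → sim h (mul a b) (mul a c) := fun hs => (sim_mul_left h ha).2 hs
  have hg' := gen_swap hg
  have := bar_agree ha hg (Subgroup.mul_mem _ (Lp_mem h x) (Lp_mem h w))
    (Subgroup.mul_mem _ (Lp_mem h w) (Lp_mem h x))
    (by
      rw [Equiv.Perm.mul_apply, Equiv.Perm.mul_apply, Lp_apply, Lp_apply, Lp_apply, Lp_apply, h.mul_one,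
        h.mul_one]
      exact bar_comm ha hg w x)
    (by
      rw [Equiv.Perm.mul_apply, Equiv.Perm.mul_apply, Lp_apply, Lp_apply, Lp_apply, Lp_apply]
      exact sim_trans (L (bar_comm ha hg x w)) (sim_trans (sim_symm (bar_sq ha hg w)) (bar_comm ha hg w _)))
    (by
      rw [Equiv.Perm.mul_apply, Equiv.Perm.mul_apply, Lp_apply, Lp_apply, Lp_apply, Lp_apply]
      exact sim_trans (bar_comm ha hg _ x) (sim_trans (bar_sq ha hg' x) (L (bar_comm ha hg x w)))) y
  exact this

/-- Associativity modulo `~`. -/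
theorem bar_assoc {h : IsLoop mul e} (ha : IsAut mul) {x w : Q} (hg : Gen mul e x w) (y z t : Q) :
    sim h (mul (mul y z) t) (mul y (mul z t)) := by
  have L : ∀ {a b c : Q}, sim h b c → sim h (mul a b) (mul a c) := fun hs => (sim_mul_left h ha).2 hs
  have R : ∀ {a b c : Q}, sim h b c → sim h (mul b a) (mul c a) := fun hs => (sim_mul_right h ha).2 hs
  have C := fun y z => bar_comm (h := h) ha hg y z
  -- `P y`: `L_y` commutes with `L_x` and `L_w` modulo `~`
  have hass : ∀ y, (∀ t, sim h (mul y (mul x t)) (mul x (mul y t)) ∧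
      sim h (mul y (mul w t)) (mul w (mul y t))) → ∀ z t, sim h (mul (mul y z) t) (mul y (mul z t)) := by
    intro y hy z t
    refine bar_agree (u := Lp h (mul y z)) (v := Lp h y * Lp h z) ha hg (Lp_mem h (mul y z))
      (Subgroup.mul_mem _ (Lp_mem h y) (Lp_mem h z)) ?_ ?_ ?_ t
    · rw [Equiv.Perm.mul_apply, Lp_apply, Lp_apply, Lp_apply, h.mul_one, h.mul_one]
      exact sim_refl h _
    · rw [Equiv.Perm.mul_apply, Lp_apply, Lp_apply, Lp_apply]
      exact sim_trans (C x (mul y z)) (sim_trans (sim_symm (hy z).1) (L (C z x)))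
    · rw [Equiv.Perm.mul_apply, Lp_apply, Lp_apply, Lp_apply]
      exact sim_trans (C w (mul y z)) (sim_trans (sim_symm (hy z).2) (L (C z w)))
  have hall : ∀ y, ∀ t, sim h (mul y (mul x t)) (mul x (mul y t)) ∧
      sim h (mul y (mul w t)) (mul w (mul y t)) := by
    have hdiv : ∀ a b, (∀ t, sim h (mul a (mul x t)) (mul x (mul a t)) ∧
        sim h (mul a (mul w t)) (mul w (mul a t))) →
        (∀ t, sim h (mul (mul a b) (mul x t)) (mul x (mul (mul a b) t)) ∧
        sim h (mul (mul a b) (mul w t)) (mul w (mul (mul a b) t))) →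
        (∀ t, sim h (mul b (mul x t)) (mul x (mul b t)) ∧
        sim h (mul b (mul w t)) (mul w (mul b t))) := by
      intro a b h1 h2 t
      have k := hass a h1 b
      constructor
      · apply (sim_mul_left h ha (a := a)).1
        refine sim_trans (sim_symm (k _)) (sim_trans (h2 t).1 ?_)
        exact sim_trans (L (k t)) (sim_symm (h1 _).1)
      · apply (sim_mul_left h ha (a := a)).1
        refine sim_trans (sim_symm (k _)) (sim_trans (h2 t).2 ?_)
        exact sim_trans (L (k t)) (sim_symm (h1 _).2)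
    apply hg
    · intro t
      rw [h.one_mul, h.one_mul, h.one_mul]
      exact ⟨sim_refl h _, sim_refl h _⟩
    · intro t
      exact ⟨sim_refl h _, bar_xw ha hg t⟩
    · intro t
      exact ⟨bar_xw ha (gen_swap hg) t, sim_refl h _⟩
    · intro a b h1 h2 t
      have k := hass a h1 b
      constructor
      · exact sim_trans (k _) (sim_trans (L (h2 t).1) (sim_trans (h1 _).1 (L (sim_symm (k t)))))
      · exact sim_trans (k _) (sim_trans (L (h2 t).2) (sim_trans (h1 _).2 (L (sim_symm (k t)))))
    · exact hdiv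
    · intro a b h1 h2
      refine hdiv b a h1 ?_
      intro t
      constructor
      · exact sim_trans (R (C a b)) (sim_trans (h2 t).1 (L (R (C b a))))
      · exact sim_trans (R (C a b)) (sim_trans (h2 t).2 (L (R (C b a))))
  exact hass y (hall y) z t

/-- The setoid. -/
def simSetoid (h : IsLoop mul e) : Setoid Q :=
  ⟨sim h, ⟨sim_refl h, sim_symm, sim_trans⟩⟩

/-- **Theorem 2**: a 2-generated automorphic loop modulo its middle nucleus is an abelian group. -/
theorem thm2 (h : IsLoop mul e) (ha : IsAut mul) {x w : Q} (hg : Gen mul e x w) :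
    ∃ (A : Type) (_ : CommGroup A) (φ : Q → A), Function.Surjective φ ∧
      (∀ y z, φ (mul y z) = φ y * φ z) ∧
      (∀ y, φ y = 1 ↔ ∀ a b, mul (mul a y) b = mul a (mul y b)) := by
  have hinv : ∀ a b, sim h a b → sim h (ld h a e) (ld h b e) := by
    intro a b hab
    apply (sim_mul_left h ha (a := a)).1
    rw [mul_ld h]
    have := (sim_mul_right h ha (a := ld h b e)).2 hab
    rw [mul_ld h b e] at this
    exact sim_symm this
  let A : Type := Quotient (simSetoid h)
  let cg : CommGroup A :=
    { mul := Quotient.map₂ mul (fun a b hab c d hcd => sim_mul h ha hab hcd)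
      one := Quotient.mk _ e
      inv := Quotient.map (fun a => ld h a e) hinv
      mul_assoc := by
        intro a b c
        induction a using Quotient.inductionOn
        induction b using Quotient.inductionOn
        induction c using Quotient.inductionOn
        exact Quotient.sound (bar_assoc ha hg _ _ _)
      one_mul := by
        intro a
        induction a using Quotient.inductionOn
        exact congrArg (Quotient.mk (simSetoid h)) (h.one_mul _)
      mul_one := by
        intro a
        induction a using Quotient.inductionOn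
        exact congrArg (Quotient.mk (simSetoid h)) (h.mul_one _)
      inv_mul_cancel := by
        intro a
        induction a using Quotient.inductionOn
        exact congrArg (Quotient.mk (simSetoid h)) (inv_mul' h ha _)
      mul_comm := by
        intro a b
        induction a using Quotient.inductionOn
        induction b using Quotient.inductionOn
        exact Quotient.sound (bar_comm ha hg _ _) }
  refine ⟨A, cg, fun y => Quotient.mk _ y, Quotient.mk_surjective, fun y z => rfl, fun y => ?_⟩
  rw [← sim_e_iff h ha y]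
  constructor
  · intro hy
    exact sim_symm (Quotient.exact hy)
  · intro hy
    exact Quotient.sound (sim_symm hy)

end LPM
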