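import Pool.Agent.LPM.A3
import Pool.Agent.CAL.PA

set_option autoImplicit false
set_option linter.unusedSectionVars false
set_option linter.style.haveILetI false

/-!
Cauchy's theorem for automorphic loops that are extensions of the middle nucleus by an abelian group.
-/

namespace LPM

open CAL

variable {Q : Type} {mul : Q → Q → Q} {e : Q}

theorem pw_mul_self (hpa : PowAssoc mul e) (x : Q) (m k : ℕ) :
    pw mul e (pw mul e x m) k = pw mul e x (m * k) := by
  induction k with
  | zero => rfl
  | succ k ih => rw [pw_succ, ih, hpa, Nat.mul_succ]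

theorem Lp_pow_e (h : IsLoop mul e) (hpa : PowAssoc mul e) (x : Q) (k : ℕ) :
    (Lp h x ^ k) e = pw mul e x k := by
  induction k with
  | zero => rfl
  | succ k ih =>
    rw [pow_succ', Equiv.Perm.mul_apply, ih, Lp_apply]
    have := hpa x 1 k
    rwa [pw_one h, add_comm] at this

/-- Cauchy for an extension of the middle nucleus by a group. -/
theorem cauchy_ext [Finite Q] (h : IsLoop mul e) (ha : IsAut mul) {A : Type} [Group A] (φ : Q → A)
    (hsur : Function.Surjective φ) (hmul : ∀ y z, φ (mul y z) = φ y * φ z)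
    (hker : ∀ y, φ y = 1 ↔ ∀ a b, mul (mul a y) b = mul a (mul y b)) (p : ℕ) (hp : p.Prime)
    (hdvd : p ∣ Nat.card Q) : ∃ x, x ≠ e ∧ pw mul e x p = e := by
  have hpf : Fact p.Prime := ⟨hp⟩
  have hpa := powAssoc_of_aut h ha
  have hfA : Finite A := Finite.of_surjective φ hsur
  have hφe : φ e = 1 := by
    have := hmul e e
    rw [h.one_mul] at this
    exact left_eq_mul.1 this
  have hld : ∀ a b, φ (ld h a b) = (φ a)⁻¹ * φ b := by
    intro a b
    have := hmul a (ld h a b)
    rw [mul_ld h] at this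
    rw [this]
    group
  -- the bijection
  have hcard : Nat.card Q = Nat.card A * Nat.card {v : Q // φ v = 1} := by
    rw [← Nat.card_prod]
    refine (Nat.card_congr (Equiv.ofBijective
      (fun c : A × {v : Q // φ v = 1} => mul (Function.surjInv hsur c.1) c.2.1) ⟨?_, ?_⟩)).symm
    · rintro ⟨α, v, hv⟩ ⟨β, w, hw⟩ heq
      have h1 : φ (mul (Function.surjInv hsur α) v) = φ (mul (Function.surjInv hsur β) w) :=
        congrArg φ heq
      rw [hmul, hmul, hv, hw, mul_one, mul_one, Function.surjInv_eq hsur, Function.surjInv_eq hsur] at h1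
      subst h1
      have h2 : v = w := mul_left_inj' h heq
      subst h2
      rfl
    · intro z
      refine ⟨⟨φ z, ⟨ld h (Function.surjInv hsur (φ z)) z, ?_⟩⟩, mul_ld h _ _⟩
      rw [hld, Function.surjInv_eq hsur, inv_mul_cancel]
  rw [hcard] at hdvd
  rcases (hp.dvd_mul).1 hdvd with h1 | h1
  · -- the quotient
    obtain ⟨α, hα⟩ := exists_prime_orderOf_dvd_card' p h1
    obtain ⟨y, rfl⟩ := hsur α
    have hpow : ∀ n, φ (pw mul e y n) = φ y ^ n := by
      intro n
      induction n with
      | zero => rw [pw_zero, hφe, pow_zero]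
      | succ n ih => rw [pw_succ, hmul, ih, pow_succ]
    have hex : ∃ n, 0 < n ∧ pw mul e y n = e := by
      refine ⟨orderOf (Rp h y), orderOf_pos _, ?_⟩
      rw [← Rp_pow_e h, pow_orderOf_eq_one]
      rfl
    classical
    obtain ⟨hn0, hn1⟩ := Nat.find_spec hex
    have hmin := fun m => Nat.find_min hex (m := m)
    generalize Nat.find hex = n at hn0 hn1 hmin
    have h2 : p ∣ n := by
      rw [← hα]
      apply orderOf_dvd_of_pow_eq_one
      rw [← hpow, hn1, hφe]
    obtain ⟨m, rfl⟩ := h2
    have hm0 : 0 < m := by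
      rcases Nat.eq_zero_or_pos m with h | h
      · subst h
        simp at hn0
      · exact h
    refine ⟨pw mul e y m, ?_, ?_⟩
    · intro hc
      refine hmin m ?_ ⟨hm0, hc⟩
      have := hp.one_lt
      nlinarith
    · rw [pw_mul_self hpa, mul_comm, hn1]
  · -- the middle nucleus
    have hLL : ∀ v w, φ w = 1 → Lp h (mul v w) = Lp h v * Lp h w := by
      intro v w hw
      ext z
      exact (hker w).1 hw v z
    let K : Subgroup (Equiv.Perm Q) :=
      { carrier := {u | ∃ v, φ v = 1 ∧ u = Lp h v}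
        mul_mem' := by
          rintro _ _ ⟨v, hv, rfl⟩ ⟨w, hw, rfl⟩
          exact ⟨mul v w, by rw [hmul, hv, hw, mul_one], (hLL v w hw).symm⟩
        one_mem' := ⟨e, hφe, (Lp_e h).symm⟩
        inv_mem' := by
          rintro _ ⟨v, hv, rfl⟩
          refine ⟨ld h v e, by rw [hld, hv, hφe, inv_one, mul_one], ?_⟩
          rw [inv_eq_iff_mul_eq_one, ← hLL _ _ (by rw [hld, hv, hφe, inv_one, mul_one]), mul_ld h, Lp_e] }
    have hK : Nat.card K = Nat.card {v : Q // φ v = 1} := by
      refine (Nat.card_congr (Equiv.ofBijective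
        (fun v : {v : Q // φ v = 1} => (⟨Lp h v.1, v.1, v.2, rfl⟩ : K)) ⟨?_, ?_⟩)).symm
      · intro v w hvw
        have h2 : Lp h v.1 = Lp h w.1 := congrArg Subtype.val hvw
        have h3 := congrArg (fun f : Equiv.Perm Q => f e) h2
        simp only [Lp_apply, h.mul_one] at h3
        exact Subtype.ext h3
      · rintro ⟨_, v, hv, rfl⟩
        exact ⟨⟨v, hv⟩, rfl⟩
    rw [← hK] at h1
    obtain ⟨⟨k, v, hv, rfl⟩, hk⟩ := exists_prime_orderOf_dvd_card' p h1
    have hk1 : (Lp h v) ^ p = 1 := by
      have := pow_orderOf_eq_one (⟨Lp h v, v, hv, rfl⟩ : K)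
      rw [hk] at this
      exact congrArg Subtype.val this
    refine ⟨v, ?_, ?_⟩
    · intro hve
      have h2 : (⟨Lp h v, v, hv, rfl⟩ : K) = 1 := by
        apply Subtype.ext
        show Lp h v = 1
        rw [hve, Lp_e]
      rw [h2, orderOf_one] at hk
      exact hp.one_lt.ne hk
    · rw [← Lp_pow_e h hpa, hk1]
      rfl

/-- Cauchy's theorem for finite 2-generated automorphic loops. -/
theorem cauchy_two [Finite Q] (h : IsLoop mul e) (ha : IsAut mul) {x w : Q} (hg : Gen mul e x w) (p : ℕ)
    (hp : p.Prime) (hdvd : p ∣ Nat.card Q) : ∃ y, y ≠ e ∧ pw mul e y p = e := by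
  obtain ⟨A, cg, φ, h1, h2, h3⟩ := thm2 h ha hg
  exact cauchy_ext h ha φ h1 h2 h3 p hp hdvd

end LPM
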