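import Pool.Agent.LPM.A4
import Pool.Agent.CAL.Syl

set_option autoImplicit false
set_option linter.unusedSectionVars false
set_option linter.style.haveILetI false

/-!
Subloops, and fixed-point-free elements of the multiplication group.
-/

namespace LPM

open CAL

variable {Q : Type} {mul : Q → Q → Q} {e : Q}

/-- A subset closed under all operations. -/
structure Clo (mul : Q → Q → Q) (e : Q) (S : Q → Prop) : Prop where
  one_mem : S e
  mul_mem : ∀ a b, S a → S b → S (mul a b)
  ldiv_mem : ∀ a b, S a → S (mul a b) → S b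
  rdiv_mem : ∀ a b, S b → S (mul a b) → S a

/-- A closed subset is an automorphic loop. -/
theorem sub_loop (h : IsLoop mul e) (ha : IsAut mul) {S : Q → Prop} (hS : Clo mul e S) :
    ∃ (m' : {x : Q // S x} → {x : Q // S x} → {x : Q // S x}) (e' : {x : Q // S x}),
      (∀ x y, (m' x y : Q) = mul x y) ∧ (e' : Q) = e ∧ IsLoop m' e' ∧ IsAut m' := by
  classical
  let T : Type := {x : Q // S x}
  let m' : T → T → T := fun x y => ⟨mul x.1 y.1, hS.mul_mem x.1 y.1 x.2 y.2⟩
  let e' : T := ⟨e, hS.one_mem⟩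
  have hm' : ∀ x y : T, (m' x y).1 = mul x.1 y.1 := fun _ _ => rfl
  have hloop : IsLoop m' e' := by
    refine ⟨fun x => Subtype.ext (h.one_mul _), fun x => Subtype.ext (h.mul_one _), fun a b => ?_,
      fun a b => ?_⟩
    · obtain ⟨x, hx, hu⟩ := h.ldiv a.1 b.1
      refine ⟨⟨x, hS.ldiv_mem a.1 x a.2 (hx ▸ b.2)⟩, Subtype.ext hx, fun y hy => Subtype.ext ?_⟩
      exact hu y.1 (congrArg Subtype.val hy)
    · obtain ⟨x, hx, hu⟩ := h.rdiv a.1 b.1
      refine ⟨⟨x, hS.rdiv_mem x a.1 a.2 (hx ▸ b.2)⟩, Subtype.ext hx, fun y hy => Subtype.ext ?_⟩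
      exact hu y.1 (congrArg Subtype.val hy)
  have extL : ∀ x y : Q, ∀ z, mul (mul y x) (((Lp h x).trans ((Lp h y).trans (Lp h (mul y x)).symm)) z) =
      mul y (mul x z) := fun x y z => (Lp h (mul y x)).apply_symm_apply _
  have extR : ∀ x y : Q, ∀ z, mul (((Rp h x).trans ((Rp h y).trans (Rp h (mul x y)).symm)) z) (mul x y) =
      mul (mul z x) y := fun x y z => (Rp h (mul x y)).apply_symm_apply _
  have extT : ∀ x : Q, ∀ z, mul x (((Rp h x).trans (Lp h x).symm) z) = mul z x :=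
    fun x z => (Lp h x).apply_symm_apply _
  have haut : IsAut m' := by
    refine ⟨fun x y f hf u v => Subtype.ext ?_, fun x y f hf u v => Subtype.ext ?_,
      fun x f hf u v => Subtype.ext ?_⟩
    · have res : ∀ z, (f z).1 =
          ((Lp h x.1).trans ((Lp h y.1).trans (Lp h (mul y.1 x.1)).symm)) z.1 := by
        intro z
        apply mul_left_inj' h (a := mul y.1 x.1)
        rw [extL]
        exact congrArg Subtype.val (hf z)
      rw [res, hm', hm', res, res]
      exact ha.innL x.1 y.1 _ (extL x.1 y.1) u.1 v.1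
    · have res : ∀ z, (f z).1 =
          ((Rp h x.1).trans ((Rp h y.1).trans (Rp h (mul x.1 y.1)).symm)) z.1 := by
        intro z
        apply mul_right_inj' h (a := mul x.1 y.1)
        rw [extR]
        exact congrArg Subtype.val (hf z)
      rw [res, hm', hm', res, res]
      exact ha.innR x.1 y.1 _ (extR x.1 y.1) u.1 v.1
    · have res : ∀ z, (f z).1 = ((Rp h x.1).trans (Lp h x.1).symm) z.1 := by
        intro z
        apply mul_left_inj' h (a := x.1)
        rw [extT]
        exact congrArg Subtype.val (hf z)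
      rw [res, hm', hm', res, res]
      exact ha.innT x.1 _ (extT x.1) u.1 v.1
  exact ⟨m', e', hm', rfl, hloop, haut⟩

theorem pw_sub' {S : Q → Prop} {m' : {x : Q // S x} → {x : Q // S x} → {x : Q // S x}}
    {e' : {x : Q // S x}} (hm : ∀ x y, (m' x y : Q) = mul x y) (he : (e' : Q) = e)
    (x : {x : Q // S x}) (k : ℕ) : ((pw m' e' x k : {x : Q // S x}) : Q) = pw mul e (x : Q) k := by
  induction k with
  | zero => exact he
  | succ k ih => rw [pw_succ, pw_succ, hm, ih]

/-- The subloop generated by `x` and `w`. -/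
def gcl (mul : Q → Q → Q) (e x w : Q) (z : Q) : Prop :=
  ∀ S : Q → Prop, Clo mul e S → S x → S w → S z

theorem gcl_clo (mul : Q → Q → Q) (e x w : Q) : Clo mul e (gcl mul e x w) :=
  ⟨fun _ hS _ _ => hS.one_mem, fun a b ha hb S hS hx hw => hS.mul_mem a b (ha S hS hx hw) (hb S hS hx hw),
    fun a b ha hb S hS hx hw => hS.ldiv_mem a b (ha S hS hx hw) (hb S hS hx hw),
    fun a b ha hb S hS hx hw => hS.rdiv_mem a b (ha S hS hx hw) (hb S hS hx hw)⟩

/-- Cauchy for 2-generated subloops. -/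
theorem cauchy_sub [Finite Q] (h : IsLoop mul e) (ha : IsAut mul) (x w : Q) (p : ℕ) (hp : p.Prime)
    (hdvd : p ∣ Nat.card {z : Q // gcl mul e x w z}) : ∃ y, y ≠ e ∧ pw mul e y p = e := by
  obtain ⟨m', e', hm, he, h', ha'⟩ := sub_loop h ha (gcl_clo mul e x w)
  have hg : Gen m' e' ⟨x, fun _ _ hx _ => hx⟩ ⟨w, fun _ _ _ hw => hw⟩ := by
    intro S hSe hSx hSw hSm hSl hSr y
    have hc : Clo mul e (fun z => ∃ hz : gcl mul e x w z, S ⟨z, hz⟩) := by
      refine ⟨⟨(gcl_clo mul e x w).one_mem, ?_⟩, ?_, ?_, ?_⟩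
      · have : (⟨e, (gcl_clo mul e x w).one_mem⟩ : {z : Q // gcl mul e x w z}) = e' := Subtype.ext he.symm
        rw [this]
        exact hSe
      · rintro a b ⟨ha1, ha2⟩ ⟨hb1, hb2⟩
        refine ⟨(gcl_clo mul e x w).mul_mem a b ha1 hb1, ?_⟩
        have := hSm _ _ ha2 hb2
        have e1 : m' ⟨a, ha1⟩ ⟨b, hb1⟩ = ⟨mul a b, (gcl_clo mul e x w).mul_mem a b ha1 hb1⟩ :=
          Subtype.ext (hm _ _)
        rwa [e1] at this
      · rintro a b ⟨ha1, ha2⟩ ⟨hb1, hb2⟩
        have hb3 := (gcl_clo mul e x w).ldiv_mem a b ha1 hb1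
        refine ⟨hb3, hSl ⟨a, ha1⟩ ⟨b, hb3⟩ ha2 ?_⟩
        have e1 : m' ⟨a, ha1⟩ ⟨b, hb3⟩ = ⟨mul a b, hb1⟩ := Subtype.ext (hm _ _)
        rwa [e1]
      · rintro a b ⟨ha1, ha2⟩ ⟨hb1, hb2⟩
        have hb3 := (gcl_clo mul e x w).rdiv_mem a b ha1 hb1
        refine ⟨hb3, hSr ⟨a, hb3⟩ ⟨b, ha1⟩ ha2 ?_⟩
        have e1 : m' ⟨a, hb3⟩ ⟨b, ha1⟩ = ⟨mul a b, hb1⟩ := Subtype.ext (hm _ _)
        rwa [e1]
    obtain ⟨_, hy⟩ := y.2 _ hc ⟨_, hSx⟩ ⟨_, hSw⟩
    exact hy
  obtain ⟨y, hy, hyp⟩ := cauchy_two h' ha' hg p hp hdvd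
  refine ⟨y, fun hye => hy (Subtype.ext (hye.trans he.symm)), ?_⟩
  rw [← pw_sub' (m' := m') (e' := e') hm he y p, hyp, he]

/-- A fixed-point-free permutation of prime order `p`. -/
theorem dvd_of_fpf {T : Type} [Finite T] (u : Equiv.Perm T) (p : ℕ) (hp : p.Prime) (hu : u ^ p = 1)
    (hf : ∀ t, u t ≠ t) : p ∣ Nat.card T := by
  have hpf : Fact p.Prime := ⟨hp⟩
  have hP : IsPGroup p (Subgroup.zpowers u) := by
    by_cases h1 : u = 1
    · subst h1
      rw [Subgroup.zpowers_one_eq_bot]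
      exact IsPGroup.of_bot
    · apply IsPGroup.of_card (n := 1)
      rw [Nat.card_zpowers, pow_one]
      exact orderOf_eq_prime hu h1
  have h := hP.card_modEq_card_fixedPoints T
  have h2 : Nat.card (MulAction.fixedPoints (Subgroup.zpowers u) T) = 0 := by
    rw [Nat.card_eq_zero]
    left
    constructor
    rintro ⟨t, ht⟩
    exact hf t (ht ⟨u, Subgroup.mem_zpowers u⟩)
  rw [h2] at h
  exact (Nat.modEq_zero_iff_dvd).1 h

/-- If a fixed-point-free element `u = L_x g` of the multiplication group satisfies `u^p = 1`, and `g (g x)` is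
in the subloop generated by `x` and `g x`, then there is an element of order `p`. -/
theorem cauchy_perm [Finite Q] (h : IsLoop mul e) (ha : IsAut mul) (p : ℕ) (hp : p.Prime)
    {u : Equiv.Perm Q} (hu : u ∈ mlt h) (hup : u ^ p = 1) (hf : ∀ t, u t ≠ t)
    (hgg : gcl mul e (u e) (((Lp h (u e))⁻¹ * u) (u e))
      (((Lp h (u e))⁻¹ * u) (((Lp h (u e))⁻¹ * u) (u e)))) :
    ∃ y, y ≠ e ∧ pw mul e y p = e := by
  set x := u e with hx
  set g := (Lp h x)⁻¹ * u with hg
  have hgi : g ∈ inn mul := mlt_decomp h hu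
  have hau : ∀ a b, g (mul a b) = mul (g a) (g b) := inn_aut ha hgi
  have hge : g e = e := inn_e h hgi
  set S := gcl mul e x (g x) with hS
  have hSc : Clo mul e S := gcl_clo mul e x (g x)
  have hSx : S x := fun _ _ hx _ => hx
  have hSg : ∀ z, S z → S (g z) := by
    intro z hz
    apply hz (fun z => S (g z))
    · refine ⟨?_, ?_, ?_, ?_⟩
      · show S (g e)
        rw [hge]
        exact hSc.one_mem
      · intro a b h1 h2
        show S (g (mul a b))
        rw [hau]
        exact hSc.mul_mem _ _ h1 h2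
      · intro a b h1 h2
        have h3 : S (g (mul a b)) := h2
        rw [hau] at h3
        exact hSc.ldiv_mem _ _ h1 h3
      · intro a b h1 h2
        have h3 : S (g (mul a b)) := h2
        rw [hau] at h3
        exact hSc.rdiv_mem _ _ h1 h3
    · exact fun _ _ _ hw => hw
    · exact hgg
  have hug : ∀ z, u z = mul x (g z) := by
    intro z
    rw [hg, Equiv.Perm.mul_apply, ← Lp_apply h, app_inv]
  have hSu : ∀ z, S z → S (u z) := by
    intro z hz
    rw [hug]
    exact hSc.mul_mem _ _ hSx (hSg z hz)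
  have hSun : ∀ n : ℕ, ∀ z, S z → S ((u ^ n) z) := by
    intro n
    induction n with
    | zero => exact fun z hz => hz
    | succ n ih =>
      intro z hz
      rw [pow_succ, Equiv.Perm.mul_apply]
      exact ih _ (hSu z hz)
  have hSu' : ∀ z, S (u z) → S z := by
    intro z hz
    have h1 := hSun (p - 1) (u z) hz
    rw [← Equiv.Perm.mul_apply, ← pow_succ, Nat.sub_add_cancel hp.one_lt.le, hup] at h1
    exact h1
  let u' : Equiv.Perm {z : Q // S z} := u.subtypePerm (fun z => ⟨hSu' z, hSu z⟩)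
  have hu' : ∀ z, ((u' z : {z : Q // S z}) : Q) = u z := fun z => rfl
  have hup' : u' ^ p = 1 := by
    ext z
    have : ∀ n : ℕ, (((u' ^ n) z : {z : Q // S z}) : Q) = (u ^ n) z := by
      intro n
      induction n with
      | zero => rfl
      | succ n ih => rw [pow_succ', pow_succ', Equiv.Perm.mul_apply, Equiv.Perm.mul_apply, hu', ih]
    rw [this, hup]
    rfl
  have hdvd := dvd_of_fpf u' p hp hup' (fun t ht => hf t (congrArg Subtype.val ht))
  exact cauchy_sub h ha x (g x) p hp hdvd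

/-- Either `p` divides the order of the inner mapping group, or there is a fixed-point-free element of order `p`
in the multiplication group. -/
theorem exists_fpf [Finite Q] (h : IsLoop mul e) (p : ℕ) (hp : p.Prime) (hdvd : p ∣ Nat.card Q)
    (hH : ¬ p ∣ Nat.card (inn mul)) : ∃ u ∈ mlt h, u ^ p = 1 ∧ ∀ t, u t ≠ t := by
  have hpf : Fact p.Prime := ⟨hp⟩
  have htrans : MulAction.orbit (mlt h) e = Set.univ := by
    ext z
    simp only [Set.mem_univ, iff_true]
    exact ⟨⟨Lp h z, Lp_mem h z⟩, h.mul_one z⟩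
  have hd : p ∣ Nat.card (mlt h) := by
    have h1 : (MulAction.stabilizer (mlt h) e).index = Nat.card Q := by
      rw [MulAction.index_stabilizer, htrans, Set.ncard_univ]
    have h2 := (MulAction.stabilizer (mlt h) e).index_dvd_card
    rw [h1] at h2
    exact hdvd.trans h2
  obtain ⟨⟨u, hu⟩, hup⟩ := exists_prime_orderOf_dvd_card' p hd
  have hu1 : u ^ p = 1 := by
    have := pow_orderOf_eq_one (⟨u, hu⟩ : mlt h)
    rw [hup] at this
    exact congrArg Subtype.val this
  have hne : u ≠ 1 := by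
    intro hc
    have : (⟨u, hu⟩ : mlt h) = 1 := Subtype.ext hc
    rw [this, orderOf_one] at hup
    exact hp.one_lt.ne hup
  refine ⟨u, hu, hu1, fun t ht => hH ?_⟩
  have hv : (Lp h t)⁻¹ * u * Lp h t ∈ mlt h :=
    Subgroup.mul_mem _ (Subgroup.mul_mem _ (Subgroup.inv_mem _ (Lp_mem h t)) hu) (Lp_mem h t)
  have hve : ((Lp h t)⁻¹ * u * Lp h t) e = e := by
    rw [Equiv.Perm.mul_apply, Equiv.Perm.mul_apply, Lp_apply, h.mul_one, ht, Equiv.Perm.inv_eq_iff_eq,
      Lp_apply, h.mul_one]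
  have hvi := stab_inn h hv hve
  have hvp : ((Lp h t)⁻¹ * u * Lp h t) ^ p = 1 := by
    have := conj_pow (i := p) (a := (Lp h t)⁻¹) (b := u)
    rw [inv_inv, hu1, mul_one, inv_mul_cancel] at this
    exact this
  have hvne : (Lp h t)⁻¹ * u * Lp h t ≠ 1 := by
    intro hc
    apply hne
    have : u = Lp h t * ((Lp h t)⁻¹ * u * Lp h t) * (Lp h t)⁻¹ := by group
    rw [this, hc, mul_one, mul_inv_cancel]
  have hord : orderOf (⟨_, hvi⟩ : inn mul) = p := by
    apply orderOf_eq_prime
    · exact Subtype.ext hvp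
    · intro hc
      exact hvne (congrArg Subtype.val hc)
  rw [← hord]
  exact orderOf_dvd_natCard _

end LPM
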