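import Pool.Agent.LPM.A5

set_option autoImplicit false
set_option linter.unusedSectionVars false
set_option linter.style.haveILetI false

/-!
Cauchy's theorem for the prime 3.
-/

namespace LPM

open CAL

/-- Reduction to fixed-point-free elements of order `p` of the multiplication group. -/
theorem cauchy_red (p : ℕ) (hp : p.Prime)
    (hstep : ∀ {Q : Type} [Fintype Q] {mul : Q → Q → Q} {e : Q} (h : IsLoop mul e), IsAut mul →
      ∀ u ∈ mlt h, u ^ p = 1 → (∀ t, u t ≠ t) → ∃ y, y ≠ e ∧ pw mul e y p = e) (n : ℕ) :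
    ∀ {Q : Type} [Fintype Q] {mul : Q → Q → Q} {e : Q},
    Fintype.card Q = n → IsLoop mul e → IsAut mul → p ∣ Fintype.card Q →
    ∃ x, x ≠ e ∧ pw mul e x p = e := by
  induction n using Nat.strong_induction_on with
  | _ n ih =>
  intro Q _ mul e hn h ha hdvd
  classical
  by_cases hH : p ∣ Nat.card (inn mul)
  · obtain ⟨P, hP, hPp, -, hmeet, hbot⟩ := exists_sylow mul p hp
    obtain ⟨m', e', hm, he, h', ha', -⟩ := fix_sub h ha P hP
    have hcard := card_fix p hp P hPp
    rw [Nat.card_eq_fintype_card] at hcard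
    have hdvd' : p ∣ Fintype.card {x : Q // ∀ g ∈ P, g x = x} :=
      (Nat.modEq_zero_iff_dvd).1 (hcard.trans ((Nat.modEq_zero_iff_dvd).2 hdvd))
    have hlt : Fintype.card {x : Q // ∀ g ∈ P, g x = x} < Fintype.card Q := by
      obtain ⟨⟨g, hg⟩, hg1⟩ := Subgroup.ne_bot_iff_exists_ne_one.1 (hbot hH)
      have hmove : ∃ x, g x ≠ x := by
        by_contra hall
        push Not at hall
        apply hg1
        apply Subtype.ext
        ext x
        exact hall x
      obtain ⟨x, hx⟩ := hmove
      exact Fintype.card_subtype_lt (x := x) fun hall => hx (hall g hg)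
    obtain ⟨x, hx, hxp⟩ := ih _ (hn ▸ hlt) rfl h' ha' hdvd'
    refine ⟨x, fun hxe => hx (Subtype.ext (hxe.trans he.symm)), ?_⟩
    rw [← pw_sub' (m' := m') (e' := e') hm he x p, hxp, he]
  · rw [← Nat.card_eq_fintype_card] at hdvd
    obtain ⟨u, hu, hup, hf⟩ := exists_fpf h p hp hdvd hH
    exact hstep h ha u hu hup hf

/-- **Cauchy's theorem for finite automorphic loops, `p = 3`.** -/
theorem cauchy_three {Q : Type} [Fintype Q] {mul : Q → Q → Q} {e : Q} (h : IsLoop mul e) (ha : IsAut mul)
    (hdvd : 3 ∣ Fintype.card Q) : ∃ x, x ≠ e ∧ pw mul e x 3 = e := by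
  refine cauchy_red 3 Nat.prime_three ?_ _ rfl h ha hdvd
  clear hdvd ha h
  intro Q _ mul e h ha u hu hup hf
  apply cauchy_perm h ha 3 Nat.prime_three hu hup hf
  set x := u e with hx
  set g := (Lp h x)⁻¹ * u with hg
  have hgi : g ∈ inn mul := mlt_decomp h hu
  have hug : ∀ z, u z = mul x (g z) := by
    intro z
    rw [hg, Equiv.Perm.mul_apply, ← Lp_apply h, app_inv]
  have h1 : u (u (u e)) = e := by
    have := congrArg (fun f : Equiv.Perm Q => f e) hup
    exact this
  rw [← hx, hug x, hug (mul x (g x)), inn_aut ha hgi] at h1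
  intro S hS hSx hSg
  apply hS.ldiv_mem (g x) _ hSg
  apply hS.ldiv_mem x _ hSx
  rw [h1]
  exact hS.one_mem

end LPM
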