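import Mathlib

set_option autoImplicit false

/-!
The Baer-Suzuki theorem (proof of Alperin and Lyons).
-/

open scoped Pointwise

namespace LPM

/-- Growth in nilpotent groups. -/
theorem bs_growth {P : Type*} [Group P] [Finite P] [Group.IsNilpotent P] (C : Set P)
    (hC : ∀ g x, x ∈ C → g * x * g⁻¹ ∈ C) (Q : Subgroup P) (hQ : ∃ x ∈ C, x ∉ Q) :
    ∃ x ∈ C, x ∉ Q ∧ ∀ y ∈ C, y ∈ Q → x * y * x⁻¹ ∈ Q := by
  classical
  obtain ⟨x0, hx0, hx0Q⟩ := hQ
  -- a maximal subgroup `T` with `C ∩ T = C ∩ Q`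
  let S : Set (Subgroup P) := {T | (∀ y ∈ C, y ∈ Q → y ∈ T) ∧ ∀ y ∈ C, y ∈ T → y ∈ Q}
  have hS : S.Nonempty := ⟨Q, fun y _ h => h, fun y _ h => h⟩
  obtain ⟨T, hT⟩ := (Set.toFinite S).exists_maximal hS
  obtain ⟨hT1, hT2⟩ := hT.prop
  have hlt : T < ⊤ := by
    refine lt_top_iff_ne_top.2 fun h => hx0Q (hT2 x0 hx0 (h ▸ Subgroup.mem_top x0))
  have hn := Group.normalizerCondition_of_isNilpotent (G := P) T hlt
  have hmem : (Subgroup.normalizer (T : Set P)) ∉ S := fun h => not_lt_of_ge (hT.le_of_ge h hn.le) hn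
  have : ∃ x ∈ C, x ∈ Subgroup.normalizer (T : Set P) ∧ x ∉ Q := by
    by_contra hcon
    push Not at hcon
    exact hmem ⟨fun y h1 h2 => hn.le (hT1 y h1 h2), fun y h1 h2 => hcon y h1 h2⟩
  obtain ⟨x, hxC, hxN, hxQ⟩ := this
  refine ⟨x, hxC, hxQ, fun y hyC hyQ => ?_⟩
  exact hT2 _ (hC x y hyC) ((Subgroup.mem_normalizer_iff.1 hxN y).1 (hT1 y hyC hyQ))

theorem bs_growth' {G : Type*} [Group G] [Finite G] (p : ℕ) [Fact p.Prime] (C : Set G)
    (hC : ∀ g x, x ∈ C → g * x * g⁻¹ ∈ C) (P Q : Subgroup G) (hP : IsPGroup p P)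
    (hQ : ∃ x ∈ C, x ∈ P ∧ x ∉ Q) :
    ∃ x ∈ C, x ∈ P ∧ x ∉ Q ∧ ∀ y ∈ C, y ∈ P → y ∈ Q → x * y * x⁻¹ ∈ Q := by
  have : Group.IsNilpotent P := hP.isNilpotent
  obtain ⟨x0, h1, h2, h3⟩ := hQ
  obtain ⟨x, hx1, hx2, hx3⟩ := bs_growth (P := P) ((fun x : P => (x : G)) ⁻¹' C)
    (fun g x hx => hC g x hx) (Q.subgroupOf P) ⟨⟨x0, h2⟩, h1, fun h => h3 h⟩
  refine ⟨x, hx1, x.2, fun h => hx2 h, fun y hyC hyP hyQ => ?_⟩
  exact hx3 ⟨y, hyP⟩ hyC hyQ

/-- An element normalising a finite set normalises the subgroup generated by it. -/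
theorem bs_norm {G : Type*} [Group G] [Finite G] (X : Set G) (x : G) (h : ∀ y ∈ X, x * y * x⁻¹ ∈ X) :
    x ∈ Subgroup.normalizer (Subgroup.closure X : Set G) := by
  have hfin : (X : Set G).Finite := Set.toFinite X
  have himg : (fun y => x * y * x⁻¹) '' X = X := by
    apply Set.eq_of_subset_of_ncard_le
    · rintro _ ⟨y, hy, rfl⟩
      exact h y hy
    · rw [Set.ncard_image_of_injective _ (fun a b hab => by simpa using hab)]
    · exact hfin
  have key : (Subgroup.closure X).map (MulAut.conj x).toMonoidHom = Subgroup.closure X := by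
    rw [MonoidHom.map_closure]
    congr 1
  rw [Subgroup.mem_normalizer_iff]
  intro y
  constructor
  · intro hy
    have : MulAut.conj x y ∈ (Subgroup.closure X).map (MulAut.conj x).toMonoidHom := ⟨y, hy, rfl⟩
    rw [key] at this
    exact this
  · intro hy
    change x * y * x⁻¹ ∈ Subgroup.closure X at hy
    rw [← key] at hy
    obtain ⟨z, hz, hz2⟩ := hy
    have : x * z * x⁻¹ = x * y * x⁻¹ := hz2
    have hzy : z = y := by simpa using this
    exact hzy ▸ hz

/-- **Baer-Suzuki.** -/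
theorem baer_suzuki {G : Type*} [Group G] [Finite G] (p : ℕ) [Fact p.Prime] (a : G)
    (h : ∀ g : G, IsPGroup p (Subgroup.closure {a, g * a * g⁻¹})) :
    ∃ N : Subgroup G, N.Normal ∧ IsPGroup p N ∧ a ∈ N := by
  classical
  let C : Set G := {x | ∃ g : G, x = g * a * g⁻¹}
  have hC : ∀ g x, x ∈ C → g * x * g⁻¹ ∈ C := by
    rintro g _ ⟨k, rfl⟩
    exact ⟨g * k, by group⟩
  have hpair : ∀ x ∈ C, ∀ y ∈ C, IsPGroup p (Subgroup.closure {x, y}) := by
    rintro _ ⟨g, rfl⟩ _ ⟨k, rfl⟩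
    have h1 := (h (g⁻¹ * k)).map (MulAut.conj g).toMonoidHom
    rw [MonoidHom.map_closure] at h1
    have h2 : ((MulAut.conj g).toMonoidHom '' {a, g⁻¹ * k * a * (g⁻¹ * k)⁻¹} : Set G) =
        {g * a * g⁻¹, k * a * k⁻¹} := by
      rw [Set.image_pair]
      congr 1
      have : (MulAut.conj g).toMonoidHom (g⁻¹ * k * a * (g⁻¹ * k)⁻¹) = k * a * k⁻¹ := by
        change g * (g⁻¹ * k * a * (g⁻¹ * k)⁻¹) * g⁻¹ = k * a * k⁻¹
        group
      rw [this]
    rwa [h2] at h1
  -- two Sylow subgroups meet `C` in sets of the same size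
  have hcard : ∀ P Q : Sylow p G, (C ∩ (P : Set G)) ⊆ (Q : Set G) → C ∩ (P : Set G) = C ∩ (Q : Set G) := by
    intro P Q hPQ
    refine Set.eq_of_subset_of_ncard_le (fun x hx => (⟨hx.1, hPQ hx⟩ : x ∈ C ∩ (Q : Set G))) ?_ (Set.toFinite _)
    obtain ⟨g, hg⟩ := MulAction.exists_smul_eq G P Q
    have : C ∩ (Q : Set G) = (fun y => g * y * g⁻¹) '' (C ∩ (P : Set G)) := by
      ext y
      rw [← hg]
      constructor
      · rintro ⟨h1, h2⟩
        refine ⟨g⁻¹ * y * g, ⟨?_, ?_⟩, by group⟩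
        · have := hC g⁻¹ y h1
          rwa [inv_inv] at this
        · have h3 : y ∈ (MulAut.conj g • (P : Subgroup G)) := h2
          rw [Subgroup.mem_pointwise_smul_iff_inv_smul_mem] at h3
          have h4 : (MulAut.conj g)⁻¹ • y = g⁻¹ * y * g := by
            rw [← map_inv]
            change g⁻¹ * y * g⁻¹⁻¹ = _
            rw [inv_inv]
          rwa [h4] at h3
      · rintro ⟨z, ⟨h1, h2⟩, rfl⟩
        refine ⟨hC g z h1, ?_⟩
        change g * z * g⁻¹ ∈ (MulAut.conj g • (P : Subgroup G))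
        rw [Subgroup.mem_pointwise_smul_iff_inv_smul_mem]
        have h4 : (MulAut.conj g)⁻¹ • (g * z * g⁻¹) = z := by
          rw [← map_inv]
          change g⁻¹ * (g * z * g⁻¹) * g⁻¹⁻¹ = _
          group
        rwa [h4]
    rw [this, Set.ncard_image_of_injective _ (fun a b hab => by simpa using hab)]
  have main : ∀ k : ℕ, ∀ P Q : Sylow p G, Nat.card G - (C ∩ (P : Set G) ∩ (Q : Set G)).ncard = k →
      C ∩ (P : Set G) = C ∩ (Q : Set G) := by
    intro k
    induction k using Nat.strong_induction_on with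
    | _ k ih =>
      intro P Q hk
      by_contra hne
      have hPQ : ∃ x ∈ C, x ∈ (P : Subgroup G) ∧ x ∉ (Q : Subgroup G) := by
        by_contra hcon
        push Not at hcon
        exact hne (hcard P Q fun x hx => hcon x hx.1 hx.2)
      have hQP : ∃ x ∈ C, x ∈ (Q : Subgroup G) ∧ x ∉ (P : Subgroup G) := by
        by_contra hcon
        push Not at hcon
        exact hne (hcard Q P fun x hx => hcon x hx.1 hx.2).symm
      obtain ⟨x, hxC, hxP, hxQ, hx⟩ := bs_growth' p C hC P Q P.2 hPQ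
      obtain ⟨y, hyC, hyQ, hyP, hy⟩ := bs_growth' p C hC Q P Q.2 hQP
      set X : Set G := C ∩ (P : Set G) ∩ (Q : Set G) with hX
      have hxX : ∀ z ∈ X, x * z * x⁻¹ ∈ X := by
        rintro z ⟨⟨h1, h2⟩, h3⟩
        exact ⟨⟨hC x z h1, (P : Subgroup G).mul_mem ((P : Subgroup G).mul_mem hxP h2) ((P : Subgroup G).inv_mem hxP)⟩,
          hx z h1 h2 h3⟩
      have hyX : ∀ z ∈ X, y * z * y⁻¹ ∈ X := by
        rintro z ⟨⟨h1, h2⟩, h3⟩
        exact ⟨⟨hC y z h1, hy z h1 h3 h2⟩, (Q : Subgroup G).mul_mem ((Q : Subgroup G).mul_mem hyQ h3)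
          ((Q : Subgroup G).inv_mem hyQ)⟩
      have hD : IsPGroup p (Subgroup.closure X) := by
        apply P.2.to_le
        rw [Subgroup.closure_le]
        exact fun z hz => hz.1.2
      have hK : Subgroup.closure {x, y} ≤ Subgroup.normalizer (Subgroup.closure X : Set G) := by
        rw [Subgroup.closure_le]
        rintro z (rfl | rfl)
        · exact bs_norm X _ hxX
        · exact bs_norm X _ hyX
      have hsup := (hpair x hxC y hyC).to_sup_of_normal_right' hD hK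
      obtain ⟨R, hR⟩ := hsup.exists_le_sylow
      have hxR : x ∈ (R : Subgroup G) := hR (Subgroup.mem_sup_left (Subgroup.subset_closure (Or.inl rfl)))
      have hyR : y ∈ (R : Subgroup G) := hR (Subgroup.mem_sup_left (Subgroup.subset_closure (Or.inr rfl)))
      have hXR : ∀ z ∈ X, z ∈ (R : Subgroup G) := fun z hz =>
        hR (Subgroup.mem_sup_right (Subgroup.subset_closure hz))
      have hlt1 : X.ncard < (C ∩ (P : Set G) ∩ (R : Set G)).ncard := by
        apply Set.ncard_lt_ncard _ (Set.toFinite _)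
        refine ⟨fun z hz => ⟨hz.1, hXR z hz⟩, fun hcon => hxQ ?_⟩
        exact (hcon ⟨⟨hxC, hxP⟩, hxR⟩).2
      have hlt2 : X.ncard < (C ∩ (Q : Set G) ∩ (R : Set G)).ncard := by
        apply Set.ncard_lt_ncard _ (Set.toFinite _)
        refine ⟨fun z hz => ⟨⟨hz.1.1, hz.2⟩, hXR z hz⟩, fun hcon => hyP ?_⟩
        exact (hcon ⟨⟨hyC, hyQ⟩, hyR⟩).1.2
      have hle : ∀ Y : Set G, Y.ncard ≤ Nat.card G := fun Y => Set.ncard_le_card Y
      have e1 := ih _ (by have := hle (C ∩ (P : Set G) ∩ (R : Set G)); omega) P R rfl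
      have e2 := ih _ (by have := hle (C ∩ (Q : Set G) ∩ (R : Set G)); omega) Q R rfl
      exact hne (e1.trans e2.symm)
  obtain ⟨P0⟩ := (inferInstance : Nonempty (Sylow p G))
  have hCP : C ⊆ (P0 : Set G) := by
    intro c hc
    obtain ⟨R, hR⟩ := (hpair c hc c hc).exists_le_sylow
    have hcR : c ∈ (R : Subgroup G) := hR (Subgroup.subset_closure (Or.inl rfl))
    have := main _ R P0 rfl
    have h2 : c ∈ C ∩ (P0 : Set G) := this ▸ ⟨hc, hcR⟩
    exact h2.2
  refine ⟨Subgroup.closure C, ?_, ?_, Subgroup.subset_closure ⟨1, by group⟩⟩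
  · constructor
    intro n hn g
    induction hn using Subgroup.closure_induction with
    | mem x hx => exact Subgroup.subset_closure (hC g x hx)
    | one => simp
    | mul x y _ _ h1 h2 =>
      have : g * (x * y) * g⁻¹ = (g * x * g⁻¹) * (g * y * g⁻¹) := by group
      rw [this]
      exact Subgroup.mul_mem _ h1 h2
    | inv x _ h1 =>
      have : g * x⁻¹ * g⁻¹ = (g * x * g⁻¹)⁻¹ := by group
      rw [this]
      exact Subgroup.inv_mem _ h1
  · apply P0.2.to_le
    rw [Subgroup.closure_le]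
    exact hCP

end LPM
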