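import Pool.Agent.LPM.S2

set_option autoImplicit false
set_option linter.unusedSectionVars false
set_option linter.style.haveILetI false

/-!
Automorphic loops: the elements `c \ E_P c`, where `E_P = L_P L_{P⁻¹}`.
-/

namespace LPM

open CAL

variable {Q : Type} {mul : Q → Q → Q} {e : Q}

/-- The inner mapping `E_a = L_a L_{a⁻¹}`. -/
noncomputable def EE (h : IsLoop mul e) (a : Q) : Equiv.Perm Q := Lp h a * Lp h (iv h a)

theorem EE_app (h : IsLoop mul e) (a x : Q) : EE h a x = mul a (mul (iv h a) x) := rfl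

section autom

variable (h : IsLoop mul e) (ha : IsAut mul)
include h ha

theorem EE_mem (a : Q) : EE h a ∈ inn mul := kk_mem h ha a

theorem EE_fix (a : Q) : EE h a a = a := kk_fix h ha a

theorem EE_symm (a : Q) : EE h a = Lp h (iv h a) * Lp h a := LLi_comm h ha a

theorem EE_iv (a : Q) : EE h (iv h a) = EE h a := by
  rw [EE_symm h ha a]
  unfold EE
  rw [iv_iv h ha]

/-- An inner mapping fixing `a` commutes with `E_a`. -/
theorem EE_comm {u : Equiv.Perm Q} (hu : u ∈ inn mul) {a : Q} (hua : u a = a) : u * EE h a = EE h a * u := by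
  have h1 := aut_Lp h (inn_aut ha hu) a
  have h2 := aut_Lp h (inn_aut ha hu) (iv h a)
  rw [aut_iv h ha hu] at h2
  rw [hua] at h1 h2
  unfold EE
  rw [← mul_assoc, h1, mul_assoc, h2, mul_assoc]

/-- `u E_a u⁻¹ = E_{u a}`. -/
theorem aut_EE {u : Equiv.Perm Q} (hu : u ∈ inn mul) (a : Q) : u * EE h a = EE h (u a) * u := by
  have h1 := aut_Lp h (inn_aut ha hu) a
  have h2 := aut_Lp h (inn_aut ha hu) (iv h a)
  rw [aut_iv h ha hu] at h2
  unfold EE
  rw [← mul_assoc, h1, mul_assoc, h2, mul_assoc]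

theorem EE_R (a : Q) : EE h a = Rp h a * Rp h (iv h a) := by
  have hR : ∀ b : Q, Rp h b = Lp h b * Tt h b := by
    intro b
    unfold Tt
    group
  have h1 := aut_Lp h (inn_aut ha (Tt_mem h a)) (iv h a)
  rw [aut_iv h ha (Tt_mem h a), Tt_self h] at h1
  rw [hR a, hR (iv h a), Tt_iv h ha]
  have h2 : Lp h a * Tt h a * (Lp h (iv h a) * (Tt h a)⁻¹) = Lp h a * (Tt h a * Lp h (iv h a)) * (Tt h a)⁻¹ := by
    group
  rw [h2, h1]
  unfold EE
  group

/-- `l(x, s y) = l(x, y)` for an inner mapping `s` fixing `x` and commuting with `l(x, y)`. -/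
theorem li_fixed {s : Equiv.Perm Q} (hs : s ∈ inn mul) {x : Q} (hx : s x = x) (y : Q)
    (hc : s * li h x y = li h x y * s) : li h x (s y) = li h x y := by
  have h1 := aut_li h ha hs x y
  rw [hx, hc] at h1
  exact (mul_right_cancel h1).symm

theorem li_EE (x y : Q) : li h x (EE h x y) = li h x y :=
  li_fixed h ha (EE_mem h ha x) (EE_fix h ha x) y (EE_comm h ha (li_mem h x y) (li_fix h ha x y)).symm

theorem li_EE' (x y : Q) : li h x ((EE h x)⁻¹ y) = li h x y := by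
  have := li_EE h ha x ((EE h x)⁻¹ y)
  rw [app_inv] at this
  exact this.symm

theorem li_li (x y : Q) : li h x (li h x y y) = li h x y :=
  li_fixed h ha (li_mem h x y) (li_fix h ha x y) y rfl

/-- The condition at `x⁻¹`. -/
theorem D_iv (x c d : Q) : lam h (iv h x) d * (lam h (iv h x) c)⁻¹ = lam h e d * (lam h e c)⁻¹ ↔
    li h x d = li h x c := by
  have h1 : ∀ v, lam h (iv h x) v = (Lp h x)⁻¹ * Lp h (mul x v) * lam h (iv h x) e := by
    intro v
    rw [← D_e h ha x v]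
    group
  rw [h1 d, h1 c, lam_e, lam_e]
  unfold li
  constructor
  · intro hh
    have e1 : (Lp h (mul x d))⁻¹ * (Lp h x * Lp h d) =
        (Lp h (mul x c))⁻¹ * Lp h x * ((Lp h x)⁻¹ * Lp h (mul x d) * lam h (iv h x) e *
        ((Lp h x)⁻¹ * Lp h (mul x c) * lam h (iv h x) e)⁻¹)⁻¹ * Lp h d := by group
    rw [e1, hh]
    group
  · intro hh
    have e1 : (Lp h x)⁻¹ * Lp h (mul x d) * lam h (iv h x) e *
        ((Lp h x)⁻¹ * Lp h (mul x c) * lam h (iv h x) e)⁻¹ =
        Lp h d * ((Lp h (mul x d))⁻¹ * (Lp h x * Lp h d))⁻¹ * (Lp h (mul x c))⁻¹ * Lp h x := by group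
    rw [e1, hh]
    group

/-- `E_{xy} (l(x, y) y) = x⁻¹ (x y)`. -/
theorem EE_li (x y : Q) : EE h (mul x y) (li h x y y) = mul (iv h x) (mul x y) := by
  have h1 : mul (mul x y) (li h x y (iv h y)) = x := by
    have := congrArg (fun f : Equiv.Perm Q => f (iv h y)) (li_def h x y)
    simp only [Equiv.Perm.mul_apply, Lp_apply] at this
    rw [← this, mul_iv h, h.mul_one]
  rw [aut_iv h ha (li_mem h x y)] at h1
  have h2 := congrArg (iv h) h1
  rw [aaip h ha, iv_iv h ha] at h2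
  rw [EE_R h ha, Equiv.Perm.mul_apply, Rp_apply, Rp_apply, h2]

/-- **(T3a)** -/
theorem T3a (c P : Q) : UU mul (ld h c ((EE h P)⁻¹ c)) c ∧ UU mul (ld h c ((EE h P)⁻¹ c)) P := by
  obtain ⟨x', hx'⟩ : ∃ x', mul x' P = c := (Rp h P).surjective c
  obtain ⟨x, hx⟩ : ∃ x, iv h x = x' := ⟨iv h x', iv_iv h ha x'⟩
  obtain ⟨y, hy⟩ : ∃ y, mul x y = P := ⟨ld h x P, mul_ld h x P⟩
  have hc : mul (iv h x) P = c := by rw [hx, hx']
  have hEx : EE h x y = c := by
    rw [EE_symm h ha, Equiv.Perm.mul_apply, Lp_apply, Lp_apply, hy, hc]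
  have hd : (EE h P)⁻¹ c = li h x y y := by
    rw [Equiv.Perm.inv_eq_iff_eq, ← hc, ← hy, EE_li h ha]
  -- the point `x⁻¹`
  have h1 : lam h (iv h x) ((EE h P)⁻¹ c) * (lam h (iv h x) c)⁻¹ =
      lam h e ((EE h P)⁻¹ c) * (lam h e c)⁻¹ := by
    rw [D_iv h ha, hd, li_li h ha, ← hEx, li_EE h ha]
  -- the point `P`
  have h2' : li h P (ld h P ((EE h P)⁻¹ c)) = li h P (ld h P c) := by
    have h3 : ld h P ((EE h P)⁻¹ c) = (EE h P)⁻¹ (ld h P c) := by
      have hm := Subgroup.inv_mem _ (EE_mem h ha P)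
      rw [aut_ld h (inn_aut ha hm)]
      have : (EE h P)⁻¹ P = P := by
        rw [Equiv.Perm.inv_eq_iff_eq, EE_fix h ha]
      rw [this]
    rw [h3, li_EE' h ha]
  have h2 : lam h P ((EE h P)⁻¹ c) * (lam h P c)⁻¹ = lam h e ((EE h P)⁻¹ c) * (lam h e c)⁻¹ :=
    (D_li h P c _).2 h2'
  have h3 := D_mul h ha rfl h1 h2
  rw [hc, lam_self, inv_one, mul_one, lam_e, lam_e] at h3
  have h4 : UU mul (ld h c ((EE h P)⁻¹ c)) c := by
    rw [UU_L h, mul_ld h]
    unfold lam at h3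
    have := congrArg (fun f => f * Lp h c) h3
    simp only [inv_mul_cancel_right] at this
    exact this.symm
  refine ⟨h4, ?_⟩
  rw [← D_U h ha h4, mul_ld h]
  exact h2'

/-- **(T3a)**, second form. -/
theorem T3b (c P : Q) : UU mul (ld h c (EE h P c)) c ∧ UU mul (ld h c (EE h P c)) P := by
  obtain ⟨c', hc'⟩ : ∃ c', c' = EE h P c := ⟨_, rfl⟩
  have h1 := T3a h ha c' P
  have h2 : (EE h P)⁻¹ c' = c := by rw [hc', inv_app]
  rw [h2] at h1
  obtain ⟨v, hv⟩ : ∃ v, v = ld h c' c := ⟨_, rfl⟩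
  rw [← hv] at h1
  have hcv : mul c' v = c := by rw [hv, mul_ld h]
  have h3 : UU mul v c := by
    rw [← hcv]
    have hU := U_clo h ha v
    have e1 : mul (iv h P) c = ld h P c' := by
      apply mul_left_inj' h (a := P)
      rw [mul_ld h, hc', EE_app]
    have e2 : c = ld h (iv h P) (ld h P c') := by
      rw [← e1, ld_mul h]
    rw [hcv, e2]
    exact hU.ld_mem h (hU.iv_mem h h1.2) (hU.ld_mem h h1.2 h1.1)
  have h4 : mul c (iv h v) = c' := by
    rw [← hcv]
    have := h1.1 (iv h v)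
    unfold As at this
    rw [this, mul_iv h, h.mul_one]
  have h5 : ld h c (EE h P c) = iv h v := by
    apply mul_left_inj' h (a := c)
    rw [mul_ld h, ← hc', h4]
  rw [h5]
  exact ⟨UU_iv h ha h3, UU_iv h ha h1.2⟩

end autom

end LPM
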