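import Pool.Agent.LPM.S3
import Pool.Agent.LPM.C1

set_option autoImplicit false
set_option linter.unusedSectionVars false
set_option linter.style.haveILetI false

/-!
Finite simple commutative automorphic loops have the inverse property.
-/

namespace LPM

open CAL

variable {Q : Type} {mul : Q → Q → Q} {e : Q}

/-- The group generated by the `E_a`. -/
def KK (h : IsLoop mul e) : Subgroup (Equiv.Perm Q) := Subgroup.closure (Set.range (EE h))

/-- Subloops invariant under all `E_a` and their inverses. -/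
structure KI (h : IsLoop mul e) (S : Q → Prop) : Prop where
  clo : Clo mul e S
  inv : ∀ a x, S x → S (EE h a x)
  inv' : ∀ a x, S x → S ((EE h a)⁻¹ x)

section comm

variable (h : IsLoop mul e) (ha : IsAut mul) (hc : ∀ a b, mul a b = mul b a)
include h ha

theorem T3c (c P : Q) : UU mul (ld h c (EE h P c)) c := (T3b h ha c P).1
theorem T3P (c P : Q) : UU mul (ld h c (EE h P c)) P := (T3b h ha c P).2
theorem T3P' (c P : Q) : UU mul (ld h c ((EE h P)⁻¹ c)) P := (T3a h ha c P).2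

theorem Ee_mem (a : Q) : EE h a ∈ inn mul := kk_mem h ha a

theorem aut_Ee {u : Equiv.Perm Q} (hu : u ∈ inn mul) (a : Q) : u * EE h a = EE h (u a) * u := by
  have h1 := aut_Lp h (inn_aut ha hu) a
  have h2 := aut_Lp h (inn_aut ha hu) (iv h a)
  rw [aut_iv h ha hu] at h2
  unfold EE
  rw [← mul_assoc, h1, mul_assoc, h2, mul_assoc]

theorem aut_Ee' {u : Equiv.Perm Q} (hu : u ∈ inn mul) (a x : Q) : u (EE h a x) = EE h (u a) (u x) :=
  congrArg (fun f : Equiv.Perm Q => f x) (aut_EE h ha hu a)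

theorem aut_Ei' {u : Equiv.Perm Q} (hu : u ∈ inn mul) (a x : Q) :
    u ((EE h a)⁻¹ x) = (EE h (u a))⁻¹ (u x) := by
  rw [← Equiv.Perm.mul_apply, ← Equiv.Perm.mul_apply]
  congr 1
  rw [eq_inv_mul_iff_mul_eq, ← mul_assoc, ← aut_EE h ha hu]
  group

theorem Ee_app (a x : Q) : EE h a x = mul a (mul (iv h a) x) := rfl

theorem KK_le : KK h ≤ inn mul := by
  unfold KK
  rw [Subgroup.closure_le]
  rintro _ ⟨a, rfl⟩
  exact Ee_mem h ha a

include hc

theorem iv_mulc (x y : Q) : iv h (mul x y) = mul (iv h x) (iv h y) := by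
  rw [aaip h ha, hc]

/-- `v ∈ U_v` implies `v (v⁻¹ t) = t`. -/
theorem Vfix {v : Q} (hv : UU mul v v) (t : Q) : mul v (mul (iv h v) t) = t := by
  have h1 := (UU_iv h ha hv) t
  have h2 := (U_clo h ha (iv h v)).one_mem
  have h3 : As mul v (iv h v) t := UU_iv h ha hv t
  rw [← h3, mul_iv h, h.one_mul]

/-- `E_{x v} u = E_x u`. -/
theorem Kfix {x v u : Q} (hv : UU mul v v) (h1 : As mul x v u) (h2 : As mul (iv h x) u (iv h v)) :
    EE h (mul x v) u = EE h x u := by
  -- the fixed subloop of `l(x, v)`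
  have hF : ∀ t, As mul x v t ↔ li h x v t = t := by
    intro t
    unfold li As
    rw [Equiv.Perm.mul_apply, Equiv.Perm.inv_eq_iff_eq]
    exact ⟨fun hh => hh.symm, fun hh => hh.symm⟩
  have hclo : Clo mul e (fun t => li h x v t = t) := fix_clo ha h (li_mem h x v)
  have hx : li h x v x = x := li_fix h ha x v
  have hvv : li h x v v = v := (hF v).1 (U_third h ha hv x)
  have hu : li h x v u = u := (hF u).1 h1
  have h3 : mul (iv h (mul x v)) u = mul (mul (iv h x) u) (iv h v) := by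
    have h4 : As mul x v (iv h u) := (hF _).2 (hclo.iv_mem h hu)
    have h5 := congrArg (iv h) h4
    rw [iv_mulc h ha hc, iv_iv h ha, iv_mulc h ha hc x (mul v (iv h u)), iv_mulc h ha hc v (iv h u),
      iv_iv h ha] at h5
    rw [h5, hc (iv h v) u]
    exact h2.symm
  have h6 : As mul x v (mul (iv h v) (mul (iv h x) u)) := by
    rw [hF]
    exact hclo.mul_mem _ _ (hclo.iv_mem h hvv) (hclo.mul_mem _ _ (hclo.iv_mem h hx) hu)
  rw [Ee_app h ha, Ee_app h ha, h3, hc (mul (iv h x) u) (iv h v), h6, Vfix h ha hc hv]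

/-- The mutual relation is preserved by the `E_x`, one half. -/
theorem mut1 {v w : Q} (hv : UU mul v v) (h1 : UU mul v w) (h2 : UU mul w v) (x : Q) :
    UU mul (EE h x w) v ∧ UU mul ((EE h x)⁻¹ w) v := by
  have h2' : UU mul w (iv h v) := (U_clo h ha w).iv_mem h h2
  constructor
  · have h3 : EE h (mul x v) w = EE h x w :=
      Kfix h ha hc hv (U_third h ha h1 x) (U_third h ha h2' (iv h x))
    have h4 := T3P h ha w (mul x v)
    rw [h3] at h4
    have h5 := (U_clo h ha _).ldiv_mem x v (T3P h ha w x) h4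
    have h6 := (N_clo h ha v).mul_mem _ _ h2 h5
    rwa [mul_ld h] at h6
  · have hF : ∀ t, As mul x v t ↔ li h x v t = t := by
      intro t
      unfold li As
      rw [Equiv.Perm.mul_apply, Equiv.Perm.inv_eq_iff_eq]
      exact ⟨fun hh => hh.symm, fun hh => hh.symm⟩
    have hclo : Clo mul e (fun t => li h x v t = t) := fix_clo ha h (li_mem h x v)
    have hx : li h x v x = x := li_fix h ha x v
    have hw : li h x v w = w := (hF w).1 (U_third h ha h1 x)
    have hw' : li h x v ((EE h x)⁻¹ w) = (EE h x)⁻¹ w := by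
      have := aut_Ei' h ha (li_mem h x v) x w
      rwa [hx, hw] at this
    have h3 : As mul (iv h x) ((EE h x)⁻¹ w) (iv h v) := by
      have h4 : As mul (iv h x) (ld h w ((EE h x)⁻¹ w)) (iv h v) :=
        (U_clo h ha _).iv_mem h (T3P' h ha w x) (iv h v)
      have h5 := (clo_v h ha (iv h x) (iv h v)).mul_mem _ _ (U_third h ha h2' (iv h x)) h4
      rwa [mul_ld h] at h5
    have h4 : EE h (mul x v) ((EE h x)⁻¹ w) = EE h x ((EE h x)⁻¹ w) := Kfix h ha hc hv ((hF _).2 hw') h3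
    rw [app_inv] at h4
    have h5 : (EE h (mul x v))⁻¹ w = (EE h x)⁻¹ w := by
      rw [Equiv.Perm.inv_eq_iff_eq]
      exact h4.symm
    have h6 := T3P' h ha w (mul x v)
    rw [h5] at h6
    have h7 := (U_clo h ha _).ldiv_mem x v (T3P' h ha w x) h6
    have h8 := (N_clo h ha v).mul_mem _ _ h2 h7
    rwa [mul_ld h] at h8

end comm

/-- Mutual pairs. -/
def Mu (mul : Q → Q → Q) (v w : Q) : Prop := UU mul v v ∧ UU mul w w ∧ UU mul v w ∧ UU mul w v

section comm2

variable (h : IsLoop mul e) (ha : IsAut mul) (hc : ∀ a b, mul a b = mul b a)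
include h ha hc

theorem mut2 {v w : Q} (hm : Mu mul v w) (x : Q) : Mu mul v (EE h x w) ∧ Mu mul v ((EE h x)⁻¹ w) := by
  obtain ⟨hv, hw, h1, h2⟩ := hm
  have i1 := mut1 h ha hc hv h1 h2 x
  have i2 := mut1 h ha hc hw h2 h1 x
  have hE := Ee_mem h ha x
  have hE' := Subgroup.inv_mem _ hE
  refine ⟨⟨hv, UU_map h ha hE hw, ?_, i1.1⟩, ⟨hv, UU_map h ha hE' hw, ?_, i1.2⟩⟩
  · have := UU_map h ha hE i2.2
    rwa [app_inv] at this
  · have := UU_map h ha hE' i2.1
    rwa [inv_app] at this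

theorem mut3 {v : Q} (hv : UU mul v v) {t : Equiv.Perm Q} (ht : t ∈ KK h) : Mu mul v (t v) := by
  unfold KK at ht
  induction ht using Subgroup.closure_induction_left with
  | one => exact ⟨hv, hv, hv, hv⟩
  | mul_left s hs t ht ih =>
    obtain ⟨a, rfl⟩ := hs
    exact (mut2 h ha hc ih a).1
  | inv_mul_cancel s hs t ht ih =>
    obtain ⟨a, rfl⟩ := hs
    exact (mut2 h ha hc ih a).2

theorem mut4 {v : Q} (hv : UU mul v v) {s t : Equiv.Perm Q} (hs : s ∈ KK h) (ht : t ∈ KK h) :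
    UU mul (s v) (t v) := by
  have h1 := (mut3 h ha hc hv (Subgroup.mul_mem _ (Subgroup.inv_mem _ hs) ht)).2.2.1
  have h2 := UU_map h ha (KK_le h ha hs) h1
  rwa [Equiv.Perm.mul_apply, app_inv] at h2

/-- The group `N`. -/
theorem exists_NK {v : Q} (hv : UU mul v v) :
    ∃ N : Q → Prop, KI h N ∧ N v ∧ ∀ x y, N x → N y → UU mul x y := by
  refine ⟨gen mul e (fun x => ∃ t ∈ KK h, t v = x), ⟨gen_clo _, fun a x hx => ?_, fun a x hx => ?_⟩,
    gen_sub ⟨1, Subgroup.one_mem _, rfl⟩, ?_⟩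
  · apply gen_map ha h (Ee_mem h ha a) _ hx
    rintro y ⟨t, ht, rfl⟩
    exact ⟨EE h a * t, Subgroup.mul_mem _ (Subgroup.subset_closure ⟨a, rfl⟩) ht, rfl⟩
  · apply gen_map ha h (Subgroup.inv_mem _ (Ee_mem h ha a)) _ hx
    rintro y ⟨t, ht, rfl⟩
    exact ⟨(EE h a)⁻¹ * t, Subgroup.mul_mem _ (Subgroup.inv_mem _ (Subgroup.subset_closure ⟨a, rfl⟩)) ht, rfl⟩
  · have h1 : ∀ x y, (∃ t ∈ KK h, t v = x) → gen mul e (fun x => ∃ t ∈ KK h, t v = x) y → UU mul x y := by
      rintro x y ⟨t, ht, rfl⟩ hy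
      refine gen_le (U_clo h ha _) ?_ hy
      rintro z ⟨s, hs, rfl⟩
      exact mut4 h ha hc hv ht hs
    intro x y hx hy
    exact gen_le (S := fun x => UU mul x y) (N_clo h ha y) (fun z hz => h1 z y hz hy) hx

end comm2

/-- Pieces. -/
structure Piece (h : IsLoop mul e) (S : Q → Prop) : Prop where
  ki : KI h S
  uu : ∀ x y, S x → S y → UU mul x y
  mn : ∀ T : Q → Prop, KI h T → (∃ x, T x ∧ x ≠ e) → (∀ x, T x → S x) → ∀ x, S x → T x
  gn : ∀ x, S x → gen mul e (fun z => ∃ n a, S n ∧ z = ld h n (EE h a n)) x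

section pieces

variable (h : IsLoop mul e) (ha : IsAut mul) (hc : ∀ a b, mul a b = mul b a)
include h ha

theorem KI_map {S : Q → Prop} (hS : KI h S) {u : Equiv.Perm Q} (hu : u ∈ inn mul) : KI h (fun x => S (u x)) := by
  refine ⟨hS.clo.comap ha h hu, fun a x hx => ?_, fun a x hx => ?_⟩
  · show S (u (EE h a x))
    rw [aut_Ee' h ha hu]
    exact hS.inv _ _ hx
  · show S (u ((EE h a)⁻¹ x))
    rw [aut_Ei' h ha hu]
    exact hS.inv' _ _ hx

theorem Piece_map {S : Q → Prop} (hS : Piece h S) {u : Equiv.Perm Q} (hu : u ∈ inn mul) :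
    Piece h (fun x => S (u x)) := by
  have hu' := Subgroup.inv_mem _ hu
  have e1 : ∀ x, u (u⁻¹ x) = x := fun x => app_inv u x
  have e2 : ∀ x, u⁻¹ (u x) = x := fun x => inv_app u x
  refine ⟨KI_map h ha hS.ki hu, fun x y hx hy => ?_, fun T hT hTe hTS x hx => ?_, fun x hx => ?_⟩
  · have := UU_map h ha hu' (hS.uu _ _ hx hy)
    rwa [e2, e2] at this
  · have h1 := hS.mn (fun x => T (u⁻¹ x)) (KI_map h ha hT hu') (by
      obtain ⟨x, hx1, hx2⟩ := hTe
      refine ⟨u x, ?_, fun hh => hx2 ?_⟩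
      · show T (u⁻¹ (u x))
        rwa [e2]
      · apply u.injective
        rw [hh, inn_e h hu]) (fun x hx => by
      have := hTS _ hx
      rwa [e1] at this) _ hx
    change T (u⁻¹ (u x)) at h1
    rwa [e2] at h1
  · have h1 := hS.gn _ hx
    have h2 : gen mul e (fun z => ∃ n a, S (u n) ∧ z = ld h n (EE h a n)) (u⁻¹ (u x)) := by
      refine gen_le (S := fun z => gen mul e (fun z => ∃ n a, S (u n) ∧ z = ld h n (EE h a n)) (u⁻¹ z))
        ((gen_clo _).comap ha h hu') ?_ h1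
      rintro z ⟨n, a, hn, rfl⟩
      apply gen_sub
      refine ⟨u⁻¹ n, u⁻¹ a, by rwa [e1], ?_⟩
      rw [aut_ld h (inn_aut ha hu'), aut_Ee' h ha hu']
    rwa [e2] at h2

/-- `n ∈ S`, `a ∈ S'`, `m ∈ S`, `b ∈ S'` : `(n a) (m b) = (n m) (a b)`. -/
theorem prod_eq (hc : ∀ a b, mul a b = mul b a) {S S' : Q → Prop} (hS : Piece h S) (hS' : Piece h S')
    {n m a b : Q} (hn : S n) (hm : S m) (hna : S' a) (hb : S' b) :
    mul (mul n a) (mul m b) = mul (mul n m) (mul a b) := by
  -- `(n a) t = n (a t)` for `t = m`, `t = b`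
  have h1 : ∀ t, (S t ∨ S' t) → As mul n a t := by
    intro t ht
    rcases ht with ht | ht
    · -- `(n a) t = t (n a) = (t n) a`
      have e1 : mul t (mul n a) = mul (mul t n) a := by
        -- `t ∈ U_n`
        exact (hS.uu n t hn ht a).symm
      have e2 : mul n (mul t a) = mul (mul n t) a := (hS.uu t n ht hn a).symm
      show mul (mul n a) t = mul n (mul a t)
      rw [hc (mul n a) t, e1, hc a t, e2, hc t n]
    · exact U_third h ha (hS'.uu a t hna ht) n
  have hF : ∀ t, As mul n a t ↔ li h n a t = t := by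
    intro t
    unfold li As
    rw [Equiv.Perm.mul_apply, Equiv.Perm.inv_eq_iff_eq]
    exact ⟨fun hh => hh.symm, fun hh => hh.symm⟩
  have hclo : Clo mul e (fun t => li h n a t = t) := fix_clo ha h (li_mem h n a)
  have h2 : As mul n a (mul m b) := by
    rw [hF]
    exact hclo.mul_mem _ _ ((hF m).1 (h1 m (Or.inl hm))) ((hF b).1 (h1 b (Or.inr hb)))
  -- `a (m b) = m (a b)`
  have h3 : mul a (mul m b) = mul m (mul a b) := by
    have e1 : mul (mul a b) m = mul a (mul b m) := by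
      -- `m (a b) = (m a) b`
      have e2 : As mul m a b := U_third h ha (hS'.uu a b hna hb) m
      have e3 : As mul m b a := U_third h ha (hS'.uu b a hb hna) m
      -- `(a b) m = m (a b) = (m a) b`, `a (b m) = a (m b) = (m b) a = m (b a)`
      rw [hc (mul a b) m, ← e2, hc a (mul b m), hc b m, e3, e2, hc a b]
    rw [hc m b, ← e1, hc]
  show mul (mul n a) (mul m b) = _
  rw [h2, h3, hS.uu m n hm hn]

theorem piece_swap (hc : ∀ a b, mul a b = mul b a) {S S' : Q → Prop} (hS : Piece h S) (hS' : Piece h S')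
    (hu : ∀ n a, S n → S' a → UU mul n a) : ∀ n a, S n → S' a → UU mul a n := by
  have key : ∀ n a x, S n → S' a → UU mul (ld h a (EE h x a)) n := by
    intro n a x hn hna
    have h1 := T3c h ha (mul n a) x
    have hm := hS.ki.clo.ld_mem h hn (hS.ki.inv x n hn)
    have hmu := hS'.ki.clo.ld_mem h hna (hS'.ki.inv x a hna)
    have h2 : ld h (mul n a) (EE h x (mul n a)) = mul (ld h n (EE h x n)) (ld h a (EE h x a)) := by
      apply mul_left_inj' h (a := mul n a)
      rw [mul_ld h, prod_eq h ha hc hS hS' hn hm hna hmu, mul_ld h, mul_ld h, inn_aut ha (Ee_mem h ha x)]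
    rw [h2] at h1
    have h3 : UU mul (ld h n (EE h x n)) (mul n a) :=
      (U_clo h ha _).mul_mem _ _ (hS.uu _ _ hm hn) (hu _ _ hm hna)
    have h4 := (N_clo h ha (mul n a)).ldiv_mem _ _ h3 h1
    exact (U_clo h ha _).rdiv_mem n a (hS'.uu _ _ hmu hna) h4
  intro n a hn hna
  refine gen_le (S := fun z => UU mul z n) (N_clo h ha n) ?_ (hS'.gn a hna)
  rintro z ⟨m, x, hm, rfl⟩
  exact key n m x hn hm

/-- `E_{y a} = E_y` on every piece, for `a` in a piece. -/
theorem piece_E (hc : ∀ a b, mul a b = mul b a) {S S' : Q → Prop} (hS : Piece h S) (hS' : Piece h S')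
    {a n : Q} (hna : S' a) (hn : S n) (y : Q) : EE h (mul y a) n = EE h y n := by
  by_contra hne
  have hEb : ∀ b, S' b → EE h (mul y a) b = EE h y b := by
    intro b hb
    exact Kfix h ha hc (hS'.uu a a hna hna) (U_third h ha (hS'.uu a b hna hb) y)
      (U_third h ha ((U_clo h ha b).iv_mem h (hS'.uu b a hb hna)) (iv h y))
  -- the element `d`
  have hm0 := hS.ki.clo.ld_mem h hn (hS.ki.inv y n hn)
  have hm1 := hS.ki.clo.ld_mem h hn (hS.ki.inv (mul y a) n hn)
  have hd := hS.ki.clo.ld_mem h hm0 hm1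
  have hde : ld h (ld h n (EE h y n)) (ld h n (EE h (mul y a) n)) ≠ e := by
    intro hh
    apply hne
    have h1 := mul_ld h (ld h n (EE h y n)) (ld h n (EE h (mul y a) n))
    rw [hh, h.mul_one] at h1
    rw [← mul_ld h n (EE h (mul y a) n), ← h1, mul_ld h]
  have hdb : ∀ b, S' b → UU mul (ld h (ld h n (EE h y n)) (ld h n (EE h (mul y a) n))) b := by
    intro b hb
    have hmu := hS'.ki.clo.ld_mem h hb (hS'.ki.inv y b hb)
    have h1 := T3c h ha (mul n b) y
    have h2 := T3c h ha (mul n b) (mul y a)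
    have e1 : ld h (mul n b) (EE h y (mul n b)) = mul (ld h n (EE h y n)) (ld h b (EE h y b)) := by
      apply mul_left_inj' h (a := mul n b)
      rw [mul_ld h, prod_eq h ha hc hS hS' hn hm0 hb hmu, mul_ld h, mul_ld h, inn_aut ha (Ee_mem h ha y)]
    have e2 : ld h (mul n b) (EE h (mul y a) (mul n b)) =
        mul (ld h n (EE h (mul y a) n)) (ld h b (EE h y b)) := by
      apply mul_left_inj' h (a := mul n b)
      rw [mul_ld h, prod_eq h ha hc hS hS' hn hm1 hb hmu, mul_ld h, mul_ld h,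
        inn_aut ha (Ee_mem h ha (mul y a)), hEb b hb]
    rw [e1] at h1
    rw [e2] at h2
    have h3 : mul (mul (ld h n (EE h y n)) (ld h b (EE h y b)))
        (ld h (ld h n (EE h y n)) (ld h n (EE h (mul y a) n))) =
        mul (ld h n (EE h (mul y a) n)) (ld h b (EE h y b)) := by
      have := prod_eq h ha hc hS hS' hm0 hd hmu hS'.ki.clo.one_mem
      rw [h.mul_one, h.mul_one, mul_ld h] at this
      exact this
    have h4 : UU mul (ld h (ld h n (EE h y n)) (ld h n (EE h (mul y a) n))) (mul n b) := by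
      apply (N_clo h ha (mul n b)).ldiv_mem _ _ h1
      show UU mul (mul _ _) _
      rw [h3]
      exact h2
    exact (U_clo h ha _).ldiv_mem n b (hS.uu _ _ hd hn) h4
  -- all of `S`
  have hall : ∀ x, S x → ∀ b, S' b → UU mul x b := by
    have h1 := hS.mn (fun x => S x ∧ ∀ b, S' b → UU mul x b) (by
      have hcl : Clo mul e (fun x => ∀ b : {b // S' b}, UU mul x b.1) := clo_all fun b => N_clo h ha b.1
      refine ⟨⟨⟨hS.ki.clo.one_mem, fun b hb => hcl.one_mem ⟨b, hb⟩⟩,
        fun p q hp hq => ⟨hS.ki.clo.mul_mem p q hp.1 hq.1, fun b hb =>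
          (N_clo h ha b).mul_mem p q (hp.2 b hb) (hq.2 b hb)⟩,
        fun p q hp hq => ⟨hS.ki.clo.ldiv_mem p q hp.1 hq.1, fun b hb =>
          (N_clo h ha b).ldiv_mem p q (hp.2 b hb) (hq.2 b hb)⟩,
        fun p q hp hq => ⟨hS.ki.clo.rdiv_mem p q hp.1 hq.1, fun b hb =>
          (N_clo h ha b).rdiv_mem p q (hp.2 b hb) (hq.2 b hb)⟩⟩, ?_, ?_⟩
      · rintro c x ⟨hx1, hx2⟩
        refine ⟨hS.ki.inv c x hx1, fun b hb => ?_⟩
        have := UU_map h ha (Ee_mem h ha c) (hx2 _ (hS'.ki.inv' c b hb))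
        rwa [app_inv] at this
      · rintro c x ⟨hx1, hx2⟩
        refine ⟨hS.ki.inv' c x hx1, fun b hb => ?_⟩
        have := UU_map h ha (Subgroup.inv_mem _ (Ee_mem h ha c)) (hx2 _ (hS'.ki.inv c b hb))
        rwa [inv_app] at this) ⟨_, ⟨hd, hdb⟩, hde⟩ (fun x hx => hx.1)
    exact fun x hx => (h1 x hx).2
  have hall' := piece_swap h ha hc hS hS' (fun n a hn hna => hall n hn a hna)
  apply hne
  exact Kfix h ha hc (hS'.uu a a hna hna) (U_third h ha (hall' n a hn hna) y)
    (U_third h ha ((U_clo h ha n).iv_mem h (hall n hn a hna)) (iv h y))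

end pieces

/-- A finite set closed under multiplication is closed under division. -/
theorem clo_of_finite [Finite Q] (h : IsLoop mul e) (hc : ∀ a b, mul a b = mul b a) {S : Q → Prop}
    (h1 : S e) (h2 : ∀ a b, S a → S b → S (mul a b)) : Clo mul e S := by
  have h3 : ∀ a b, S a → S (mul a b) → S b := by
    intro a b hSa hSb
    have hinj : Function.Injective (fun x : {x // S x} => (⟨mul a x.1, h2 a x.1 hSa x.2⟩ : {x // S x})) := by
      intro x y hxy
      apply Subtype.ext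
      exact mul_left_inj' h (congrArg Subtype.val hxy)
    obtain ⟨x, hx⟩ := Finite.surjective_of_injective hinj ⟨mul a b, hSb⟩
    have h4 : mul a x.1 = mul a b := congrArg Subtype.val hx
    rw [← mul_left_inj' h h4]
    exact x.2
  refine ⟨h1, h2, h3, fun a b hb hab => h3 b a hb (by rwa [hc])⟩

/-- A minimal nontrivial invariant subloop inside a given one. -/
theorem exists_minK [Finite Q] (h : IsLoop mul e) {N : Q → Prop} (hN : KI h N) {x0 : Q} (hx0 : N x0) (hx : x0 ≠ e) :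
    ∃ M : Q → Prop, KI h M ∧ (∀ x, M x → N x) ∧ (∃ x, M x ∧ x ≠ e) ∧
      ∀ S : Q → Prop, KI h S → (∃ x, S x ∧ x ≠ e) → (∀ x, S x → M x) → ∀ x, M x → S x := by
  classical
  have hne : Nonempty {M : Q → Prop // KI h M ∧ (∀ x, M x → N x) ∧ ∃ x, M x ∧ x ≠ e} :=
    ⟨⟨N, hN, fun _ hh => hh, x0, hx0, hx⟩⟩
  obtain ⟨⟨M, hM, hMN, hMe⟩, hmin⟩ := Finite.exists_min
    (fun M : {M : Q → Prop // KI h M ∧ (∀ x, M x → N x) ∧ ∃ x, M x ∧ x ≠ e} => {y | M.1 y}.ncard)
  refine ⟨M, hM, hMN, hMe, fun S hS hSe hSM x hMx => ?_⟩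
  have h2 : {y | S y} ⊆ {y | M y} := hSM
  have h3 := Set.eq_of_subset_of_ncard_le h2 (hmin ⟨S, hS, fun y hy => hMN y (hSM y hy), hSe⟩) (Set.toFinite _)
  have h4 : x ∈ {y | S y} := h3.symm ▸ (show x ∈ {y | M y} from hMx)
  exact h4

/-- **Theorem B.** A finite simple commutative automorphic loop has the inverse property. -/
theorem simple_comm_ip [Finite Q] (h : IsLoop mul e) (ha : IsAut mul) (hc : ∀ a b, mul a b = mul b a)
    (hs : Simp mul e) (a x : Q) : EE h a x = x := by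
  classical
  by_contra hax
  have hv0 : ld h x (EE h a x) ≠ e := by
    intro hh
    apply hax
    have := mul_ld h x (EE h a x)
    rw [hh, h.mul_one] at this
    exact this.symm
  have hvv : UU mul (ld h x (EE h a x)) (ld h x (EE h a x)) := by
    have h1 := T3c h ha x a
    have h2 := T3P h ha x a
    have h3 : UU mul (ld h x (EE h a x)) (EE h a x) := by
      rw [Ee_app h ha]
      exact (U_clo h ha _).mul_mem _ _ h2 ((U_clo h ha _).mul_mem _ _ ((U_clo h ha _).iv_mem h h2) h1)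
    exact (U_clo h ha _).ld_mem h h1 h3
  obtain ⟨N, hN, hNv, hNN⟩ := exists_NK h ha hc hvv
  obtain ⟨M, hM, hMN, ⟨x1, hx1, hx1e⟩, hmin⟩ := exists_minK h hN hNv hv0
  have hMM : ∀ x y, M x → M y → UU mul x y := fun x y hx hy => hNN x y (hMN x hx) (hMN y hy)
  let SS : Q → Prop := fun x => ∃ u ∈ inn mul, M (u x)
  have hSSinv : ∀ g ∈ inn mul, ∀ x, SS x → SS (g x) := by
    rintro g hg x ⟨u, hu, hux⟩
    refine ⟨u * g⁻¹, Subgroup.mul_mem _ hu (Subgroup.inv_mem _ hg), ?_⟩
    rwa [Equiv.Perm.mul_apply, inv_app]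
  have hgen : ∀ x, gen mul e SS x := by
    rcases hs (gen mul e SS) ⟨gen_clo SS, fun g hg x hx => gen_map ha h hg (hSSinv g hg) hx⟩ with h1 | h1
    · exact absurd (h1 x1 (gen_sub ⟨1, Subgroup.one_mem _, hx1⟩)) hx1e
    · exact h1
  -- some `E_b` is nontrivial on `M`
  have hnt : ∃ b n, M n ∧ EE h b n ≠ n := by
    by_contra hcon
    push Not at hcon
    apply hax
    refine gen_le (S := fun z => EE h a z = z) (fix_clo ha h (Ee_mem h ha a)) ?_ (hgen x)
    rintro z ⟨u, hu, huz⟩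
    apply u.injective
    rw [aut_Ee' h ha hu]
    exact hcon _ _ huz
  obtain ⟨b, n, hn, hbn⟩ := hnt
  have hP : Piece h M := by
    refine ⟨hM, hMM, hmin, ?_⟩
    apply hmin
    · refine ⟨gen_clo _, fun c z hz => ?_, fun c z hz => ?_⟩
      · apply gen_map ha h (Ee_mem h ha c) _ hz
        rintro w ⟨m, d, hm, rfl⟩
        refine ⟨EE h c m, EE h c d, hM.inv c m hm, ?_⟩
        rw [aut_ld h (inn_aut ha (Ee_mem h ha c)), aut_Ee' h ha (Ee_mem h ha c) d m]
      · have hm' := Subgroup.inv_mem _ (Ee_mem h ha c)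
        apply gen_map ha h hm' _ hz
        rintro w ⟨m, d, hm, rfl⟩
        refine ⟨(EE h c)⁻¹ m, (EE h c)⁻¹ d, hM.inv' c m hm, ?_⟩
        rw [aut_ld h (inn_aut ha hm'), aut_Ee' h ha hm' d m]
    · refine ⟨ld h n (EE h b n), gen_sub ⟨n, b, hn, rfl⟩, fun hh => hbn ?_⟩
      have := mul_ld h n (EE h b n)
      rw [hh, h.mul_one] at this
      exact this.symm
    · intro z hz
      refine gen_le hM.clo ?_ hz
      rintro w ⟨m, d, hm, rfl⟩
      exact hM.clo.ld_mem h hm (hM.inv d m hm)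
  -- `E_{y c} = E_y` for `c` in `SS`
  have hE : ∀ y c, SS c → ∀ z, EE h (mul y c) z = EE h y z := by
    rintro y c ⟨u, hu, huc⟩ z
    have hmem : (EE h y)⁻¹ * EE h (mul y c) ∈ inn mul :=
      Subgroup.mul_mem _ (Subgroup.inv_mem _ (Ee_mem h ha _)) (Ee_mem h ha _)
    have h1 : ((EE h y)⁻¹ * EE h (mul y c)) z = z := by
      refine gen_le (S := fun z => ((EE h y)⁻¹ * EE h (mul y c)) z = z) (fix_clo ha h hmem) ?_ (hgen z)
      rintro w ⟨g, hg, hgw⟩
      rw [Equiv.Perm.mul_apply, Equiv.Perm.inv_eq_iff_eq]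
      exact piece_E h ha hc (Piece_map h ha hP hg) (Piece_map h ha hP hu) huc hgw y
    rw [Equiv.Perm.mul_apply, Equiv.Perm.inv_eq_iff_eq] at h1
    exact h1
  -- the set `A`
  have hA : ∀ c, ∀ y z, EE h (mul y c) z = EE h y z := by
    intro c
    have hinv : ∀ g ∈ inn mul, ∀ c, (∀ y z, EE h (mul y c) z = EE h y z) →
        ∀ y z, EE h (mul y (g c)) z = EE h y z := by
      intro g hg c hcc y z
      have h1 := hcc (g⁻¹ y) (g⁻¹ z)
      have h2 := congrArg g h1
      rw [aut_Ee' h ha hg, aut_Ee' h ha hg, inn_aut ha hg, app_inv, app_inv] at h2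
      exact h2
    refine gen_le (S := fun c => ∀ y z, EE h (mul y c) z = EE h y z) (clo_of_finite h hc ?_ ?_) ?_ (hgen c)
    · intro y z
      rw [h.mul_one]
    · intro p q hp hq y z
      have h1 : mul y (mul p q) = mul (mul y p) (li h y p q) := by
        have := congrArg (fun f : Equiv.Perm Q => f q) (li_def h y p)
        exact this
      rw [h1, hinv _ (li_mem h y p) q hq, hp]
    · exact fun c hcS y z => hE y c hcS z
  apply hax
  have h1 := hA a e x
  rw [h.one_mul] at h1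
  rw [h1, Ee_app h ha, h.one_mul]
  have h2 : iv h e = e := by
    apply mul_left_inj' h (a := e)
    rw [mul_iv h, h.one_mul]
  rw [h2, h.one_mul]

end LPM
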