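import Pool.Agent.LPM.S1
import Pool.Agent.LPM.C1

set_option autoImplicit false
set_option linter.unusedSectionVars false
set_option linter.style.haveILetI false

/-!
Commutative automorphic loops with the inverse property.
-/

namespace LPM

open CAL

variable {Q : Type} {mul : Q → Q → Q} {e : Q}

section one

variable (h : IsLoop mul e) (ha : IsAut mul) (hcm : ∀ x y, mul x y = mul y x)
  (hE : ∀ x z, mul x (mul (iv h x) z) = z)
include h ha hcm hE

/-- `L_{x⁻¹} = L_x⁻¹`. -/
theorem Lp_iv (x : Q) : Lp h (iv h x) = (Lp h x)⁻¹ := by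
  rw [eq_comm, inv_eq_iff_mul_eq_one]
  ext z
  exact hE x z

theorem EE_one4 (x : Q) : EE h x = 1 := by
  ext z
  exact hE x z

/-- `l(x, y)` fixes `y`. -/
theorem li_fix2 (x y : Q) : li h x y y = y := by
  have h1 := EE_li h ha x y
  rw [EE_one4 h ha hcm hE] at h1
  have h2 := hE (iv h x) y
  rw [iv_iv h ha] at h2
  rw [h2] at h1
  exact h1

theorem iv_mul_comm (x y : Q) : iv h (mul x y) = mul (iv h x) (iv h y) := by
  rw [aaip h ha, hcm]

/-- `l(x, y)` commutes with `L_x`. -/
theorem li_c1 (x y : Q) : li h x y * Lp h x = Lp h x * li h x y := by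
  have := aut_Lp h (inn_aut ha (li_mem h x y)) x
  rwa [li_fix h ha] at this

theorem li_c2 (x y : Q) : li h x y * Lp h y = Lp h y * li h x y := by
  have := aut_Lp h (inn_aut ha (li_mem h x y)) y
  rwa [li_fix2 h ha hcm hE] at this

theorem li_c3 (x y : Q) : li h x y * Lp h (mul x y) = Lp h (mul x y) * li h x y := by
  have := aut_Lp h (inn_aut ha (li_mem h x y)) (mul x y)
  rwa [inn_aut ha (li_mem h x y), li_fix h ha, li_fix2 h ha hcm hE] at this

/-- `l(x⁻¹, y⁻¹) = l(x, y)`. -/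
theorem li_iv (x y : Q) : li h (iv h x) (iv h y) = li h x y := by
  ext z
  obtain ⟨t, rfl⟩ : ∃ t, iv h t = z := ⟨iv h z, iv_iv h ha z⟩
  rw [aut_iv h ha (li_mem h x y)]
  apply mul_left_inj' h (a := mul (iv h x) (iv h y))
  have h1 := congrArg (fun f : Equiv.Perm Q => f (iv h t)) (li_def h (iv h x) (iv h y))
  simp only [Equiv.Perm.mul_apply, Lp_apply] at h1
  rw [← h1]
  have h2 := congrArg (fun f : Equiv.Perm Q => f t) (li_def h x y)
  simp only [Equiv.Perm.mul_apply, Lp_apply] at h2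
  have h3 := congrArg (iv h) h2
  rw [iv_mul_comm h ha hcm hE, iv_mul_comm h ha hcm hE, iv_mul_comm h ha hcm hE, iv_mul_comm h ha hcm hE] at h3
  exact h3

/-- `l(y, x) = l(x, y)⁻¹`. -/
theorem li_swap (x y : Q) : li h y x = (li h x y)⁻¹ := by
  have h1 := li_def h (iv h x) (iv h y)
  rw [li_iv h ha hcm hE, Lp_iv h ha hcm hE, Lp_iv h ha hcm hE, ← iv_mul_comm h ha hcm hE,
    Lp_iv h ha hcm hE] at h1
  have h2 := congrArg (fun f : Equiv.Perm Q => f⁻¹) h1
  simp only [mul_inv_rev, inv_inv] at h2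
  have h3 := li_c3 h ha hcm hE x y
  have h4 := li_def h y x
  rw [hcm y x] at h4
  have h5 : (li h x y)⁻¹ * Lp h (mul x y) = Lp h (mul x y) * (li h x y)⁻¹ := by
    rw [inv_mul_eq_iff_eq_mul, ← mul_assoc, h3]
    group
  rw [h2, h5] at h4
  exact (mul_left_cancel h4).symm

/-- `L_x L_y = L_y L_x l(x, y)²`. -/
theorem Lp_comm_li (x y : Q) : Lp h x * Lp h y = Lp h y * Lp h x * (li h x y) ^ 2 := by
  rw [li_def h x y, li_def h y x, li_swap h ha hcm hE x y, hcm y x]
  group

/-- `L_{xy} = L_x L_y l(x, y)⁻¹`. -/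
theorem Lp_mul_li (x y : Q) : Lp h (mul x y) = Lp h x * Lp h y * (li h x y)⁻¹ := by
  rw [li_def h x y]
  group

theorem Lp_mul_li' (x y : Q) : Lp h (mul x y) = Lp h y * Lp h x * li h x y := by
  rw [li_def h y x, li_swap h ha hcm hE x y, hcm y x]
  group

theorem UU_self (x : Q) : UU mul x x := by
  have key : ∀ t, mul t (mul x x) = mul (mul t x) x := by
    intro t
    have h1 := congrArg (fun f : Equiv.Perm Q => f x) (li_def h t x)
    simp only [Equiv.Perm.mul_apply, Lp_apply] at h1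
    rw [li_fix2 h ha hcm hE] at h1
    exact h1
  intro t
  unfold As
  rw [hcm (mul x x) t, key, hcm t x, hcm (mul x t) x]

theorem UU_pw (x : Q) (k : ℕ) : UU mul (pw mul e x k) x := by
  induction k with
  | zero => exact (N_clo h ha x).one_mem
  | succ k ih =>
    rw [pw_succ]
    exact (N_clo h ha x).mul_mem _ _ ih (UU_self h ha hcm hE x)

theorem UU_pw2 (x : Q) (m k : ℕ) : UU mul (pw mul e x m) (pw mul e x k) := by
  induction k with
  | zero => exact (U_clo h ha _).one_mem
  | succ k ih =>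
    rw [pw_succ]
    exact (U_clo h ha _).mul_mem _ _ ih (UU_pw h ha hcm hE x m)

/-- `L_{x^k} = L_x^k`. -/
theorem Lp_pw (x : Q) (k : ℕ) : Lp h (pw mul e x k) = Lp h x ^ k := by
  induction k with
  | zero => rw [pw_zero, Lp_e, pow_zero]
  | succ k ih =>
    have h1 := (UU_L h (pw mul e x k) x).1 (UU_pw h ha hcm hE x k)
    rw [pw_succ, hcm, h1, ih, pow_succ']

theorem Lp_pow_app (x : Q) (k : ℕ) : (Lp h x ^ k) e = pw mul e x k := by
  rw [← Lp_pw h ha hcm hE, Lp_apply, h.mul_one]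

theorem pw_add (x : Q) (m k : ℕ) : pw mul e x (m + k) = mul (pw mul e x m) (pw mul e x k) := by
  rw [← Lp_pow_app h ha hcm hE, pow_add, Equiv.Perm.mul_apply, Lp_pow_app h ha hcm hE,
    ← Lp_pw h ha hcm hE, Lp_apply]

theorem pw_mul_nat (x : Q) (m k : ℕ) : pw mul e x (m * k) = pw mul e (pw mul e x m) k := by
  rw [← Lp_pow_app h ha hcm hE, pow_mul, ← Lp_pw h ha hcm hE x m, Lp_pow_app h ha hcm hE]

omit hcm hE in
theorem aut_pw {u : Equiv.Perm Q} (hu : u ∈ inn mul) (x : Q) (k : ℕ) :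
    u (pw mul e x k) = pw mul e (u x) k := by
  induction k with
  | zero => exact inn_e h hu
  | succ k ih => rw [pw_succ, pw_succ, inn_aut ha hu, ih]

/-- `(L_x L_y)^k = L_x^k L_y^k A^{-k(k-1)}` in the weak form which is needed. -/
theorem mul_pow_li (x y : Q) (k : ℕ) :
    ∃ n m : ℤ, Lp h (mul x y) ^ k = Lp h x ^ k * Lp h y ^ k * (li h x y) ^ n ∧
      Lp h y ^ k * Lp h x = Lp h x * Lp h y ^ k * (li h x y) ^ m := by
  have c1 : Commute (li h x y) (Lp h x) := li_c1 h ha hcm hE x y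
  have c2 : Commute (li h x y) (Lp h y) := li_c2 h ha hcm hE x y
  induction k with
  | zero => exact ⟨0, 0, by simp, by simp⟩
  | succ k ih =>
    obtain ⟨n, m, h1, h2⟩ := ih
    refine ⟨n + m - 1, m - 2, ?_, ?_⟩
    · rw [pow_succ, h1, Lp_mul_li h ha hcm hE]
      calc Lp h x ^ k * Lp h y ^ k * li h x y ^ n * (Lp h x * Lp h y * (li h x y)⁻¹)
          = Lp h x ^ k * Lp h y ^ k * (li h x y ^ n * (Lp h x * Lp h y)) * (li h x y)⁻¹ := by group
        _ = Lp h x ^ k * (Lp h y ^ k * Lp h x) * Lp h y * li h x y ^ n * (li h x y)⁻¹ := by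
            rw [((c1.zpow_left n).mul_right (c2.zpow_left n)).eq]
            group
        _ = Lp h x ^ k * Lp h x * Lp h y ^ k * (li h x y ^ m * Lp h y) * li h x y ^ n * (li h x y)⁻¹ := by
            rw [h2]
            group
        _ = Lp h x ^ (k + 1) * Lp h y ^ (k + 1) * li h x y ^ (n + m - 1) := by
            rw [(c2.zpow_left m).eq, pow_succ (Lp h x), pow_succ (Lp h y)]
            group
    · have h3 := Lp_comm_li h ha hcm hE x y
      have h4 : Lp h y * Lp h x = Lp h x * Lp h y * (li h x y) ^ (-2 : ℤ) := by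
        rw [h3]
        group
      rw [pow_succ]
      calc Lp h y ^ k * Lp h y * Lp h x = Lp h y ^ k * (Lp h y * Lp h x) := by group
        _ = (Lp h y ^ k * Lp h x) * Lp h y * (li h x y) ^ (-2 : ℤ) := by rw [h4]; group
        _ = Lp h x * Lp h y ^ k * (li h x y ^ m * Lp h y) * (li h x y) ^ (-2 : ℤ) := by rw [h2]; group
        _ = Lp h x * (Lp h y ^ k * Lp h y) * li h x y ^ (m - 2) := by
            rw [(c2.zpow_left m).eq]
            group

/-- The power maps are endomorphisms. -/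
theorem pw_hom (x y : Q) (k : ℕ) : pw mul e (mul x y) k = mul (pw mul e x k) (pw mul e y k) := by
  obtain ⟨n, m, h1, -⟩ := mul_pow_li h ha hcm hE x y k
  rw [← Lp_pow_app h ha hcm hE, h1, Equiv.Perm.mul_apply, Equiv.Perm.mul_apply]
  have h2 : ((li h x y) ^ n) e = e := inn_e h (Subgroup.zpow_mem _ (li_mem h x y) n)
  rw [h2, Lp_pow_app h ha hcm hE, ← Lp_pw h ha hcm hE, Lp_apply]


/-- `L_x L_{u²} L_x = L_{x² u²}`. -/
theorem sand_sq (x u : Q) : Lp h x * Lp h (mul u u) * Lp h x = Lp h (mul (mul x x) (mul u u)) := by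
  have h1 : mul (mul x x) (mul u u) = pw mul e (mul x u) 2 := by
    rw [pw_hom h ha hcm hE, pw_succ, pw_one h, pw_succ, pw_one h]
  have h2 : Lp h (mul u u) = Lp h u * Lp h u := (UU_L h u u).1 (UU_self h ha hcm hE u)
  rw [h1, Lp_pw h ha hcm hE, pow_two, h2]
  have c1 : Commute (li h x u) (Lp h x) := li_c1 h ha hcm hE x u
  have c2 : Commute (li h x u) (Lp h u) := li_c2 h ha hcm hE x u
  have c3 := (c2.mul_right c1).inv_left
  calc Lp h x * (Lp h u * Lp h u) * Lp h x = Lp h x * Lp h u * ((Lp h u * Lp h x) * (li h x u)⁻¹) * li h x u := by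
        group
    _ = Lp h x * Lp h u * (li h x u)⁻¹ * (Lp h u * Lp h x * li h x u) := by
        rw [← c3.eq]
        group
    _ = Lp h (mul x u) * Lp h (mul x u) := by
        rw [← Lp_mul_li h ha hcm hE x u, ← Lp_mul_li' h ha hcm hE x u]

/-- `l(x², y²) = l(x, y)⁴`. -/
theorem li_sq (x y : Q) : li h (mul x x) (mul y y) = (li h x y) ^ 4 := by
  have h1 : mul (mul x x) (mul y y) = pw mul e (mul x y) 2 := by
    rw [pw_hom h ha hcm hE, pw_succ, pw_one h, pw_succ, pw_one h]
  have h2 : ∀ u, Lp h (mul u u) = Lp h u * Lp h u := fun u => (UU_L h u u).1 (UU_self h ha hcm hE u)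
  have h3 := li_def h (mul x x) (mul y y)
  rw [h1, Lp_pw h ha hcm hE, h2, h2, Lp_mul_li h ha hcm hE x y] at h3
  have c1 : Commute (li h x y) (Lp h x) := li_c1 h ha hcm hE x y
  have c2 : Commute (li h x y) (Lp h y) := li_c2 h ha hcm hE x y
  have h4 : Lp h x * Lp h y = Lp h y * Lp h x * (li h x y) ^ 2 := Lp_comm_li h ha hcm hE x y
  have c3 : Commute ((li h x y)⁻¹) (Lp h x * Lp h y) := (c1.mul_right c2).inv_left
  have c4 : Commute ((li h x y) ^ 2) (Lp h y) := c2.pow_left 2
  have h5 : (Lp h x * Lp h y * (li h x y)⁻¹) ^ 2 * (li h x y) ^ 4 =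
      Lp h x * Lp h x * (Lp h y * Lp h y) := by
    calc (Lp h x * Lp h y * (li h x y)⁻¹) ^ 2 * (li h x y) ^ 4
        = Lp h x * Lp h y * ((li h x y)⁻¹ * (Lp h x * Lp h y)) * (li h x y)⁻¹ * (li h x y) ^ 4 := by
          rw [pow_two]
          group
      _ = Lp h x * (Lp h y * Lp h x * li h x y ^ 2) * Lp h y := by
          rw [c3.eq]
          have : Lp h x * (Lp h y * Lp h x * li h x y ^ 2) * Lp h y =
            Lp h x * (Lp h y * Lp h x) * (li h x y ^ 2 * Lp h y) := by group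
          rw [this, c4.eq]
          group
      _ = Lp h x * Lp h x * (Lp h y * Lp h y) := by
          rw [← h4]
          group
  rw [← h5] at h3
  exact (mul_left_cancel h3).symm

omit hcm hE in
/-- The kernel of a power endomorphism is a normal subloop. -/
theorem ker_nrm (k : ℕ) (hk : ∀ x y : Q, pw mul e (mul x y) k = mul (pw mul e x k) (pw mul e y k)) :
    Nrm mul e (fun x => pw mul e x k = e) := by
  have he : pw mul e e k = e := by
    induction k with
    | zero => rfl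
    | succ k _ =>
      have : ∀ j, pw mul e e j = e := by
        intro j
        induction j with
        | zero => rfl
        | succ j ij => rw [pw_succ, ij, h.one_mul]
      exact this _
  refine ⟨⟨he, ?_, ?_, ?_⟩, ?_⟩
  · intro a b h1 h2
    rw [hk, h1, h2, h.one_mul]
  · intro a b h1 h2
    rw [hk, h1, h.one_mul] at h2
    exact h2
  · intro a b h1 h2
    rw [hk, h1, h.mul_one] at h2
    exact h2
  · intro g hg x hx
    rw [← aut_pw h ha hg, hx, inn_e h hg]

/-- A finite simple loop of this kind has prime exponent. -/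
theorem exists_prime_exp [Finite Q] (hs : Simp mul e) (hne : ∃ x : Q, x ≠ e) :
    ∃ r : ℕ, r.Prime ∧ ∀ x, pw mul e x r = e := by
  obtain ⟨x, hx⟩ := hne
  have hfo : IsOfFinOrder (Lp h x) := isOfFinOrder_of_finite _
  have hn0 : orderOf (Lp h x) ≠ 0 := (orderOf_pos_iff.2 hfo).ne'
  have hn1 : orderOf (Lp h x) ≠ 1 := by
    intro h1
    rw [orderOf_eq_one_iff] at h1
    apply hx
    have := congrArg (fun f : Equiv.Perm Q => f e) h1
    simp only [Lp_apply, h.mul_one] at this
    exact this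
  obtain ⟨r, hr, hdvd⟩ := Nat.exists_prime_and_dvd hn1
  obtain ⟨m, hm⟩ := hdvd
  have hm0 : m ≠ 0 := by
    rintro rfl
    exact hn0 (by rw [hm, mul_zero])
  refine ⟨r, hr, ?_⟩
  rcases hs _ (ker_nrm h ha r (fun x y => pw_hom h ha hcm hE x y r)) with h1 | h1
  · exfalso
    have h2 : pw mul e (pw mul e x m) r = e := by
      rw [← pw_mul_nat h ha hcm hE, ← Lp_pow_app h ha hcm hE, mul_comm, ← hm, pow_orderOf_eq_one]
      rfl
    have h3 := h1 _ h2
    have h4 : (Lp h x) ^ m = 1 := by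
      rw [← Lp_pw h ha hcm hE, h3, Lp_e]
    have h5 := Nat.le_of_dvd (Nat.pos_of_ne_zero hm0) (orderOf_dvd_of_pow_eq_one h4)
    rw [hm] at h5
    have h6 := hr.two_le
    have h7 : 2 * m ≤ r * m := Nat.mul_le_mul_right m h6
    omega
  · exact h1

section odd

variable (hsq : ∀ u : Q, ∃ v, mul v v = u)
include hsq

/-- `L_x L_u L_x = L_{x² u}`. -/
theorem sand (x u : Q) : Lp h x * Lp h u * Lp h x = Lp h (mul (mul x x) u) := by
  obtain ⟨v, rfl⟩ := hsq u
  exact sand_sq h ha hcm hE x v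

/-- `x³` is in the middle nucleus. -/
theorem cube_nuc (x y : Q) : UU mul (pw mul e x 3) y := by
  have h2 : ∀ u, Lp h (mul u u) = Lp h u * Lp h u := fun u => (UU_L h u u).1 (UU_self h ha hcm hE u)
  have h3 : Lp h (pw mul e x 3) = Lp h x ^ 3 := Lp_pw h ha hcm hE x 3
  -- `x⁻¹ ((x³ u) w) = (x u) (x w)`
  have key : ∀ u w, mul (iv h x) (mul (mul (pw mul e x 3) u) w) = mul (mul x u) (mul x w) := by
    intro u w
    have h4 := sand h ha hcm hE hsq (iv h x) (mul (pw mul e x 3) u)
    have h5 := congrArg (fun f : Equiv.Perm Q => f (mul x w)) h4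
    simp only [Equiv.Perm.mul_apply, Lp_apply] at h5
    have h6 : mul (iv h x) (mul x w) = w := by
      have := hE (iv h x) w
      rwa [iv_iv h ha] at this
    rw [h6] at h5
    rw [h5]
    congr 1
    have h7 : Lp h (mul (iv h x) (iv h x)) * Lp h (pw mul e x 3) = Lp h x := by
      rw [h2, h3, Lp_iv h ha hcm hE]
      group
    exact congrArg (fun f : Equiv.Perm Q => f u) h7
  intro t
  unfold As
  have h8 : mul (iv h x) (mul (mul (pw mul e x 3) y) t) = mul (iv h x) (mul (mul (pw mul e x 3) t) y) := by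
    rw [key, key, hcm]
  have h9 := mul_left_inj' h h8
  rw [hcm y (pw mul e x 3), h9, hcm]

end odd

omit hcm hE in
/-- The middle nucleus is a normal subloop. -/
theorem nuc_nrm : Nrm mul e (fun v => ∀ y, UU mul v y) := by
  refine ⟨clo_all fun y => N_clo h ha y, ?_⟩
  intro g hg v hv y
  obtain ⟨z, rfl⟩ := g.surjective y
  exact UU_map h ha hg (hv z)

/-- **C4.** The exponent of a finite simple nonassociative commutative automorphic loop with the inverse
property is 2 or 3. -/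
theorem exp_two_or_three [Finite Q] (hs : Simp mul e) (hna : ¬ ∀ x y z, mul (mul x y) z = mul x (mul y z)) :
    (∀ x, mul x x = e) ∨ (∀ x, pw mul e x 3 = e) := by
  have hne : ∃ x : Q, x ≠ e := by
    by_contra hcon
    push Not at hcon
    apply hna
    intro x y z
    rw [hcon (mul (mul x y) z), hcon (mul x (mul y z))]
  obtain ⟨r, hr, hexp⟩ := exists_prime_exp h ha hcm hE hs hne
  rcases hr.eq_two_or_odd with h2 | h2
  · left
    intro x
    have := hexp x
    rwa [h2, pw_succ, pw_one h] at this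
  · right
    have hsq : ∀ u : Q, ∃ v, mul v v = u := by
      intro u
      refine ⟨pw mul e u ((r + 1) / 2), ?_⟩
      rw [← pw_add h ha hcm hE]
      have : (r + 1) / 2 + (r + 1) / 2 = r + 1 := by omega
      rw [this, pw_add h ha hcm hE, hexp, pw_one h, h.one_mul]
    rcases hs _ (nuc_nrm h ha) with h1 | h1
    · intro x
      exact h1 _ (fun y => cube_nuc h ha hcm hE hsq x y)
    · exfalso
      apply hna
      intro x y z
      exact h1 y x z

end one

section three

variable (h : IsLoop mul e) (ha : IsAut mul) (hcm : ∀ x y, mul x y = mul y x)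
  (hE : ∀ x z, mul x (mul (iv h x) z) = z) (h3 : ∀ x, pw mul e x 3 = e)
include h ha hcm hE h3

/-- `x x = x⁻¹`. -/
theorem sq_iv (x : Q) : mul x x = iv h x := by
  apply mul_left_inj' h (a := x)
  rw [mul_iv h, ← h3 x, pw_succ, pw_succ, pw_one h, hcm]

theorem sq_surj (u : Q) : ∃ v, mul v v = u := ⟨iv h u, by rw [sq_iv h ha hcm hE h3, iv_iv h ha]⟩

/-- `L_x L_u L_x = L_{x² u}`. -/
theorem sand3 (x u : Q) : Lp h x * Lp h u * Lp h x = Lp h (mul (mul x x) u) :=
  sand h ha hcm hE (sq_surj h ha hcm hE h3) x u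

/-- `x (u (x w)) = (x² u) w`. -/
theorem sand3' (x u w : Q) : mul x (mul u (mul x w)) = mul (mul (mul x x) u) w :=
  congrArg (fun f : Equiv.Perm Q => f w) (sand3 h ha hcm hE h3 x u)

/-- `(x u) (x w) = x² (u w)`. -/
theorem D3 (x u w : Q) : mul (mul x u) (mul x w) = mul (mul x x) (mul u w) := by
  have h1 := sand3' h ha hcm hE h3 (iv h x) u (mul x w)
  have h2 : mul (iv h x) (mul x w) = w := by
    have := hE (iv h x) w
    rwa [iv_iv h ha] at this
  rw [h2, sq_iv h ha hcm hE h3, iv_iv h ha] at h1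
  rw [← h1, sq_iv h ha hcm hE h3]

/-- `l(x, y)³ = 1`. -/
theorem li_cube (x y : Q) : (li h x y) ^ 3 = 1 := by
  have h1 := li_sq h ha hcm hE x y
  rw [sq_iv h ha hcm hE h3, sq_iv h ha hcm hE h3, li_iv h ha hcm hE] at h1
  have h2 : li h x y * 1 = li h x y * (li h x y) ^ 3 := by
    rw [mul_one, ← pow_succ']
    exact h1
  exact (mul_left_cancel h2).symm

/-- `L_x³ = 1`. -/
theorem Lp_cube (x : Q) : (Lp h x) ^ 3 = 1 := by
  rw [← Lp_pw h ha hcm hE, h3, Lp_e]

/-- `[L_x, L_y] = l(x, y)⁻¹`. -/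
theorem Lp_comm3 (x y : Q) : Lp h x * Lp h y = Lp h y * Lp h x * (li h x y)⁻¹ := by
  have h1 := Lp_comm_li h ha hcm hE x y
  have h2 : (li h x y) ^ 2 = (li h x y)⁻¹ := by
    rw [eq_inv_iff_mul_eq_one, ← pow_succ]
    exact li_cube h ha hcm hE h3 x y
  rwa [h2] at h1

/-- `l(x, x y) = l(x, y)`. -/
theorem li_shift (x y : Q) : li h x (mul x y) = li h x y := by
  have h2 : ∀ u, Lp h (mul u u) = Lp h u * Lp h u := fun u => (UU_L h u u).1 (UU_self h ha hcm hE u)
  have h4 : mul x (mul x y) = mul (mul x x) y := ((UU_self h ha hcm hE x) y).symm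
  have h5 := li_def h x (mul x y)
  rw [h4, ← sand3 h ha hcm hE h3, Lp_mul_li h ha hcm hE] at h5
  have h6 : li h x (mul x y) = (Lp h x * Lp h y * Lp h x)⁻¹ * (Lp h x * (Lp h x * Lp h y * (li h x y)⁻¹)) := by
    rw [h5]
    group
  have h7 : Lp h x * Lp h y = Lp h y * Lp h x * (li h x y) ^ 2 := Lp_comm_li h ha hcm hE x y
  rw [h6]
  calc (Lp h x * Lp h y * Lp h x)⁻¹ * (Lp h x * (Lp h x * Lp h y * (li h x y)⁻¹))
      = (Lp h x)⁻¹ * ((Lp h y)⁻¹ * (Lp h x * Lp h y)) * (li h x y)⁻¹ := by group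
    _ = li h x y := by
        rw [h7]
        group

end three

/-- **C4**, in the form for the final assembly. -/
theorem trichotomy [Finite Q] (h : IsLoop mul e) (ha : IsAut mul) (hcm : ∀ x y, mul x y = mul y x)
    (hE1 : ∀ a, EE h a = 1) (hs : Simp mul e) :
    (∀ x, mul x x = e) ∨ (∀ x y z, mul (mul x y) z = mul x (mul y z)) ∨
      ((∀ x, mul x (mul x x) = e) ∧ (∀ x u w, mul (mul x u) (mul x w) = mul (mul x x) (mul u w))) := by
  have hE : ∀ x z, mul x (mul (iv h x) z) = z := by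
    intro x z
    have h1 := congrArg (fun f : Equiv.Perm Q => f z) (hE1 x)
    exact h1
  by_cases hna : ∀ x y z, mul (mul x y) z = mul x (mul y z)
  · exact Or.inr (Or.inl hna)
  · rcases exp_two_or_three h ha hcm hE hs hna with h1 | h1
    · exact Or.inl h1
    · refine Or.inr (Or.inr ⟨fun x => ?_, D3 h ha hcm hE h1⟩)
      have := h1 x
      rwa [pw_succ, pw_succ, pw_one h, hcm] at this

end LPM
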