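import Pool.Agent.LPM.C6

set_option autoImplicit false
set_option linter.unusedSectionVars false
set_option linter.style.haveILetI false

/-!
Last step of block C5: if `c` is central in `⟨x, y, z⟩` and `x, y, z` associate modulo `c`, then `⟨x, y, z⟩` is
associative modulo `c`.
-/

namespace LPM

open CAL

variable {Q : Type} {mul : Q → Q → Q} {e : Q}

section main

variable (h : IsLoop mul e) (ha : IsAut mul) (hc : ∀ x y, mul x y = mul y x)
include h ha

theorem As_iff (a b t : Q) : As mul a b t ↔ li h a b t = t := by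
  have h1 : mul (mul a b) (li h a b t) = mul a (mul b t) := by
    have := congrArg (fun f : Equiv.Perm Q => f t) (li_def h a b)
    exact this.symm
  constructor
  · intro hh
    apply mul_left_inj' h (a := mul a b)
    rw [h1]
    exact hh.symm
  · intro hh
    rw [hh] at h1
    exact h1

theorem clo_t (a b : Q) : Clo mul e (fun t => As mul a b t) := by
  have h1 := fix_clo ha h (li_mem h a b)
  have h2 : (fun t => As mul a b t) = (fun t => li h a b t = t) := by
    funext t
    exact propext (As_iff h ha a b t)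
  rw [h2]
  exact h1

/-- Associativity of an automorphic loop with the left alternative law generated by three elements which
associate in all orders. -/
theorem assoc_of_gen (hc : ∀ x y, mul x y = mul y x) (hsq : ∀ a d, mul (mul a a) d = mul a (mul a d)) {x y z : Q}
    (hg : ∀ t, gen mul e (fun t => t = x ∨ t = y ∨ t = z) t)
    (h1 : mul x (mul y z) = mul y (mul z x)) (h2 : mul y (mul z x) = mul z (mul x y)) :
    ∀ a b d, mul (mul a b) d = mul a (mul b d) := by
  have hself : ∀ a b, As mul a b b := by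
    intro a b
    show mul (mul a b) b = mul a (mul b b)
    rw [hc (mul a b) b, hc a b, ← hsq, hc a (mul b b)]
  have hflex : ∀ a b, As mul a b a := by
    intro a b
    exact (flex h ha a b).symm
  have haa : ∀ a b, As mul a a b := fun a b => hsq a b
  -- all triples of generators
  have g1 : As mul x y z := by
    show mul (mul x y) z = mul x (mul y z)
    rw [hc (mul x y) z, ← h2, h1]
  have g2 : As mul y x z := by
    show mul (mul y x) z = mul y (mul x z)
    rw [hc (mul y x) z, hc y x, ← h2, hc z x]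
  have g3 : As mul y z x := by
    show mul (mul y z) x = mul y (mul z x)
    rw [hc (mul y z) x, h1]
  have g4 : As mul z y x := by
    show mul (mul z y) x = mul z (mul y x)
    rw [hc (mul z y) x, hc z y, h1, h2, hc x y]
  have g5 : As mul x z y := by
    show mul (mul x z) y = mul x (mul z y)
    rw [hc (mul x z) y, hc x z, ← h1, hc z y]
  have g6 : As mul z x y := by
    show mul (mul z x) y = mul z (mul x y)
    rw [hc (mul z x) y, h2]
  have gens : ∀ a b t, (a = x ∨ a = y ∨ a = z) → (b = x ∨ b = y ∨ b = z) → (t = x ∨ t = y ∨ t = z) →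
      As mul a b t := by
    intro a b t h3 h4 h5
    by_cases hab : a = b
    · subst hab
      exact haa a t
    by_cases hbt : b = t
    · subst hbt
      exact hself a b
    by_cases hat : a = t
    · subst hat
      exact hflex a b
    rcases h3 with rfl | rfl | rfl <;> rcases h4 with rfl | rfl | rfl <;> rcases h5 with rfl | rfl | rfl <;>
      first
        | exact absurd rfl hab
        | exact absurd rfl hbt
        | exact absurd rfl hat
        | assumption
  -- extend to all `t`, `b`, `a`
  have s1 : ∀ a b, (a = x ∨ a = y ∨ a = z) → (b = x ∨ b = y ∨ b = z) → UU mul b a := by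
    intro a b h3 h4 t
    exact gen_le (clo_t h ha a b) (fun s hs => gens a b s h3 h4 hs) (hg t)
  have s2 : ∀ a b, (a = x ∨ a = y ∨ a = z) → UU mul b a := by
    intro a b h3
    exact gen_le (N_clo h ha a) (fun s hs => s1 a s h3 hs) (hg b)
  intro a b d
  exact gen_le (U_clo h ha b) (fun s hs => s2 s b hs) (hg a) d

/-- An element which associates with pairs of generators is central. -/
theorem cen_of_gen (hc : ∀ x y, mul x y = mul y x) {X : Q → Prop} {c : Q}
    (h9 : ∀ t s, X t → X s → As mul c t s) :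
    ∀ a d, gen mul e X a → gen mul e X d → mul c (mul a d) = mul a (mul c d) := by
  have s1 : ∀ t s, gen mul e X t → X s → As mul c t s := fun t s ht hs =>
    gen_le (clo_v h ha c s) (fun r hr => h9 r s hr hs) ht
  have s2 : ∀ t s, gen mul e X t → gen mul e X s → As mul c t s := fun t s ht hs =>
    gen_le (clo_t h ha c t) (fun r hr => s1 t r ht hr) hs
  intro a d h1 h2
  have := s2 d a h2 h1
  have h3 : mul (mul c d) a = mul c (mul d a) := this
  rw [hc a d, ← h3, hc a]

/-- Block C5, last step. -/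
theorem cen3_of (hc : ∀ x y, mul x y = mul y x) (hsq : ∀ a d, mul (mul a a) d = mul a (mul a d))
    (h3 : ∀ a d, mul a (mul a (mul a d)) = d) {x y z c : Q}
    (hcD : gen mul e (fun t => t = x ∨ t = y ∨ t = z) c)
    (hA1 : mul y (mul z x) = mul c (mul x (mul y z)))
    (hA2 : mul z (mul x y) = mul c (mul y (mul z x)))
    (hcen : ∀ a d, gen mul e (fun t => t = x ∨ t = y ∨ t = z) a → gen mul e (fun t => t = x ∨ t = y ∨ t = z) d →
      mul c (mul a d) = mul a (mul c d)) : Cen3 mul (gen mul e (fun t => t = x ∨ t = y ∨ t = z)) c := by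
  refine ⟨hcD, hcen, ?_⟩
  set D := gen mul e (fun t => t = x ∨ t = y ∨ t = z) with hDdef
  have hD : Clo mul e D := gen_clo _
  obtain ⟨m', e', hm, he, hl', ha'⟩ := sub_loop h ha hD
  have hc' : ∀ a b, m' a b = m' b a := by
    intro a b
    apply Subtype.ext
    rw [hm, hm, hc]
  let c' : {x : Q // D x} := ⟨c, hcD⟩
  have hcen' : ∀ a d, m' c' (m' a d) = m' a (m' c' d) := by
    intro a d
    apply Subtype.ext
    rw [hm, hm, hm, hm]
    exact hcen a d a.2 d.2
  have h3' : ∀ a d, m' a (m' a (m' a d)) = d := by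
    intro a d
    apply Subtype.ext
    rw [hm, hm, hm]
    exact h3 a d
  have hccc : m' c' (m' c' c') = e' := by
    have := h3' c' e'
    rwa [hl'.mul_one] at this
  let S : {x : Q // D x} → Prop := fun t => t = e' ∨ t = c' ∨ t = m' c' c'
  have hSm : ∀ a b, S a → S b → S (m' a b) := by
    have hcc : m' (m' c' c') (m' c' c') = c' := by
      rw [← hcen' (m' c' c') c', hc' (m' c' c') c', hccc, hl'.mul_one]
    intro a b h1 h2
    rcases h1 with rfl | rfl | rfl <;> rcases h2 with rfl | rfl | rfl
    · exact Or.inl (hl'.one_mul _)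
    · exact Or.inr (Or.inl (hl'.one_mul _))
    · exact Or.inr (Or.inr (hl'.one_mul _))
    · exact Or.inr (Or.inl (hl'.mul_one _))
    · exact Or.inr (Or.inr rfl)
    · exact Or.inl hccc
    · exact Or.inr (Or.inr (hl'.mul_one _))
    · refine Or.inl ?_
      rw [hc', hccc]
    · exact Or.inr (Or.inl hcc)
  have hS : Nrm m' e' S := by
    refine ⟨⟨Or.inl rfl, hSm, ?_, ?_⟩, ?_⟩
    · intro a b h1 h2
      have := hSm a _ h1 (hSm a _ h1 h2)
      rwa [h3'] at this
    · intro a b h1 h2
      rw [hc'] at h2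
      have := hSm b _ h1 (hSm b _ h1 h2)
      rwa [h3'] at this
    · have hfix : ∀ g ∈ inn m', g c' = c' := by
        intro g hg
        unfold inn at hg
        induction hg using Subgroup.closure_induction with
        | mem g hg =>
          have hk : ∀ a b, m' a (m' b c') = m' (m' a b) c' := by
            intro a b
            rw [hc' b c', ← hcen', hc' c']
          rcases hg with ⟨a, b, hg⟩ | ⟨a, b, hg⟩ | ⟨a, hg⟩
          · have := hg c'
            rw [hk] at this
            exact mul_left_inj' hl' this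
          · have := hg c'
            have h5 : m' (m' c' a) b = m' c' (m' a b) := by
              rw [hc' (m' c' a) b, ← hcen', hc' b a]
            rw [h5] at this
            exact mul_right_inj' hl' this
          · have := hg c'
            rw [hc' c' a] at this
            exact mul_left_inj' hl' this
        | one => rfl
        | mul g k _ _ ig ik => rw [Equiv.Perm.mul_apply, ik, ig]
        | inv g _ ig => rw [Equiv.Perm.inv_eq_iff_eq, ig]
      intro g hg t ht
      have hau := inn_aut ha' hg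
      rcases ht with rfl | rfl | rfl
      · exact Or.inl (inn_e hl' hg)
      · exact Or.inr (Or.inl (hfix g hg))
      · refine Or.inr (Or.inr ?_)
        rw [hau, hfix g hg]
  obtain ⟨Q', mq, eq, φ, hlq, haq, hφ, hsur, hiff⟩ := quot_loop hl' ha' hS
  have hφe : φ e' = eq := by
    apply mul_left_inj' hlq (a := φ e')
    rw [← hφ, hl'.one_mul, hlq.mul_one]
  have hφc : φ c' = eq := by
    rw [← hφe, hiff]
    have h5 : mul_ld hl' c' e' = mul_ld hl' c' e' := rfl
    -- `c' \ e' = c'²`
    have h6 : ld hl' c' e' = m' c' c' := by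
      apply mul_left_inj' hl' (a := c')
      rw [mul_ld hl', hccc]
    rw [h6]
    exact Or.inr (Or.inr rfl)
  have hcq : ∀ a b, mq a b = mq b a := by
    intro a b
    obtain ⟨a, rfl⟩ := hsur a
    obtain ⟨b, rfl⟩ := hsur b
    rw [← hφ, ← hφ, hc']
  have hsqq : ∀ a d, mq (mq a a) d = mq a (mq a d) := by
    intro a d
    obtain ⟨a, rfl⟩ := hsur a
    obtain ⟨d, rfl⟩ := hsur d
    rw [← hφ, ← hφ, ← hφ, ← hφ]
    apply congrArg φ
    apply Subtype.ext
    rw [hm, hm, hm, hm]
    exact hsq a d
  let x' : {x : Q // D x} := ⟨x, gen_sub (Or.inl rfl)⟩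
  let y' : {x : Q // D x} := ⟨y, gen_sub (Or.inr (Or.inl rfl))⟩
  let z' : {x : Q // D x} := ⟨z, gen_sub (Or.inr (Or.inr rfl))⟩
  have hgen : ∀ t, gen mq eq (fun t => t = φ x' ∨ t = φ y' ∨ t = φ z') t := by
    intro t
    obtain ⟨t, rfl⟩ := hsur t
    intro T hT hX
    -- preimage of `T` in `Q`
    have hcl : Clo mul e (fun s => ∃ hs : D s, T (φ ⟨s, hs⟩)) := by
      refine ⟨⟨hD.one_mem, ?_⟩, ?_, ?_, ?_⟩
      · have h5 : (⟨e, hD.one_mem⟩ : {x : Q // D x}) = e' := Subtype.ext he.symm
        rw [h5, hφe]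
        exact hT.one_mem
      · rintro a b ⟨h1, h2⟩ ⟨h4, h5⟩
        refine ⟨hD.mul_mem _ _ h1 h4, ?_⟩
        have h6 : (⟨mul a b, hD.mul_mem _ _ h1 h4⟩ : {x : Q // D x}) = m' ⟨a, h1⟩ ⟨b, h4⟩ :=
          Subtype.ext (by rw [hm])
        rw [h6, hφ]
        exact hT.mul_mem _ _ h2 h5
      · rintro a b ⟨h1, h2⟩ ⟨h4, h5⟩
        have hb := hD.ldiv_mem _ _ h1 h4
        refine ⟨hb, ?_⟩
        have h6 : (⟨mul a b, h4⟩ : {x : Q // D x}) = m' ⟨a, h1⟩ ⟨b, hb⟩ := Subtype.ext (by rw [hm])
        rw [h6, hφ] at h5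
        exact hT.ldiv_mem _ _ h2 h5
      · rintro a b ⟨h1, h2⟩ ⟨h4, h5⟩
        have hb := hD.rdiv_mem _ _ h1 h4
        refine ⟨hb, ?_⟩
        have h6 : (⟨mul a b, h4⟩ : {x : Q // D x}) = m' ⟨a, hb⟩ ⟨b, h1⟩ := Subtype.ext (by rw [hm])
        rw [h6, hφ] at h5
        exact hT.rdiv_mem _ _ h2 h5
    have h1 := gen_le (mul := mul) (e := e) hcl (X := fun t => t = x ∨ t = y ∨ t = z) (fun s hs => by
      rcases hs with rfl | rfl | rfl
      · exact ⟨gen_sub (Or.inl rfl), hX _ (Or.inl rfl)⟩
      · exact ⟨gen_sub (Or.inr (Or.inl rfl)), hX _ (Or.inr (Or.inl rfl))⟩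
      · exact ⟨gen_sub (Or.inr (Or.inr rfl)), hX _ (Or.inr (Or.inr rfl))⟩) t.2
    exact h1.2
  have e1 : mq (φ x') (mq (φ y') (φ z')) = mq (φ y') (mq (φ z') (φ x')) := by
    have h5 : m' y' (m' z' x') = m' c' (m' x' (m' y' z')) := by
      apply Subtype.ext
      rw [hm, hm, hm, hm, hm]
      exact hA1
    have h6 := congrArg φ h5
    rw [hφ, hφ, hφ, hφ, hφ, hφc, hlq.one_mul] at h6
    exact h6.symm
  have e2 : mq (φ y') (mq (φ z') (φ x')) = mq (φ z') (mq (φ x') (φ y')) := by
    have h5 : m' z' (m' x' y') = m' c' (m' y' (m' z' x')) := by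
      apply Subtype.ext
      rw [hm, hm, hm, hm, hm]
      exact hA2
    have h6 := congrArg φ h5
    rw [hφ, hφ, hφ, hφ, hφ, hφc, hlq.one_mul] at h6
    exact h6.symm
  have hass := assoc_of_gen hlq haq hcq hsqq hgen e1 e2
  intro a b d h1 h2 h4
  have h5 := hass (φ ⟨a, h1⟩) (φ ⟨b, h2⟩) (φ ⟨d, h4⟩)
  rw [← hφ, ← hφ, ← hφ, ← hφ, hiff] at h5
  set A := m' (m' ⟨a, h1⟩ ⟨b, h2⟩) ⟨d, h4⟩ with hAd
  set B := m' ⟨a, h1⟩ (m' ⟨b, h2⟩ ⟨d, h4⟩) with hBd
  have hA : (A : Q) = mul (mul a b) d := by rw [hAd, hm, hm]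
  have hB : (B : Q) = mul a (mul b d) := by rw [hBd, hm, hm]
  rw [← hA, ← hB]
  have h6 : m' A (ld hl' A B) = B := mul_ld hl' A B
  rcases h5 with h5 | h5 | h5
  · left
    rw [h5, hl'.mul_one] at h6
    rw [h6]
  · right; left
    rw [h5, hc'] at h6
    have := congrArg Subtype.val h6
    rw [hm] at this
    exact this.symm
  · right; right
    have h7 : m' c' (m' c' A) = B := by
      rw [← h6, h5, hc' c' A, hcen' A c']
    have := congrArg Subtype.val h7
    rw [hm, hm] at this
    exact this.symm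

end main

end LPM
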