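import Pool.Agent.LPM.C4
import Pool.Agent.LPM.C5b

set_option autoImplicit false
set_option linter.unusedSectionVars false
set_option linter.style.haveILetI false

/-!
Three generated commutative Moufang loops of exponent 3.
-/

namespace LPM

open CAL

/-- An identity in distributive quasigroups (helper4). -/
theorem dist_id {Q : Type} (o : Q → Q → Q) (hco : ∀ u v, o u v = o v u) (hi : ∀ u v, o u (o u v) = v)
    (hd : ∀ u v w, o u (o v w) = o (o u v) (o u w)) (a b c d : Q) :
    o (o (o a b) (o c d)) (o (o a c) (o b d)) = o (o a d) (o b c) := by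
  have hd' : ∀ u v w, o (o v w) u = o (o v u) (o w u) := by
    intro u v w
    rw [hco (o v w) u, hd, hco u v, hco u w]
  obtain ⟨s, hs⟩ : ∃ s, s = o a d := ⟨_, rfl⟩
  obtain ⟨f, hf⟩ : ∃ f, f = o b c := ⟨_, rfl⟩
  have hds : d = o a s := by rw [hs, hi]
  have hcf : c = o b f := by rw [hf, hi]
  have hX : o (o a b) (o (o a c) (o b d)) = o (o a f) (o b s) := by
    rw [hd (o a b) (o a c) (o b d), ← hd a b c, hco a b, ← hd b a d, ← hf, ← hs]
  have hY : o (o c d) (o (o a c) (o b d)) = o (o c s) (o d f) := by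
    rw [hd (o c d) (o a c) (o b d), hco a c, ← hd c d a, hco c d, hco b d, ← hd d c b, hco c b, hco d a, ← hf,
      ← hs]
  have hZ : o (o s f) (o (o a f) (o b s)) = o (o c s) (o d f) := by
    rw [hd (o s f) (o a f) (o b s), hco a f, hco s f, ← hd f s a, hco f s, hco b s, ← hd s f b, hco s a, hco f b,
      ← hds, ← hcf, hco f d, hco s c, hco]
  rw [hd' _ (o a b) (o c d), hX, hY, ← hZ, hco (o s f), hi, hs, hf]

variable {Q : Type} {mul : Q → Q → Q} {e : Q}

theorem exp_three_cen (h : IsLoop mul e) (ha : IsAut mul) (hc : ∀ x y, mul x y = mul y x)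
    (hE1 : ∀ a, EE h a = 1) (h3 : ∀ x, mul x (mul x x) = e)
    (hD : ∀ x u w, mul (mul x u) (mul x w) = mul (mul x x) (mul u w)) :
    (∀ x d, mul x (mul x (mul x d)) = d) ∧
      ∀ x y z, ∃ c, Cen3 mul (gen mul e (fun t => t = x ∨ t = y ∨ t = z)) c := by
  have hE : ∀ x z, mul x (mul (iv h x) z) = z := by
    intro x z
    exact congrArg (fun f : Equiv.Perm Q => f z) (hE1 x)
  have hE' : ∀ x z, mul (iv h x) (mul x z) = z := by
    intro x z
    have := hE (iv h x) z
    rwa [iv_iv h ha] at this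
  have h3' : ∀ x, pw mul e x 3 = e := by
    intro x
    rw [pw_succ, pw_succ, pw_one h, hc, h3]
  have hcube : ∀ x d, mul x (mul x (mul x d)) = d := by
    intro x d
    exact congrArg (fun f : Equiv.Perm Q => f d) (Lp_cube h ha hc hE h3' x)
  have hsq : ∀ a d, mul (mul a a) d = mul a (mul a d) := by
    intro a d
    rw [sq_iv h ha hc hE h3']
    apply mul_left_inj' h (a := a)
    rw [hE, hcube]
  refine ⟨hcube, ?_⟩
  intro x y z
  -- the cyclic action of `l(x, y)`
  have cyc : ∀ x y z : Q, li h x y (mul z (mul x y)) = mul x (mul y z) ∧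
      li h x y (mul y (mul z x)) = mul z (mul x y) ∧ li h x y (mul x (mul y z)) = mul y (mul z x) := by
    intro x y z
    have hau := inn_aut ha (li_mem h x y)
    have c1 : li h x y (mul z (mul x y)) = mul x (mul y z) := by
      rw [hc z (mul x y), hau, hau, li_fix h ha, li_fix2 h ha hc hE]
      have := congrArg (fun f : Equiv.Perm Q => f z) (li_def h x y)
      exact this.symm
    have c2 : li h x y (mul y (mul z x)) = mul z (mul x y) := by
      have h5 : (li h x y)⁻¹ (mul z (mul x y)) = mul y (mul z x) := by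
        rw [← li_swap h ha hc hE]
        have hau' := inn_aut ha (li_mem h y x)
        rw [hc z (mul x y), hc x y, hau', hau', li_fix h ha, li_fix2 h ha hc hE, hc z x]
        have := congrArg (fun f : Equiv.Perm Q => f z) (li_def h y x)
        exact this.symm
      rw [← h5, app_inv]
    refine ⟨c1, c2, ?_⟩
    have h6 := congrArg (fun f : Equiv.Perm Q => f (mul y (mul z x))) (li_cube h ha hc hE h3' x y)
    simp only [pow_succ, pow_zero, one_mul, Equiv.Perm.mul_apply, Equiv.Perm.one_apply] at h6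
    rw [c2, c1] at h6
    exact h6
  obtain ⟨A1, hA1⟩ : ∃ A, A = mul x (mul y z) := ⟨_, rfl⟩
  obtain ⟨A2, hA2⟩ : ∃ A, A = mul y (mul z x) := ⟨_, rfl⟩
  obtain ⟨A3, hA3⟩ : ∃ A, A = mul z (mul x y) := ⟨_, rfl⟩
  have g1 := cyc x y z
  have g2 := cyc y z x
  have g3 := cyc z x y
  rw [← hA1, ← hA2, ← hA3] at g1 g2 g3
  -- `(A1 A2) A3 = e`
  have hprod : iv h (mul A1 A2) = A3 := by
    have h5 := dist_id (fun u v => mul (iv h u) (iv h v)) (fun u v => hc _ _)
      (fun u v => by
        rw [aaip h ha, iv_iv h ha, iv_iv h ha, hc v u, hE'])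
      (fun u v w => by
        rw [aaip h ha, aaip h ha, aaip h ha, iv_iv h ha, iv_iv h ha, iv_iv h ha, hc v u, hc w u, hD,
          sq_iv h ha hc hE h3', hc w v])
      e x y z
    have hee : iv h e = e := by
      unfold iv
      exact ld_self h e
    simp only [hee, h.one_mul] at h5
    have t1 : mul (iv h (iv h x)) (iv h (mul (iv h y) (iv h z))) = A1 := by
      rw [aaip h ha, iv_iv h ha, iv_iv h ha, iv_iv h ha, hA1, hc z y]
    have t2 : mul (iv h (iv h y)) (iv h (mul (iv h x) (iv h z))) = A2 := by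
      rw [aaip h ha, iv_iv h ha, iv_iv h ha, iv_iv h ha, hA2]
    have t3 : mul (iv h (iv h z)) (iv h (mul (iv h x) (iv h y))) = A3 := by
      rw [aaip h ha, iv_iv h ha, iv_iv h ha, iv_iv h ha, hA3, hc y x]
    rw [t1, t2, t3] at h5
    rw [aaip h ha, hc, h5]
  obtain ⟨c, hcdef⟩ : ∃ c, c = mul (iv h A1) A2 := ⟨_, rfl⟩
  have c12 : mul c A1 = A2 := by
    rw [hc, hcdef, hE]
  have c23 : mul c A2 = A3 := by
    -- `c A2 = A2 (A2 A1⁻¹) = A2² A1⁻¹ = A2⁻¹ A1⁻¹`
    rw [hc, hcdef, hc (iv h A1) A2, ← hsq, sq_iv h ha hc hE h3', ← aaip h ha]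
    exact hprod
  have gfix : ∀ g : Equiv.Perm Q, g ∈ inn mul → g A1 = A2 → g A2 = A3 → g c = c := by
    intro g hg e1 e2
    have h5 := congrArg g c12
    rw [inn_aut ha hg, e1, e2, ← c23] at h5
    exact mul_right_inj' h h5
  have f1 := gfix _ (li_mem h x y) g1.2.2 g1.2.1
  have f2 := gfix _ (li_mem h y z) g2.1 g2.2.2
  have f3 := gfix _ (li_mem h z x) g3.2.1 g3.1
  have As_of : ∀ s t : Q, li h s t c = c → As mul c t s := by
    intro s t hst
    have h5 := congrArg (fun f : Equiv.Perm Q => f c) (li_def h s t)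
    simp only [Equiv.Perm.mul_apply, Lp_apply] at h5
    rw [hst] at h5
    unfold As
    rw [hc (mul c t) s, hc c t, h5, hc c, hc s t]
  have fsw : ∀ s t : Q, li h s t c = c → li h t s c = c := by
    intro s t hst
    rw [li_swap h ha hc hE s t, Equiv.Perm.inv_eq_iff_eq, hst]
  have fself : ∀ s : Q, li h s s c = c := by
    intro s
    have h5 := congrArg (fun f : Equiv.Perm Q => f c) (li_def h s s)
    simp only [Equiv.Perm.mul_apply, Lp_apply] at h5
    rw [← hsq] at h5
    exact (mul_left_inj' h h5).symm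
  have h9 : ∀ t s, (t = x ∨ t = y ∨ t = z) → (s = x ∨ s = y ∨ s = z) → As mul c t s := by
    rintro t s (rfl | rfl | rfl) (rfl | rfl | rfl)
    · exact As_of _ _ (fself _)
    · exact As_of _ _ (fsw _ _ f1)
    · exact As_of _ _ f3
    · exact As_of _ _ f1
    · exact As_of _ _ (fself _)
    · exact As_of _ _ (fsw _ _ f2)
    · exact As_of _ _ (fsw _ _ f3)
    · exact As_of _ _ f2
    · exact As_of _ _ (fself _)
  have hG := gen_clo (mul := mul) (e := e) (fun t => t = x ∨ t = y ∨ t = z)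
  have hx : gen mul e (fun t => t = x ∨ t = y ∨ t = z) x := gen_sub (Or.inl rfl)
  have hy : gen mul e (fun t => t = x ∨ t = y ∨ t = z) y := gen_sub (Or.inr (Or.inl rfl))
  have hz : gen mul e (fun t => t = x ∨ t = y ∨ t = z) z := gen_sub (Or.inr (Or.inr rfl))
  have hcD : gen mul e (fun t => t = x ∨ t = y ∨ t = z) c := by
    rw [hcdef, hA1, hA2]
    exact hG.mul_mem _ _ (hG.iv_mem h (hG.mul_mem _ _ hx (hG.mul_mem _ _ hy hz)))
      (hG.mul_mem _ _ hy (hG.mul_mem _ _ hz hx))
  refine ⟨c, cen3_of h ha hc hsq hcube hcD ?_ ?_ (cen_of_gen h ha hc h9)⟩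
  · rw [← hA1, ← hA2, c12]
  · rw [← hA2, ← hA3, c23]

end LPM
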