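import Mathlib

set_option autoImplicit false
set_option linter.unusedSectionVars false
set_option linter.style.haveILetI false

/-!
Group theory for the last block (commutative case of Cauchy's theorem for automorphic loops).
-/

namespace LPM

/-- A finite group generated by elements of order dividing `p` in which all `p^k`-th powers are central
is a `p`-group. -/
theorem pgroup_of_center {G : Type*} [Group G] [Finite G] (p : ℕ) [Fact p.Prime] (S : Set G)
    (hS : Subgroup.closure S = ⊤) (hp : ∀ s ∈ S, s ^ p = 1) (k : ℕ)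
    (hk : ∀ g : G, g ^ (p ^ k) ∈ Subgroup.center G) : IsPGroup p G := by
  have h1 : IsPGroup p (G ⧸ Subgroup.center G) := by
    intro q
    induction q using QuotientGroup.induction_on with
    | H g =>
      refine ⟨k, ?_⟩
      rw [← QuotientGroup.mk_pow]
      exact (QuotientGroup.eq_one_iff _).2 (hk g)
  haveI h2 : Group.IsNilpotent (G ⧸ Subgroup.center G) := h1.isNilpotent
  haveI h3 : Group.IsNilpotent G := by
    refine Subgroup.isNilpotent_of_ker_le_center (QuotientGroup.mk' (Subgroup.center G)) ?_
    rw [QuotientGroup.ker_mk']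
  obtain ⟨P⟩ : Nonempty (Sylow p G) := inferInstance
  haveI hN : (P : Subgroup G).Normal :=
    ((Group.isNilpotent_of_finite_tfae (G := G)).out 0 3 rfl rfl).1 h3 p inferInstance P
  have h4 : Subgroup.closure S ≤ (P : Subgroup G) := by
    rw [Subgroup.closure_le]
    intro s hs
    have h5 : IsPGroup p (Subgroup.zpowers s) := by
      rw [IsPGroup.iff_card]
      rw [Nat.card_zpowers]
      have h6 : orderOf s ∣ p := orderOf_dvd_of_pow_eq_one (hp s hs)
      rcases (Nat.dvd_prime (Fact.out : p.Prime)).1 h6 with h | h
      · exact ⟨0, by simpa using h⟩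
      · exact ⟨1, by simpa using h⟩
    have h6 : (Subgroup.zpowers s) ≤ (P : Subgroup G) := by
      have h7 := h5.to_sup_of_normal_right P.isPGroup'
      have h8 := P.is_maximal' h7 le_sup_right
      rw [← h8]
      exact le_sup_left
    exact h6 (Subgroup.mem_zpowers s)
  rw [hS] at h4
  intro g
  obtain ⟨n, hn⟩ := P.isPGroup' ⟨g, h4 (Subgroup.mem_top g)⟩
  refine ⟨n, ?_⟩
  have := congrArg Subtype.val hn
  simpa using this

/-- A finite group generated by elements contained in normal `p`-subgroups is a `p`-group. -/
theorem pgroup_of_normal {G : Type*} [Group G] [Finite G] (p : ℕ) [Fact p.Prime] (S : Set G)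
    (hS : Subgroup.closure S = ⊤) (hp : ∀ s ∈ S, ∃ N : Subgroup G, N.Normal ∧ IsPGroup p N ∧ s ∈ N) :
    IsPGroup p G := by
  obtain ⟨P⟩ : Nonempty (Sylow p G) := inferInstance
  have h4 : Subgroup.closure S ≤ (P : Subgroup G) := by
    rw [Subgroup.closure_le]
    intro s hs
    obtain ⟨N, hN, hN2, hsN⟩ := hp s hs
    haveI := hN
    have h7 := hN2.to_sup_of_normal_left P.isPGroup'
    have h8 := P.is_maximal' h7 le_sup_right
    have h9 : N ≤ (P : Subgroup G) := by
      rw [← h8]
      exact le_sup_left
    exact h9 hsN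
  rw [hS] at h4
  intro g
  obtain ⟨n, hn⟩ := P.isPGroup' ⟨g, h4 (Subgroup.mem_top g)⟩
  refine ⟨n, ?_⟩
  have := congrArg Subtype.val hn
  simpa using this

end LPM
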