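import Pool.Agent.LPM.S3
import Pool.Agent.LPM.C6g

set_option autoImplicit false
set_option linter.unusedSectionVars false
set_option linter.style.haveILetI false

/-!
Block C6: the multiplication group of a finite simple commutative automorphic loop in which every three
elements generate a subloop which is a central extension of an abelian group by `{e, c, c²}` is a `3`-group;
such a loop is associative.
-/

namespace LPM

open CAL

variable {Q : Type} {mul : Q → Q → Q} {e : Q}

/-- `t` is one of `s`, `c s`, `c (c s)`. -/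
def co (mul : Q → Q → Q) (c s t : Q) : Prop := t = s ∨ t = mul c s ∨ t = mul c (mul c s)

/-- `c` is central in the subloop `D`, and `D` is associative modulo `c`. -/
structure Cen3 (mul : Q → Q → Q) (D : Q → Prop) (c : Q) : Prop where
  mem : D c
  comm : ∀ a d, D a → D d → mul c (mul a d) = mul a (mul c d)
  assoc : ∀ a b d, D a → D b → D d → co mul c (mul (mul a b) d) (mul a (mul b d))

/-- The group generated by the translations of a subset. -/
def MD (h : IsLoop mul e) (D : Q → Prop) : Subgroup (Equiv.Perm Q) :=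
  Subgroup.closure {u | ∃ a, D a ∧ u = Lp h a}

theorem MD_le (h : IsLoop mul e) (D : Q → Prop) : MD h D ≤ mlt h := by
  unfold MD
  rw [Subgroup.closure_le]
  rintro _ ⟨a, _, rfl⟩
  exact Lp_mem h a

theorem MD_mem (h : IsLoop mul e) {D : Q → Prop} {a : Q} (ha : D a) : Lp h a ∈ MD h D :=
  Subgroup.subset_closure ⟨a, ha, rfl⟩

section main

variable {D : Q → Prop} {c : Q}

/-- Behaviour of the elements of `MD`. -/
def PD (mul : Q → Q → Q) (D : Q → Prop) (c : Q) (g : Equiv.Perm Q) : Prop :=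
  (∀ d, D d → D (g d)) ∧ (∀ d, D d → g (mul c d) = mul c (g d)) ∧
    ∃ a, D a ∧ ∀ d, D d → co mul c (mul a d) (g d)

theorem co_mul {c s t : Q} (h3 : ∀ d, mul c (mul c (mul c d)) = d) (hh : co mul c s t) :
    co mul c s (mul c t) := by
  rcases hh with rfl | rfl | rfl
  · exact Or.inr (Or.inl rfl)
  · exact Or.inr (Or.inr rfl)
  · exact Or.inl (h3 _)

theorem co_trans {c s t r : Q} (h3 : ∀ d, mul c (mul c (mul c d)) = d) (hh : co mul c s t)
    (hk : co mul c t r) : co mul c s r := by
  rcases hk with rfl | rfl | rfl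
  · exact hh
  · exact co_mul h3 hh
  · exact co_mul h3 (co_mul h3 hh)

theorem PD_map {c s t : Q} {g : Equiv.Perm Q} (hD : Clo mul e D) (hc : D c) (hg : PD mul D c g) (hs : D s)
    (hh : co mul c s t) : co mul c (g s) (g t) := by
  rcases hh with rfl | rfl | rfl
  · exact Or.inl rfl
  · exact Or.inr (Or.inl (hg.2.1 _ hs))
  · refine Or.inr (Or.inr ?_)
    rw [hg.2.1 _ (hD.mul_mem _ _ hc hs), hg.2.1 _ hs]

theorem PD_one (hD : Clo mul e D) (h : IsLoop mul e) : PD mul D c 1 := by
  refine ⟨fun d hd => hd, fun d _ => rfl, e, hD.one_mem, fun d _ => Or.inl ?_⟩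
  rw [h.one_mul]
  rfl

theorem PD_mul (hD : Clo mul e D) (h3 : ∀ x d, mul x (mul x (mul x d)) = d) (hC : Cen3 mul D c)
    {g k : Equiv.Perm Q} (hg : PD mul D c g) (hk : PD mul D c k) : PD mul D c (g * k) := by
  obtain ⟨a, haD, ha⟩ := hg.2.2
  obtain ⟨b, hbD, hb⟩ := hk.2.2
  refine ⟨fun d hd => hg.1 _ (hk.1 _ hd), fun d hd => ?_, mul a b, hD.mul_mem _ _ haD hbD, fun d hd => ?_⟩
  · rw [Equiv.Perm.mul_apply, Equiv.Perm.mul_apply, hk.2.1 _ hd, hg.2.1 _ (hk.1 _ hd)]
  · rw [Equiv.Perm.mul_apply]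
    have h1 := PD_map hD hC.mem hg (hD.mul_mem _ _ hbD hd) (hb d hd)
    have h2 := ha _ (hD.mul_mem _ _ hbD hd)
    have h4 := hC.assoc a b d haD hbD hd
    exact co_trans (h3 c) (co_trans (h3 c) h4 h2) h1

theorem PD_pow (h : IsLoop mul e) (hD : Clo mul e D) (h3 : ∀ x d, mul x (mul x (mul x d)) = d)
    (hC : Cen3 mul D c) {g : Equiv.Perm Q} (hg : PD mul D c g) (n : ℕ) : PD mul D c (g ^ n) := by
  induction n with
  | zero => rw [pow_zero]; exact PD_one hD h
  | succ n ih => rw [pow_succ]; exact PD_mul hD h3 hC ih hg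

theorem PD_inv [Finite Q] (h : IsLoop mul e) (hD : Clo mul e D) (h3 : ∀ x d, mul x (mul x (mul x d)) = d)
    (hC : Cen3 mul D c) {g : Equiv.Perm Q} (hg : PD mul D c g) : PD mul D c g⁻¹ := by
  have h1 : g⁻¹ = g ^ (orderOf g - 1) := by
    rw [inv_eq_iff_mul_eq_one, ← pow_succ']
    rw [Nat.sub_add_cancel (orderOf_pos g)]
    exact pow_orderOf_eq_one g
  rw [h1]
  exact PD_pow h hD h3 hC hg _

theorem PD_all [Finite Q] (h : IsLoop mul e) (hD : Clo mul e D) (h3 : ∀ x d, mul x (mul x (mul x d)) = d)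
    (hC : Cen3 mul D c) {g : Equiv.Perm Q} (hg : g ∈ MD h D) : PD mul D c g := by
  unfold MD at hg
  induction hg using Subgroup.closure_induction with
  | mem g hg =>
    obtain ⟨a, haD, rfl⟩ := hg
    refine ⟨fun d hd => hD.mul_mem _ _ haD hd, fun d hd => ?_, a, haD, fun d _ => Or.inl rfl⟩
    rw [Lp_apply, Lp_apply, hC.comm a d haD hd]
  | one => exact PD_one hD h
  | mul g k _ _ ig ik => exact PD_mul hD h3 hC ig ik
  | inv g _ ig => exact PD_inv h hD h3 hC ig

/-- The ninth powers act trivially on `D`. -/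
theorem PD_nine (hD : Clo mul e D) (h3 : ∀ x d, mul x (mul x (mul x d)) = d)
    (hC : Cen3 mul D c) {g : Equiv.Perm Q} (hg : PD mul D c g) {d : Q} (hd : D d) : (g ^ 9) d = d := by
  obtain ⟨a, haD, ha⟩ := hg.2.2
  have hcube : ∀ d, D d → co mul c d (g (g (g d))) := by
    intro d hd
    have k1 := ha d hd
    have hd1 : D (mul a d) := hD.mul_mem _ _ haD hd
    have hd2 : D (mul a (mul a d)) := hD.mul_mem _ _ haD hd1
    have k2 := PD_map hD hC.mem hg hd1 k1
    have k3 := co_trans (h3 c) (ha _ hd1) k2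
    have k4 := PD_map hD hC.mem hg hd2 k3
    have k5 := co_trans (h3 c) (ha _ hd2) k4
    rwa [h3 a d] at k5
  have hmem : ∀ d, D d → D (g (g (g d))) := fun d hd => hg.1 _ (hg.1 _ (hg.1 _ hd))
  have hcc : ∀ d, D d → g (g (g (mul c d))) = mul c (g (g (g d))) := by
    intro d hd
    rw [hg.2.1 _ hd, hg.2.1 _ (hg.1 _ hd), hg.2.1 _ (hg.1 _ (hg.1 _ hd))]
  have h9 : (g ^ 9) d = g (g (g (g (g (g (g (g (g d)))))))) := by
    simp only [pow_succ, pow_zero, one_mul, Equiv.Perm.mul_apply]
  rw [h9]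
  have hcd : D (mul c d) := hD.mul_mem _ _ hC.mem hd
  have hccd : D (mul c (mul c d)) := hD.mul_mem _ _ hC.mem hcd
  rcases hcube d hd with h1 | h1 | h1
  · rw [h1, h1, h1]
  · rw [h1, hcc _ hd, h1, hcc _ hcd, hcc _ hd, h1]
    exact h3 c d
  · have h2 : g (g (g (mul c (mul c d)))) = mul c (mul c (mul c (mul c d))) := by
      rw [hcc _ hcd, hcc _ hd, h1]
    rw [h1, h2, h3 c, hcc _ hd, h1]
    exact h3 c d

/-- `MD` is a `3`-group. -/
theorem MD_pgroup [Finite Q] (h : IsLoop mul e) (ha : IsAut mul) (hD : Clo mul e D)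
    (h3 : ∀ x d, mul x (mul x (mul x d)) = d) (hC : Cen3 mul D c) : IsPGroup 3 (MD h D) := by
  haveI : Fact (Nat.Prime 3) := ⟨Nat.prime_three⟩
  refine pgroup_of_center 3 (((↑) : MD h D → Equiv.Perm Q) ⁻¹' {u | ∃ a, D a ∧ u = Lp h a}) ?_ ?_ 2 ?_
  · exact Subgroup.closure_closure_coe_preimage
  · rintro ⟨u, hu⟩ ⟨a, haD, hua⟩
    apply Subtype.ext
    have h1 : u = Lp h a := hua
    subst h1
    ext z
    show ((Lp h a) ^ 3) z = z
    have : ((Lp h a) ^ 3) z = mul a (mul a (mul a z)) := by
      simp only [pow_succ, pow_zero, one_mul, Equiv.Perm.mul_apply, Lp_apply]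
    rw [this, h3]
  · rintro ⟨g, hg⟩
    have hP := PD_all h hD h3 hC hg
    have hfix : ∀ d, D d → (g ^ 9) d = d := fun d hd => PD_nine hD h3 hC hP hd
    have hmem : g ^ 9 ∈ MD h D := Subgroup.pow_mem _ hg 9
    have haut := stab_aut h ha (MD_le h D hmem) (hfix e hD.one_mem)
    have hcomm : ∀ k ∈ MD h D, k * g ^ 9 = g ^ 9 * k := by
      intro k hk
      unfold MD at hk
      induction hk using Subgroup.closure_induction with
      | mem k hk =>
        obtain ⟨a, haD, rfl⟩ := hk
        have := aut_Lp h haut a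
        rw [hfix a haD] at this
        exact this.symm
      | one => rw [one_mul, mul_one]
      | mul k l _ _ ik il => rw [mul_assoc, il, ← mul_assoc, ik, mul_assoc]
      | inv k _ ik =>
        have : Commute k (g ^ 9) := ik
        exact this.inv_left
    rw [Subgroup.mem_center_iff]
    rintro ⟨k, hk⟩
    apply Subtype.ext
    exact hcomm k hk

end main

section final

variable (h : IsLoop mul e) (ha : IsAut mul) (hc : ∀ x y, mul x y = mul y x)
include h ha hc

theorem Rp_eq_Lp (a : Q) : Rp h a = Lp h a := by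
  ext z
  exact hc z a

omit ha in
theorem mlt_eq : mlt h = Subgroup.closure (Set.range (Lp h)) := by
  unfold mlt
  congr 1
  ext u
  constructor
  · rintro (hu | ⟨a, rfl⟩)
    · exact hu
    · exact ⟨a, by ext z; exact (hc z a).symm⟩
  · exact fun hu => Or.inl hu

/-- A conjugate of `L_v` is in `MD` for the subloop generated by `v` and two more elements. -/
theorem conj_mem {g : Equiv.Perm Q} (hg : g ∈ mlt h) (v : Q) :
    g * Lp h v * g⁻¹ ∈ MD h (gen mul e (fun t => t = v ∨ t = g e ∨ t = g v)) := by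
  have h1 := lam_conj h ha hg e v
  rw [lam_e] at h1
  rw [h1, mul_inv_cancel_right]
  set D := gen mul e (fun t => t = v ∨ t = g e ∨ t = g v) with hDdef
  have hD : Clo mul e D := gen_clo _
  have ha1 : D (g e) := gen_sub (Or.inr (Or.inl rfl))
  have hb1 : D (g v) := gen_sub (Or.inr (Or.inr rfl))
  have hq : D (ld h (g e) (g v)) := by
    apply hD.ldiv_mem (g e) _ ha1
    rw [mul_ld h]
    exact hb1
  unfold lam
  exact Subgroup.mul_mem _ (Subgroup.mul_mem _ (MD_mem h ha1) (MD_mem h hq)) (Subgroup.inv_mem _ (MD_mem h ha1))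

/-- The multiplication group is a `3`-group. -/
theorem mlt_pgroup [Finite Q] (h3 : ∀ x d, mul x (mul x (mul x d)) = d)
    (hBS : ∀ a : mlt h, (∀ g : mlt h, IsPGroup 3 (Subgroup.closure {a, g * a * g⁻¹})) →
      ∃ N : Subgroup (mlt h), N.Normal ∧ IsPGroup 3 N ∧ a ∈ N)
    (hC : ∀ x y z, ∃ c, Cen3 mul (gen mul e (fun t => t = x ∨ t = y ∨ t = z)) c) : IsPGroup 3 (mlt h) := by
  haveI : Fact (Nat.Prime 3) := ⟨Nat.prime_three⟩
  refine pgroup_of_normal 3 (((↑) : mlt h → Equiv.Perm Q) ⁻¹' (Set.range (Lp h))) ?_ ?_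
  · have h1 := mlt_eq h hc
    have h2 : ∀ K : Subgroup (Equiv.Perm Q), K = Subgroup.closure (Set.range (Lp h)) →
        Subgroup.closure (((↑) : K → Equiv.Perm Q) ⁻¹' (Set.range (Lp h))) = ⊤ := by
      rintro _ rfl
      exact Subgroup.closure_closure_coe_preimage
    exact h2 _ h1
  · rintro a ⟨v, hv⟩
    apply hBS
    intro g
    obtain ⟨c, hcc⟩ := hC v ((g : Equiv.Perm Q) e) ((g : Equiv.Perm Q) v)
    set D := gen mul e (fun t => t = v ∨ t = (g : Equiv.Perm Q) e ∨ t = (g : Equiv.Perm Q) v) with hDdef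
    have hp := MD_pgroup h ha (gen_clo _) h3 hcc
    have hle : Subgroup.closure {a, g * a * g⁻¹} ≤ (MD h D).comap (mlt h).subtype := by
      rw [Subgroup.closure_le]
      rintro x (rfl | rfl)
      · show (x : Equiv.Perm Q) ∈ MD h D
        rw [← hv]
        exact MD_mem h (gen_sub (Or.inl rfl))
      · show ((g * a * g⁻¹ : mlt h) : Equiv.Perm Q) ∈ MD h D
        have := conj_mem h ha hc g.2 v
        rw [hv] at this
        exact this
    rintro ⟨k, hk⟩
    have hk2 : (k : Equiv.Perm Q) ∈ MD h D := hle hk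
    obtain ⟨n, hn⟩ := hp ⟨k, hk2⟩
    refine ⟨n, ?_⟩
    apply Subtype.ext
    apply Subtype.ext
    have := congrArg Subtype.val hn
    simpa using this

omit ha hc in
/-- `L_{a b}` is central if `L_a`, `L_b` are. -/
theorem center_mul {a b : Q} (ha' : Lp h a ∈ Subgroup.centralizer (mlt h : Set (Equiv.Perm Q)))
    (hb : Lp h b ∈ Subgroup.centralizer (mlt h : Set (Equiv.Perm Q))) : Lp h a * Lp h b = Lp h (mul a b) := by
  rw [Subgroup.mem_centralizer_iff] at ha'
  -- `L_a (R_z e) = R_z (L_a e)`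
  ext z
  have h1 : ∀ u, mul a (mul u z) = mul (mul a u) z := by
    intro u
    have := congrArg (fun f : Equiv.Perm Q => f u) (ha' _ (Rp_mem h z))
    simp only [Equiv.Perm.mul_apply] at this
    exact this.symm
  exact h1 b

/-- A finite simple commutative automorphic loop whose multiplication group is a `p`-group is associative. -/
theorem assoc_of_pgroup [Finite Q] (hs : Simp mul e) (p : ℕ) [Fact p.Prime] (hp : IsPGroup p (mlt h)) :
    ∀ x y z, mul (mul x y) z = mul x (mul y z) := by
  by_cases htriv : ∀ x : Q, x = e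
  · intro x y z
    rw [htriv (mul (mul x y) z), htriv (mul x (mul y z))]
  -- the center of the multiplication group
  set Z : Set (Equiv.Perm Q) := (Subgroup.centralizer (mlt h : Set (Equiv.Perm Q)) : Set (Equiv.Perm Q)) with hZ
  let S : Q → Prop := fun a => Lp h a ∈ Subgroup.centralizer (mlt h : Set (Equiv.Perm Q))
  have hS : Nrm mul e S := by
    refine ⟨⟨?_, ?_, ?_, ?_⟩, ?_⟩
    · show Lp h e ∈ _
      rw [Lp_e]
      exact Subgroup.one_mem _
    · intro a b h1 h2
      show Lp h (mul a b) ∈ _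
      rw [← center_mul h h1 h2]
      exact Subgroup.mul_mem _ h1 h2
    · intro a b h1 h2
      -- L_a⁻¹ L_{ab} is central and maps e to b
      have h4 : (Lp h a)⁻¹ * Lp h (mul a b) ∈ Subgroup.centralizer (mlt h : Set (Equiv.Perm Q)) :=
        Subgroup.mul_mem _ (Subgroup.inv_mem _ h1) h2
      have h5 : (Lp h a)⁻¹ * Lp h (mul a b) = Lp h b := by
        rw [Subgroup.mem_centralizer_iff] at h4
        ext z
        have h6 := congrArg (fun f : Equiv.Perm Q => f e) (h4 _ (Rp_mem h z))
        have h7 : ((Lp h a)⁻¹ * Lp h (mul a b)) e = b := by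
          rw [Equiv.Perm.mul_apply, Lp_apply, h.mul_one]
          exact inv_app (Lp h a) b
        have h8 : Rp h z e = z := h.one_mul z
        simp only [Equiv.Perm.mul_apply] at h6 h7 ⊢
        rw [h7, h8] at h6
        exact h6.symm
      show Lp h b ∈ _
      rw [← h5]
      exact h4
    · intro a b h1 h2
      rw [hc] at h2
      have h4 : (Lp h b)⁻¹ * Lp h (mul b a) ∈ Subgroup.centralizer (mlt h : Set (Equiv.Perm Q)) :=
        Subgroup.mul_mem _ (Subgroup.inv_mem _ h1) h2
      have h5 : (Lp h b)⁻¹ * Lp h (mul b a) = Lp h a := by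
        rw [Subgroup.mem_centralizer_iff] at h4
        ext z
        have h6 := congrArg (fun f : Equiv.Perm Q => f e) (h4 _ (Rp_mem h z))
        have h7 : ((Lp h b)⁻¹ * Lp h (mul b a)) e = a := by
          rw [Equiv.Perm.mul_apply, Lp_apply, h.mul_one]
          exact inv_app (Lp h b) a
        have h8 : Rp h z e = z := h.one_mul z
        simp only [Equiv.Perm.mul_apply] at h6 h7 ⊢
        rw [h7, h8] at h6
        exact h6.symm
      show Lp h a ∈ _
      rw [← h5]
      exact h4
    · intro g hg a h1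
      show Lp h (g a) ∈ _
      have h2 := aut_Lp h (inn_aut ha hg) a
      have h3 := inn_le h hg
      have h4 : Lp h a * g = g * Lp h a := by
        have := (Subgroup.mem_centralizer_iff.1 h1) g h3
        exact this.symm
      have h5 : Lp h (g a) = Lp h a := by
        have : Lp h (g a) * g = Lp h a * g := by rw [← h2, h4]
        exact mul_right_cancel this
      rw [h5]
      exact h1
  have hne : ∃ a, S a ∧ a ≠ e := by
    push Not at htriv
    obtain ⟨b, hb⟩ := htriv
    haveI : Nontrivial (mlt h) := by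
      refine ⟨⟨⟨Lp h b, Lp_mem h b⟩, 1, ?_⟩⟩
      intro hh
      have h1 := congrArg Subtype.val hh
      have h2 := congrArg (fun f : Equiv.Perm Q => f e) h1
      simp only [Lp_apply, h.mul_one] at h2
      exact hb h2
    haveI := hp.center_nontrivial
    obtain ⟨⟨z, hz⟩, hz1⟩ := exists_ne (1 : Subgroup.center (mlt h))
    have hzc : (z : Equiv.Perm Q) ∈ Subgroup.centralizer (mlt h : Set (Equiv.Perm Q)) := by
      rw [Subgroup.mem_centralizer_iff]
      intro k hk
      have := (Subgroup.mem_center_iff.1 hz) ⟨k, hk⟩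
      exact congrArg Subtype.val this
    have hzL : (z : Equiv.Perm Q) = Lp h ((z : Equiv.Perm Q) e) := by
      ext t
      have h6 := congrArg (fun f : Equiv.Perm Q => f e) ((Subgroup.mem_centralizer_iff.1 hzc) _ (Rp_mem h t))
      have h8 : Rp h t e = t := h.one_mul t
      simp only [Equiv.Perm.mul_apply] at h6
      rw [h8] at h6
      exact h6.symm
    refine ⟨(z : Equiv.Perm Q) e, ?_, ?_⟩
    · show Lp h _ ∈ _
      rw [← hzL]
      exact hzc
    · intro hh
      apply hz1
      apply Subtype.ext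
      apply Subtype.ext
      rw [hh, Lp_e] at hzL
      exact hzL
  rcases hs S hS with h1 | h1
  · obtain ⟨a, haS, hae⟩ := hne
    exact absurd (h1 a haS) hae
  · intro x y z
    have := congrArg (fun f : Equiv.Perm Q => f z) (center_mul h (h1 x) (h1 y))
    exact this.symm

/-- Block C6: the conclusion. -/
theorem assoc_of_three [Finite Q] (hs : Simp mul e) (h3 : ∀ x d, mul x (mul x (mul x d)) = d)
    (hBS : ∀ a : mlt h, (∀ g : mlt h, IsPGroup 3 (Subgroup.closure {a, g * a * g⁻¹})) →
      ∃ N : Subgroup (mlt h), N.Normal ∧ IsPGroup 3 N ∧ a ∈ N)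
    (hC : ∀ x y z, ∃ c, Cen3 mul (gen mul e (fun t => t = x ∨ t = y ∨ t = z)) c) :
    ∀ x y z, mul (mul x y) z = mul x (mul y z) := by
  haveI : Fact (Nat.Prime 3) := ⟨Nat.prime_three⟩
  exact assoc_of_pgroup h ha hc hs 3 (mlt_pgroup h ha hc h3 hBS hC)

end final

end LPM
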