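import Pool.Agent.LPM.A1

set_option autoImplicit false
set_option linter.unusedSectionVars false
set_option linter.style.haveILetI false

/-!
A commutative automorphic loop of exponent `2` with the inverse property is associative (MP_951c8d_al).

Write `A u v w = (u v)(u (v w))`: an automorphism which fixes `u` and `v`.  With `p = x (y z)`,
`q = y (x z)`, `r = z (x y)`:
`A y x` on `p = x (y z)` gives `x r = (x y)(y p)`, `A x y` on `x q` gives `x r = (x y)(x (y (x q)))`, so
`x (y p) = y (x q) =: m`; `A (y z) x` on `x z` gives `(y z)(x z) = p m` and by symmetry it is `q m`.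
-/

namespace LPM

open CAL

variable {Q : Type} {mul : Q → Q → Q} {e : Q}

/-- `w ↦ (u v)(u (v w))` is an automorphism. -/
theorem C7_hom (h : IsLoop mul e) (ha : IsAut mul) (hi : ∀ x z, mul x (mul x z) = z) (u v w t : Q) :
    mul (mul u v) (mul u (mul v (mul w t))) =
      mul (mul (mul u v) (mul u (mul v w))) (mul (mul u v) (mul u (mul v t))) := by
  have hl : ∀ a b : Q, (Lp h a)⁻¹ b = mul a b := by
    intro a b
    rw [Equiv.Perm.inv_eq_iff_eq, Lp_apply, hi]
  have h1 := inn_aut ha (innL_mem h v u) w t
  simp only [Equiv.Perm.mul_apply, Lp_apply, hl] at h1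
  exact h1

/-- The products `x (y z)` and `y (x z)` are equal. -/
theorem C7_eq (h : IsLoop mul e) (ha : IsAut mul) (hc : ∀ a b, mul a b = mul b a)
    (hi : ∀ x z, mul x (mul x z) = z) (x y z : Q) : mul x (mul y z) = mul y (mul x z) := by
  have hom := C7_hom h ha hi
  have hs : ∀ x, mul x x = e := fun x => by
    have := hi x e
    rwa [h.mul_one] at this
  have h3 : ∀ a b, mul (mul a b) b = a := fun a b => by rw [hc, hc a b, hi]
  -- the automorphism fixes `u` and `v`
  have fu : ∀ u v, mul (mul u v) (mul u (mul v u)) = u := fun u v => by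
    rw [hc v u, hi, h3]
  have fv : ∀ u v, mul (mul u v) (mul u (mul v v)) = v := fun u v => by
    rw [hs, h.mul_one, hc (mul u v) u, hi]
  -- `x r = (x y) (y p)`
  have key1 : ∀ x y z, mul x (mul z (mul x y)) = mul (mul x y) (mul y (mul x (mul y z))) := by
    intro x y z
    have h1 := hom y x x (mul y z)
    rw [fv, hi, hi, hc y x, hc (mul x y) z] at h1
    rw [h1, hi]
  -- `x (y p) = y (x q)`
  have key2 : ∀ x y z, mul x (mul y (mul x (mul y z))) = mul y (mul x (mul y (mul x z))) := by
    intro x y z
    have h1 := hom x y x (mul y (mul x z))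
    rw [fu, hi y, hi x z, hc (mul x y) z, key1 x y z] at h1
    have h4 := mul_left_inj' h h1
    rw [← h4, hi]
  -- `(y z) (x z) = p (x (y p))`
  have key3 : ∀ x y z, mul (mul y z) (mul x z) =
      mul (mul x (mul y z)) (mul x (mul y (mul x (mul y z)))) := by
    intro x y z
    have h1 := hom (mul y z) x x z
    rw [fv, hi, hc (mul y z) x, h3, hc _ y] at h1
    rw [h1, hi, hi]
  have h1 := key3 x y z
  have h2 := key3 y x z
  rw [hc (mul x z) (mul y z), h1, key2 y x z] at h2
  exact mul_right_inj' h h2

/-- **Exponent two.** -/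
theorem assoc_of_exp_two (h : IsLoop mul e) (ha : IsAut mul) (hc : ∀ a b, mul a b = mul b a)
    (hE : ∀ x z, mul x (mul (ld h x e) z) = z) (h2 : ∀ x, mul x x = e) (a b c : Q) :
    mul (mul a b) c = mul a (mul b c) := by
  have hl : ∀ x, ld h x e = x := by
    intro x
    apply mul_left_inj' h (a := x)
    rw [mul_ld h, h2]
  have hi : ∀ x z, mul x (mul x z) = z := by
    intro x z
    have := hE x z
    rwa [hl] at this
  rw [hc (mul a b) c, C7_eq h ha hc hi c a b, hc c b]

end LPM
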