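import Pool.Agent.LPM.A5

set_option autoImplicit false
set_option linter.unusedSectionVars false
set_option linter.style.haveILetI false

/-!
Normal subloops of automorphic loops, quotients, and the reduction of Cauchy's theorem to simple loops.
-/

namespace LPM

open CAL

variable {Q : Type} {mul : Q → Q → Q} {e : Q}

/-- A normal subloop: closed under all operations and invariant under the inner mappings. -/
structure Nrm (mul : Q → Q → Q) (e : Q) (S : Q → Prop) : Prop where
  clo : Clo mul e S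
  inv : ∀ g ∈ inn mul, ∀ x, S x → S (g x)

/-- The only normal subloops are the trivial one and the whole loop. -/
def Simp (mul : Q → Q → Q) (e : Q) : Prop :=
  ∀ S : Q → Prop, Nrm mul e S → (∀ x, S x → x = e) ∨ (∀ x, S x)

/-- `y ∈ x S` is invariant under the multiplication group. -/
theorem nrm_map (h : IsLoop mul e) {S : Q → Prop} (hS : Nrm mul e S) {u : Equiv.Perm Q} (hu : u ∈ mlt h)
    {x y : Q} (hxy : S (ld h x y)) : S (ld h (u x) (u y)) := by
  have h1 : (Lp h (u x))⁻¹ * (u * Lp h x) ∈ mlt h :=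
    Subgroup.mul_mem _ (Subgroup.inv_mem _ (Lp_mem h _)) (Subgroup.mul_mem _ hu (Lp_mem h _))
  have h2 : ((Lp h (u x))⁻¹ * (u * Lp h x)) e = e := by
    rw [Equiv.Perm.mul_apply, Equiv.Perm.mul_apply, Lp_apply, h.mul_one]
    exact ld_self h (u x)
  have h3 := hS.inv _ (stab_inn h h1 h2) _ hxy
  rw [Equiv.Perm.mul_apply, Equiv.Perm.mul_apply, Lp_apply, mul_ld h] at h3
  exact h3

theorem nrm_map_iff (h : IsLoop mul e) {S : Q → Prop} (hS : Nrm mul e S) {u : Equiv.Perm Q} (hu : u ∈ mlt h)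
    (x y : Q) : S (ld h (u x) (u y)) ↔ S (ld h x y) := by
  refine ⟨fun hh => ?_, fun hh => nrm_map h hS hu hh⟩
  have := nrm_map h hS (Subgroup.inv_mem _ hu) hh
  rwa [inv_app, inv_app] at this

theorem nrm_refl (h : IsLoop mul e) {S : Q → Prop} (hS : Nrm mul e S) (x : Q) : S (ld h x x) := by
  rw [ld_self]
  exact hS.clo.one_mem

theorem nrm_symm (h : IsLoop mul e) {S : Q → Prop} (hS : Nrm mul e S) {x y : Q} (hxy : S (ld h x y)) :
    S (ld h y x) := by
  have h1 : S (ld h (ld h x y) e) := by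
    apply hS.clo.ldiv_mem (ld h x y) _ hxy
    rw [mul_ld h]
    exact hS.clo.one_mem
  have h2 := nrm_map h hS (Lp_mem h x) h1
  rwa [Lp_apply, Lp_apply, mul_ld h, h.mul_one] at h2

theorem nrm_trans (h : IsLoop mul e) {S : Q → Prop} (hS : Nrm mul e S) {x y z : Q} (hxy : S (ld h x y))
    (hyz : S (ld h y z)) : S (ld h x z) := by
  have h1 := nrm_map h hS (Subgroup.inv_mem _ (Lp_mem h x)) hyz
  have h2 : S (ld h (ld h x y) (ld h x z)) := h1
  have h3 := hS.clo.mul_mem _ _ hxy h2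
  rwa [mul_ld h] at h3

/-- The congruence of a normal subloop. -/
def nrmSetoid (h : IsLoop mul e) {S : Q → Prop} (hS : Nrm mul e S) : Setoid Q :=
  ⟨fun x y => S (ld h x y), ⟨nrm_refl h hS, fun hxy => nrm_symm h hS hxy, fun hxy hyz => nrm_trans h hS hxy hyz⟩⟩

theorem nrm_mul (h : IsLoop mul e) {S : Q → Prop} (hS : Nrm mul e S) {x x' y y' : Q} (hx : S (ld h x x'))
    (hy : S (ld h y y')) : S (ld h (mul x y) (mul x' y')) :=
  nrm_trans h hS (nrm_map h hS (Rp_mem h y) hx) (nrm_map h hS (Lp_mem h x') hy)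

/-- A homomorphic image (a loop) of an automorphic loop is automorphic. -/
theorem aut_image {Q' : Type} {mul' : Q' → Q' → Q'} {e' : Q'} (h : IsLoop mul e) (ha : IsAut mul)
    (h' : IsLoop mul' e') (φ : Q → Q') (hφ : ∀ x y, φ (mul x y) = mul' (φ x) (φ y)) (hs : Function.Surjective φ) :
    IsAut mul' := by
  have extL : ∀ x y : Q, ∀ z, mul (mul y x) (((Lp h x).trans ((Lp h y).trans (Lp h (mul y x)).symm)) z) =
      mul y (mul x z) := fun x y z => (Lp h (mul y x)).apply_symm_apply _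
  have extR : ∀ x y : Q, ∀ z, mul (((Rp h x).trans ((Rp h y).trans (Rp h (mul x y)).symm)) z) (mul x y) =
      mul (mul z x) y := fun x y z => (Rp h (mul x y)).apply_symm_apply _
  have extT : ∀ x : Q, ∀ z, mul x (((Rp h x).trans (Lp h x).symm) z) = mul z x :=
    fun x z => (Lp h x).apply_symm_apply _
  refine ⟨?_, ?_, ?_⟩
  · intro x y f hf u v
    obtain ⟨x, rfl⟩ := hs x
    obtain ⟨y, rfl⟩ := hs y
    have res : ∀ z, f (φ z) = φ (((Lp h x).trans ((Lp h y).trans (Lp h (mul y x)).symm)) z) := by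
      intro z
      apply mul_left_inj' h' (a := mul' (φ y) (φ x))
      rw [hf, ← hφ, ← hφ, ← hφ, ← hφ, extL]
    obtain ⟨u, rfl⟩ := hs u
    obtain ⟨v, rfl⟩ := hs v
    rw [← hφ, res, res, res, ← hφ]
    exact congrArg φ (ha.innL x y _ (extL x y) u v)
  · intro x y f hf u v
    obtain ⟨x, rfl⟩ := hs x
    obtain ⟨y, rfl⟩ := hs y
    have res : ∀ z, f (φ z) = φ (((Rp h x).trans ((Rp h y).trans (Rp h (mul x y)).symm)) z) := by
      intro z
      apply mul_right_inj' h' (a := mul' (φ x) (φ y))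
      rw [hf, ← hφ, ← hφ, ← hφ, ← hφ, extR]
    obtain ⟨u, rfl⟩ := hs u
    obtain ⟨v, rfl⟩ := hs v
    rw [← hφ, res, res, res, ← hφ]
    exact congrArg φ (ha.innR x y _ (extR x y) u v)
  · intro x f hf u v
    obtain ⟨x, rfl⟩ := hs x
    have res : ∀ z, f (φ z) = φ (((Rp h x).trans (Lp h x).symm) z) := by
      intro z
      apply mul_left_inj' h' (a := φ x)
      rw [hf, ← hφ, ← hφ, extT]
    obtain ⟨u, rfl⟩ := hs u
    obtain ⟨v, rfl⟩ := hs v
    rw [← hφ, res, res, res, ← hφ]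
    exact congrArg φ (ha.innT x _ (extT x) u v)

/-- The quotient by a normal subloop. -/
theorem quot_loop (h : IsLoop mul e) (ha : IsAut mul) {S : Q → Prop} (hS : Nrm mul e S) :
    ∃ (Q' : Type) (mul' : Q' → Q' → Q') (e' : Q') (φ : Q → Q'), IsLoop mul' e' ∧ IsAut mul' ∧
      (∀ x y, φ (mul x y) = mul' (φ x) (φ y)) ∧ Function.Surjective φ ∧ ∀ x y, φ x = φ y ↔ S (ld h x y) := by
  let s : Setoid Q := nrmSetoid h hS
  let m' : Quotient s → Quotient s → Quotient s :=
    Quotient.map₂ mul (fun x x' hx y y' hy => nrm_mul h hS hx hy)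
  let φ : Q → Quotient s := fun x => Quotient.mk s x
  have hφ : ∀ x y, φ (mul x y) = m' (φ x) (φ y) := fun _ _ => rfl
  have hs : Function.Surjective φ := Quotient.mk_surjective
  have hiff : ∀ x y, φ x = φ y ↔ S (ld h x y) := fun x y => Quotient.eq
  have hl : IsLoop m' (φ e) := by
    refine ⟨fun x => ?_, fun x => ?_, fun a b => ?_, fun a b => ?_⟩
    · obtain ⟨x, rfl⟩ := hs x
      rw [← hφ, h.one_mul]
    · obtain ⟨x, rfl⟩ := hs x
      rw [← hφ, h.mul_one]
    · obtain ⟨a, rfl⟩ := hs a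
      obtain ⟨b, rfl⟩ := hs b
      refine ⟨φ (ld h a b), ?_, fun y hy => ?_⟩
      · show m' (φ a) (φ (ld h a b)) = φ b
        rw [← hφ, mul_ld h]
      · obtain ⟨y, rfl⟩ := hs y
        have hy : m' (φ a) (φ y) = φ b := hy
        rw [← hφ, hiff] at hy
        rw [hiff, ← nrm_map_iff h hS (Lp_mem h a), Lp_apply, Lp_apply, mul_ld h]
        exact hy
    · obtain ⟨a, rfl⟩ := hs a
      obtain ⟨b, rfl⟩ := hs b
      have hr : mul ((Rp h a).symm b) a = b := (Rp h a).apply_symm_apply b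
      refine ⟨φ ((Rp h a).symm b), ?_, fun y hy => ?_⟩
      · show m' (φ ((Rp h a).symm b)) (φ a) = φ b
        rw [← hφ, hr]
      · obtain ⟨y, rfl⟩ := hs y
        have hy : m' (φ y) (φ a) = φ b := hy
        rw [← hφ, hiff] at hy
        rw [hiff, ← nrm_map_iff h hS (Rp_mem h a), Rp_apply, Rp_apply, hr]
        exact hy
  exact ⟨Quotient s, m', φ e, φ, hl, aut_image h ha hl φ hφ hs, hφ, hs, hiff⟩

/-- Cauchy's theorem lifts from a quotient and from the kernel. -/
theorem cauchy_quot [Finite Q] (h : IsLoop mul e) (ha : IsAut mul) {S : Q → Prop} {Q' : Type}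
    {mul' : Q' → Q' → Q'} {e' : Q'} {φ : Q → Q'} (h' : IsLoop mul' e')
    (hφ : ∀ x y, φ (mul x y) = mul' (φ x) (φ y)) (hs : Function.Surjective φ)
    (hiff : ∀ x y, φ x = φ y ↔ S (ld h x y)) (p : ℕ) (hp : p.Prime) (hdvd : p ∣ Nat.card Q)
    (h1 : p ∣ Nat.card Q' → ∃ x, x ≠ e' ∧ pw mul' e' x p = e')
    (h2 : p ∣ Nat.card {x : Q // S x} → ∃ x, x ≠ e ∧ pw mul e x p = e) : ∃ x, x ≠ e ∧ pw mul e x p = e := by
  have hpa := powAssoc_of_aut h ha
  have hfA : Finite Q' := Finite.of_surjective φ hs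
  have hφe : φ e = e' := by
    apply mul_left_inj' h' (a := φ e)
    rw [← hφ, h.one_mul, h'.mul_one]
  have hcard : Nat.card Q = Nat.card Q' * Nat.card {x : Q // S x} := by
    rw [← Nat.card_prod]
    refine (Nat.card_congr (Equiv.ofBijective
      (fun c : Q' × {x : Q // S x} => mul (Function.surjInv hs c.1) c.2.1) ⟨?_, ?_⟩)).symm
    · rintro ⟨α, v, hv⟩ ⟨β, w, hw⟩ heq
      have hve : φ v = e' := by
        rw [← hφe]
        exact ((hiff e v).2 (by rwa [ld_e])).symm
      have hwe : φ w = e' := by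
        rw [← hφe]
        exact ((hiff e w).2 (by rwa [ld_e])).symm
      have h3 : φ (mul (Function.surjInv hs α) v) = φ (mul (Function.surjInv hs β) w) := congrArg φ heq
      rw [hφ, hφ, hve, hwe, h'.mul_one, h'.mul_one, Function.surjInv_eq hs, Function.surjInv_eq hs] at h3
      subst h3
      have h4 : v = w := mul_left_inj' h heq
      subst h4
      rfl
    · intro z
      refine ⟨⟨φ z, ⟨ld h (Function.surjInv hs (φ z)) z, ?_⟩⟩, mul_ld h _ _⟩
      rw [← hiff, Function.surjInv_eq hs]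
  rw [hcard] at hdvd
  rcases (hp.dvd_mul).1 hdvd with h3 | h3
  · obtain ⟨α, hα, hαp⟩ := h1 h3
    obtain ⟨y, rfl⟩ := hs α
    have hpow : ∀ n, φ (pw mul e y n) = pw mul' e' (φ y) n := by
      intro n
      induction n with
      | zero => rw [pw_zero, hφe, pw_zero]
      | succ n ih => rw [pw_succ, hφ, ih, pw_succ]
    have hadd : ∀ m n, pw mul' e' (φ y) (m + n) = mul' (pw mul' e' (φ y) m) (pw mul' e' (φ y) n) := by
      intro m n
      rw [← hpow, ← hpow, ← hpow, ← hφ, hpa]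
    have hmul0 : ∀ m, pw mul' e' (φ y) m = e' → ∀ n, pw mul' e' (φ y) (m * n) = e' := by
      intro m hm n
      induction n with
      | zero => rfl
      | succ n ih => rw [Nat.mul_succ, hadd, ih, hm, h'.one_mul]
    have hex : ∃ n, 0 < n ∧ pw mul e y n = e := by
      refine ⟨orderOf (Rp h y), orderOf_pos _, ?_⟩
      rw [← Rp_pow_e h, pow_orderOf_eq_one]
      rfl
    classical
    obtain ⟨hn0, hn1⟩ := Nat.find_spec hex
    have hmin := fun m => Nat.find_min hex (m := m)
    generalize Nat.find hex = n at hn0 hn1 hmin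
    have hpn : p ∣ n := by
      by_contra hcon
      apply hα
      have hcop : Nat.Coprime p n := (Nat.Prime.coprime_iff_not_dvd hp).2 hcon
      obtain ⟨k, hk⟩ := Nat.exists_mul_mod_eq_one_of_coprime hcop.symm hp.one_lt
      have e1 : n * k = p * (n * k / p) + 1 := by
        have := Nat.div_add_mod (n * k) p
        omega
      have e2 := hmul0 n (by rw [← hpow, hn1, hφe]) k
      rw [e1, hadd, hmul0 p hαp, h'.one_mul, pw_one h'] at e2
      exact e2
    obtain ⟨m, rfl⟩ := hpn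
    have hm0 : 0 < m := by
      rcases Nat.eq_zero_or_pos m with h0 | h0
      · subst h0
        simp at hn0
      · exact h0
    refine ⟨pw mul e y m, ?_, ?_⟩
    · intro hc
      refine hmin m ?_ ⟨hm0, hc⟩
      have := hp.one_lt
      nlinarith
    · rw [pw_mul_self hpa, mul_comm, hn1]
  · exact h2 h3

/-- Cauchy's theorem for groups. -/
theorem cauchy_assoc [Finite Q] (h : IsLoop mul e) (ha : IsAut mul)
    (hassoc : ∀ a b c, mul (mul a b) c = mul a (mul b c)) (p : ℕ) (hp : p.Prime) (hdvd : p ∣ Nat.card Q) :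
    ∃ x, x ≠ e ∧ pw mul e x p = e := by
  refine cauchy_ext h ha (A := Multiplicative (ZMod 1)) (fun _ => 1) ?_ ?_ ?_ p hp hdvd
  · intro x
    exact ⟨e, Subsingleton.elim _ _⟩
  · intro _ _
    exact Subsingleton.elim _ _
  · intro y
    exact ⟨fun _ a b => hassoc a y b, fun _ => rfl⟩

/-- **Reduction of Cauchy's theorem to finite simple automorphic loops.** -/
theorem cauchy_simple_red
    (hsimp : ∀ {Q : Type} [Fintype Q] {mul : Q → Q → Q} {e : Q}, IsLoop mul e → IsAut mul → Simp mul e →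
      ∀ p : ℕ, p.Prime → p ∣ Fintype.card Q → ∃ x, x ≠ e ∧ pw mul e x p = e) (n : ℕ) :
    ∀ {Q : Type} [Fintype Q] {mul : Q → Q → Q} {e : Q}, Fintype.card Q = n → IsLoop mul e → IsAut mul →
      ∀ p : ℕ, p.Prime → p ∣ Fintype.card Q → ∃ x, x ≠ e ∧ pw mul e x p = e := by
  induction n using Nat.strong_induction_on with
  | _ n ih =>
  intro Q _ mul e hn h ha p hp hdvd
  classical
  by_cases hs : Simp mul e
  · exact hsimp h ha hs p hp hdvd
  · unfold Simp at hs
    push Not at hs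
    obtain ⟨S, hS, ⟨x, hx, hxe⟩, y, hy⟩ := hs
    obtain ⟨Q', mul', e', φ, h', ha', hφ, hsur, hiff⟩ := quot_loop h ha hS
    have hfin : Finite Q' := Finite.of_surjective φ hsur
    let _ : Fintype Q' := Fintype.ofFinite Q'
    rw [← Nat.card_eq_fintype_card] at hdvd
    refine cauchy_quot h ha h' hφ hsur hiff p hp hdvd (fun h3 => ?_) (fun h3 => ?_)
    · rw [Nat.card_eq_fintype_card] at h3
      refine ih _ ?_ rfl h' ha' p hp h3
      rw [← hn]
      refine lt_of_le_of_ne (Fintype.card_le_of_surjective φ hsur) fun heq => ?_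
      have hbij := (Fintype.bijective_iff_surjective_and_card φ).2 ⟨hsur, heq.symm⟩
      apply hxe
      apply hbij.1
      exact ((hiff e x).2 (by rwa [ld_e])).symm
    · obtain ⟨m', e1, hm, he, h1, ha1⟩ := sub_loop h ha hS.clo
      rw [Nat.card_eq_fintype_card] at h3
      obtain ⟨z, hz, hzp⟩ := ih _ (hn ▸ Fintype.card_subtype_lt (x := y) hy) rfl h1 ha1 p hp h3
      refine ⟨z, fun hze => hz (Subtype.ext (hze.trans he.symm)), ?_⟩
      rw [← pw_sub' (m' := m') (e' := e1) hm he z p, hzp, he]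

/-- Cauchy's theorem for all finite automorphic loops from the theorem on simple loops and the commutative case. -/
theorem cauchy_all_of
    (hsimp : ∀ {Q : Type} [Fintype Q] {mul : Q → Q → Q} {e : Q}, IsLoop mul e → IsAut mul → Simp mul e →
      (∀ a b c, mul (mul a b) c = mul a (mul b c)) ∨ (∀ a b, mul a b = mul b a))
    (hcomm : ∀ {Q : Type} [Fintype Q] {mul : Q → Q → Q} {e : Q}, IsLoop mul e → IsAut mul → Simp mul e →
      (∀ a b, mul a b = mul b a) → ∀ p : ℕ, p.Prime → p ∣ Fintype.card Q → ∃ x, x ≠ e ∧ pw mul e x p = e) :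
    ∀ (Q : Type) [Fintype Q] (mul : Q → Q → Q) (e : Q),
      (∀ x, mul e x = x) →
      (∀ x, mul x e = x) →
      (∀ a b, ∃! x, mul a x = b) →
      (∀ a b, ∃! y, mul y a = b) →
      (∀ (x y : Q) (f : Q → Q), (∀ z, mul (mul y x) (f z) = mul y (mul x z)) →
          ∀ u v, f (mul u v) = mul (f u) (f v)) →
      (∀ (x y : Q) (f : Q → Q), (∀ z, mul (f z) (mul x y) = mul (mul z x) y) →
          ∀ u v, f (mul u v) = mul (f u) (f v)) →
      (∀ (x : Q) (f : Q → Q), (∀ z, mul x (f z) = mul z x) →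
          ∀ u v, f (mul u v) = mul (f u) (f v)) →
      ∀ p : ℕ, p.Prime → p ∣ Fintype.card Q →
        ∃ x : Q, x ≠ e ∧ (fun z => mul z x)^[p] e = e := by
  intro Q _ mul e h1 h2 h3 h4 h5 h6 h7 p hp hdvd
  refine cauchy_simple_red ?_ _ rfl ⟨h1, h2, h3, h4⟩ ⟨h5, h6, h7⟩ p hp hdvd
  clear hdvd hp p h7 h6 h5 h4 h3 h2 h1
  intro Q _ mul e h ha hs p hp hdvd
  rcases hsimp h ha hs with h1 | h1
  · rw [← Nat.card_eq_fintype_card] at hdvd
    exact cauchy_assoc h ha h1 p hp hdvd
  · exact hcomm h ha hs h1 p hp hdvd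

end LPM
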