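import Pool.Agent.LPM.A5

set_option autoImplicit false
set_option linter.unusedSectionVars false
set_option linter.style.haveILetI false

/-!
Automorphic loops: the subloops `U v`, commutators.
-/

namespace LPM

open CAL

variable {Q : Type} {mul : Q → Q → Q} {e : Q}

/-- The inverse. -/
noncomputable def iv (h : IsLoop mul e) (x : Q) : Q := ld h x e

/-- The middle inner mapping `x ↦ a \ (x a)`. -/
noncomputable def Tt (h : IsLoop mul e) (a : Q) : Equiv.Perm Q := (Lp h a)⁻¹ * Rp h a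

/-- The left inner mapping. -/
noncomputable def li (h : IsLoop mul e) (x y : Q) : Equiv.Perm Q := (Lp h (mul x y))⁻¹ * (Lp h x * Lp h y)

/-- The commutator `x \ T_w x`. -/
noncomputable def cm (h : IsLoop mul e) (x w : Q) : Q := ld h x (Tt h w x)

/-- `y, v, t` associate. -/
def As (mul : Q → Q → Q) (y v t : Q) : Prop := mul (mul y v) t = mul y (mul v t)

/-- `y` is in `U_v`. -/
def UU (mul : Q → Q → Q) (v y : Q) : Prop := ∀ t, As mul y v t

section basic

variable (h : IsLoop mul e)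
include h

theorem li_mem (x y : Q) : li h x y ∈ inn mul := innL_mem h y x

theorem li_def (x y : Q) : Lp h x * Lp h y = Lp h (mul x y) * li h x y := by
  unfold li
  group

theorem Tt_mem (a : Q) : Tt h a ∈ inn mul := innT_mem h a

theorem mul_Tt (a x : Q) : mul a (Tt h a x) = mul x a := by
  have : Lp h a (Tt h a x) = Rp h a x := by
    unfold Tt
    rw [Equiv.Perm.mul_apply, app_inv]
  exact this

theorem Tt_eq {a x y : Q} (hxy : mul a y = mul x a) : Tt h a x = y := by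
  apply mul_left_inj' h (a := a)
  rw [mul_Tt h, hxy]

theorem Tt_self (a : Q) : Tt h a a = a := Tt_eq h rfl

theorem mul_iv (x : Q) : mul x (iv h x) = e := mul_ld h x e

theorem mul_cm (x w : Q) : mul x (cm h x w) = Tt h w x := mul_ld h _ _

theorem UU_L (v y : Q) : UU mul v y ↔ Lp h (mul y v) = Lp h y * Lp h v := by
  constructor
  · intro hu
    ext t
    exact hu t
  · intro hu t
    exact congrArg (fun f : Equiv.Perm Q => f t) hu

theorem UU_li (v y : Q) : UU mul v y ↔ li h y v = 1 := by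
  rw [UU_L h]
  unfold li
  rw [inv_mul_eq_one]

end basic

theorem Clo.iv_mem {S : Q → Prop} (hS : Clo mul e S) (h : IsLoop mul e) {x : Q} (hx : S x) : S (iv h x) := by
  apply hS.ldiv_mem x _ hx
  rw [mul_iv h]
  exact hS.one_mem

theorem Clo.ld_mem {S : Q → Prop} (hS : Clo mul e S) (h : IsLoop mul e) {x y : Q} (hx : S x) (hy : S y) :
    S (ld h x y) := by
  apply hS.ldiv_mem x _ hx
  rwa [mul_ld h]

theorem Clo.Tt_mem {S : Q → Prop} (hS : Clo mul e S) (h : IsLoop mul e) {x y : Q} (hx : S x) (hy : S y) :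
    S (Tt h x y) := by
  apply hS.ldiv_mem x _ hx
  rw [mul_Tt h]
  exact hS.mul_mem _ _ hy hx

theorem Clo.cm_mem {S : Q → Prop} (hS : Clo mul e S) (h : IsLoop mul e) {x y : Q} (hx : S x) (hy : S y) :
    S (cm h x y) := hS.ld_mem h hx (hS.Tt_mem h hy hx)

theorem clo_all {ι : Type} {S : ι → Q → Prop} (hS : ∀ i, Clo mul e (S i)) : Clo mul e (fun x => ∀ i, S i x) :=
  ⟨fun i => (hS i).one_mem, fun a b ha hb i => (hS i).mul_mem a b (ha i) (hb i),
    fun a b ha hb i => (hS i).ldiv_mem a b (ha i) (hb i), fun a b ha hb i => (hS i).rdiv_mem a b (ha i) (hb i)⟩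

section autom

variable (h : IsLoop mul e) (ha : IsAut mul)
include h ha

theorem iv_iv (x : Q) : iv h (iv h x) = x := inv_inv' h ha x

theorem iv_mul (x : Q) : mul (iv h x) x = e := inv_mul' h ha x

theorem iv_inj {x y : Q} (hxy : iv h x = iv h y) : x = y := by
  rw [← iv_iv h ha x, hxy, iv_iv h ha]

/-- The antiautomorphic inverse property. -/
theorem aaip (x y : Q) : iv h (mul x y) = mul (iv h y) (iv h x) := by
  have h1 : ∀ a c : Q, lam h a c e = mul c (ld h a e) := by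
    intro a c
    rw [lam_apply, flex_inv h ha, mul_ld h]
  have h2 := congrArg (fun f : Equiv.Perm Q => f (iv h x)) (lam_conj h ha (Lp_mem h x) y e)
  simp only [Equiv.Perm.mul_apply, Lp_apply, h.mul_one] at h2
  rw [mul_iv h, h1] at h2
  have h3 := mul_left_inj' h h2
  have h4 : lam h y e = Lp h (iv h y) := by
    unfold lam
    rw [LLi_comm h ha]
    unfold iv
    group
  rw [h4] at h3
  exact h3.symm

theorem aut_iv {u : Equiv.Perm Q} (hu : u ∈ inn mul) (x : Q) : u (iv h x) = iv h (u x) := by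
  have := aut_ld h (inn_aut ha hu) x e
  rwa [inn_e h hu] at this

theorem aut_Tt {u : Equiv.Perm Q} (hu : u ∈ inn mul) (a : Q) : u * Tt h a = Tt h (u a) * u := by
  have h1 := aut_Lp h (inn_aut ha hu) a
  have h2 := aut_Rp h (inn_aut ha hu) a
  unfold Tt
  rw [mul_assoc, ← h2, ← mul_assoc, ← mul_assoc]
  congr 1
  rw [eq_inv_mul_iff_mul_eq, ← mul_assoc, ← h1]
  group

theorem aut_Tt' {u : Equiv.Perm Q} (hu : u ∈ inn mul) (a x : Q) : u (Tt h a x) = Tt h (u a) (u x) :=
  congrArg (fun f : Equiv.Perm Q => f x) (aut_Tt h ha hu a)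

theorem aut_cm {u : Equiv.Perm Q} (hu : u ∈ inn mul) (x w : Q) : u (cm h x w) = cm h (u x) (u w) := by
  unfold cm
  rw [aut_ld h (inn_aut ha hu), aut_Tt' h ha hu]

theorem aut_li {u : Equiv.Perm Q} (hu : u ∈ inn mul) (x y : Q) : u * li h x y = li h (u x) (u y) * u := by
  have h1 := aut_Lp h (inn_aut ha hu) x
  have h2 := aut_Lp h (inn_aut ha hu) y
  have h3 := aut_Lp h (inn_aut ha hu) (mul x y)
  rw [inn_aut ha hu] at h3
  unfold li
  have e1 : Lp h (mul (u x) (u y)) = u * Lp h (mul x y) * u⁻¹ := by rw [h3]; group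
  have e2 : Lp h (u x) = u * Lp h x * u⁻¹ := by rw [h1]; group
  have e3 : Lp h (u y) = u * Lp h y * u⁻¹ := by rw [h2]; group
  rw [e1, e2, e3]
  group

theorem Tt_iv (a : Q) : Tt h (iv h a) = (Tt h a)⁻¹ := by
  rw [eq_inv_iff_mul_eq_one]
  have key : ∀ x, Tt h a (Tt h (iv h a) x) = x := by
    intro x
    have h1 := mul_Tt h (iv h a) x
    have h2 := congrArg (iv h) h1
    rw [aaip h ha, aaip h ha, iv_iv h ha] at h2
    have h3 : Tt h a (iv h (Tt h (iv h a) x)) = iv h x := Tt_eq h h2.symm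
    rw [aut_iv h ha (Tt_mem h a)] at h3
    exact iv_inj h ha h3
  have h1 : Tt h a * Tt h (iv h a) = 1 := by
    ext x
    exact key x
  have h2 := mul_eq_one_iff_eq_inv.1 h1
  rw [h2, mul_inv_cancel]

theorem Tt_iv_app (a x : Q) : Tt h (iv h a) (Tt h a x) = x := by
  rw [Tt_iv h ha, inv_app]

theorem Tt_app_iv (a x : Q) : Tt h a (Tt h (iv h a) x) = x := by
  rw [Tt_iv h ha, app_inv]

theorem Tt_mul_iv (w x : Q) : mul (Tt h w x) (iv h w) = mul (iv h w) x := by
  rw [← mul_Tt h (iv h w) (Tt h w x), Tt_iv_app h ha]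

omit h in
theorem fix_clo {u : Equiv.Perm Q} (h : IsLoop mul e) (hu : u ∈ inn mul) : Clo mul e (fun x => u x = x) := by
  have hau := inn_aut ha hu
  refine ⟨inn_e h hu, ?_, ?_, ?_⟩
  · intro a b h1 h2
    rw [hau, h1, h2]
  · intro a b h1 h2
    apply mul_left_inj' h (a := a)
    rw [hau, h1] at h2
    exact h2
  · intro a b h1 h2
    apply mul_right_inj' h (a := b)
    rw [hau, h1] at h2
    exact h2

theorem clo_v (y t : Q) : Clo mul e (fun v => As mul y v t) := by
  have hm : (Rp h t)⁻¹ * ((Lp h y)⁻¹ * (Rp h t * Lp h y)) ∈ mlt h :=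
    Subgroup.mul_mem _ (Subgroup.inv_mem _ (Rp_mem h t)) (Subgroup.mul_mem _ (Subgroup.inv_mem _ (Lp_mem h y))
      (Subgroup.mul_mem _ (Rp_mem h t) (Lp_mem h y)))
  have he : ((Rp h t)⁻¹ * ((Lp h y)⁻¹ * (Rp h t * Lp h y))) e = e := by
    simp only [Equiv.Perm.mul_apply]
    rw [Equiv.Perm.inv_eq_iff_eq, Equiv.Perm.inv_eq_iff_eq, Lp_apply, Rp_apply, Lp_apply, Rp_apply, h.mul_one,
      h.one_mul]
  have hc := fix_clo ha h (stab_inn h hm he)
  have hiff : ∀ v, As mul y v t ↔ ((Rp h t)⁻¹ * ((Lp h y)⁻¹ * (Rp h t * Lp h y))) v = v := by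
    intro v
    simp only [Equiv.Perm.mul_apply]
    rw [Equiv.Perm.inv_eq_iff_eq, Equiv.Perm.inv_eq_iff_eq]
    rfl
  have : (fun v => As mul y v t) = fun v => ((Rp h t)⁻¹ * ((Lp h y)⁻¹ * (Rp h t * Lp h y))) v = v :=
    funext fun v => propext (hiff v)
  rw [this]
  exact hc

theorem clo_y (v t : Q) : Clo mul e (fun y => As mul y v t) := by
  have hm : (Rp h (mul v t))⁻¹ * (Rp h t * Rp h v) ∈ mlt h :=
    Subgroup.mul_mem _ (Subgroup.inv_mem _ (Rp_mem h _)) (Subgroup.mul_mem _ (Rp_mem h _) (Rp_mem h _))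
  have he : ((Rp h (mul v t))⁻¹ * (Rp h t * Rp h v)) e = e := by
    simp only [Equiv.Perm.mul_apply]
    rw [Equiv.Perm.inv_eq_iff_eq, Rp_apply, Rp_apply, Rp_apply, h.one_mul, h.one_mul]
  have hc := fix_clo ha h (stab_inn h hm he)
  have hiff : ∀ y, As mul y v t ↔ ((Rp h (mul v t))⁻¹ * (Rp h t * Rp h v)) y = y := by
    intro y
    simp only [Equiv.Perm.mul_apply]
    rw [Equiv.Perm.inv_eq_iff_eq]
    rfl
  have : (fun y => As mul y v t) = fun y => ((Rp h (mul v t))⁻¹ * (Rp h t * Rp h v)) y = y :=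
    funext fun y => propext (hiff y)
  rw [this]
  exact hc

theorem U_clo (v : Q) : Clo mul e (UU mul v) := clo_all fun t => clo_y h ha v t

theorem N_clo (y : Q) : Clo mul e (fun v => UU mul v y) := clo_all fun t => clo_v h ha y t

theorem UU_iv {v y : Q} (hv : UU mul v y) : UU mul (iv h v) y := (N_clo h ha y).iv_mem h hv

theorem UU_iv' {v y : Q} (hv : UU mul (iv h v) y) : UU mul v y := by
  have := UU_iv h ha hv
  rwa [iv_iv h ha] at this

/-- `u ∈ U_v` implies `(y v) u = y (v u)`. -/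
theorem U_third {v u : Q} (hu : UU mul v u) (y : Q) : As mul y v u := by
  have h1 : As mul (iv h u) (iv h v) (iv h y) := UU_iv h ha ((U_clo h ha v).iv_mem h hu) (iv h y)
  have h2 := congrArg (iv h) h1
  rw [aaip h ha, aaip h ha, aaip h ha, aaip h ha, iv_iv h ha, iv_iv h ha, iv_iv h ha] at h2
  exact h2.symm

theorem UU_map {u : Equiv.Perm Q} (hu : u ∈ inn mul) {v y : Q} (hv : UU mul v y) : UU mul (u v) (u y) := by
  intro t
  have hau := inn_aut ha hu
  obtain ⟨s, rfl⟩ := u.surjective t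
  have := congrArg u (hv s)
  rw [hau, hau, hau, hau] at this
  exact this

/-- Inversion reverses the ternary operation. -/
theorem iv_lam (a x y : Q) : iv h (lam h a x y) = lam h (iv h a) (iv h y) (iv h x) := by
  have h1 := congrArg (fun f : Equiv.Perm Q => f (iv h (ld h a x)))
    (lam_conj h ha (Rp_mem h (iv h a)) e (iv h (ld h a y)))
  simp only [Equiv.Perm.mul_apply, Rp_apply, h.one_mul, lam_e, Lp_apply] at h1
  rw [← aaip h ha a, ← aaip h ha a, mul_ld h, mul_ld h] at h1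
  rw [← h1, lam_apply, aaip h ha, aaip h ha]

/-- `lam z d (lam z c)⁻¹`. -/
theorem D_conj {u : Equiv.Perm Q} (hu : u ∈ mlt h) (z c d : Q) :
    u * (lam h z d * (lam h z c)⁻¹) * u⁻¹ = lam h (u z) (u d) * (lam h (u z) (u c))⁻¹ := by
  have h1 := lam_conj h ha hu z d
  have h2 := lam_conj h ha hu z c
  have e1 : lam h (u z) (u d) = u * lam h z d * u⁻¹ := by rw [h1]; group
  have e2 : lam h (u z) (u c) = u * lam h z c * u⁻¹ := by rw [h2]; group
  rw [e1, e2]
  group

theorem D_e (y v : Q) : lam h (iv h y) v * (lam h (iv h y) e)⁻¹ = (Lp h y)⁻¹ * Lp h (mul y v) := by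
  have key : ∀ v y, lam h (ld h y e) v = (Lp h y)⁻¹ * Lp h (mul y v) * Lp h y := by
    intro v y
    have h1 := lam_conj h ha (Lp_mem h y) (ld h y e) v
    rw [Lp_apply, Lp_apply, mul_ld h, lam_e] at h1
    rw [mul_assoc, ← h1]
    group
  unfold iv
  rw [key, key, h.mul_one]
  group

/-- The condition `lam z d (lam z c)⁻¹ = g` in terms of `y = (c \ z)⁻¹`. -/
theorem D_iff (z c d : Q) (g : Equiv.Perm Q) :
    lam h z d * (lam h z c)⁻¹ = g ↔
      ∀ s, ((Rp h (((Lp h c)⁻¹ * g * Lp h c) s))⁻¹ * (Rp h s * Rp h (ld h c d))) (iv h (ld h c z)) =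
        iv h (ld h c z) := by
  have h1 := D_conj h ha (Subgroup.inv_mem _ (Lp_mem h c)) z c d
  have h2 : ((Lp h c)⁻¹ : Equiv.Perm Q) c = e := ld_self h c
  have h3 : ((Lp h c)⁻¹ : Equiv.Perm Q) z = iv h (iv h (ld h c z)) := (iv_iv h ha _).symm
  have h4 : ((Lp h c)⁻¹ : Equiv.Perm Q) d = ld h c d := rfl
  rw [h2, h3, h4, D_e h ha] at h1
  have h5 : lam h z d * (lam h z c)⁻¹ = g ↔
      (Lp h (iv h (ld h c z)))⁻¹ * Lp h (mul (iv h (ld h c z)) (ld h c d)) = (Lp h c)⁻¹ * g * Lp h c := by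
    rw [← h1]
    constructor
    · intro hg
      rw [hg]
      group
    · intro hg
      have : lam h z d * (lam h z c)⁻¹ =
          Lp h c * ((Lp h c)⁻¹ * (lam h z d * (lam h z c)⁻¹) * ((Lp h c)⁻¹)⁻¹) * (Lp h c)⁻¹ := by group
      rw [this, hg]
      group
  rw [h5, inv_mul_eq_iff_eq_mul]
  constructor
  · intro hg s
    simp only [Equiv.Perm.mul_apply, Rp_apply]
    rw [Equiv.Perm.inv_eq_iff_eq, Rp_apply]
    exact congrArg (fun f : Equiv.Perm Q => f s) hg
  · intro hg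
    ext s
    have := hg s
    simp only [Equiv.Perm.mul_apply, Rp_apply] at this
    rw [Equiv.Perm.inv_eq_iff_eq, Rp_apply] at this
    exact this

/-- (H): the fibres of `z ↦ lam z d (lam z c)⁻¹` are closed under the ternary operation. -/
theorem D_lam {z1 z2 z3 c d : Q} {g : Equiv.Perm Q} (h1 : lam h z1 d * (lam h z1 c)⁻¹ = g)
    (h2 : lam h z2 d * (lam h z2 c)⁻¹ = g) (h3 : lam h z3 d * (lam h z3 c)⁻¹ = g) :
    lam h (lam h z2 z1 z3) d * (lam h (lam h z2 z1 z3) c)⁻¹ = g := by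
  rw [D_iff h ha] at h1 h2 h3 ⊢
  intro s
  have hm : (Rp h (((Lp h c)⁻¹ * g * Lp h c) s))⁻¹ * (Rp h s * Rp h (ld h c d)) ∈ mlt h :=
    Subgroup.mul_mem _ (Subgroup.inv_mem _ (Rp_mem h _)) (Subgroup.mul_mem _ (Rp_mem h _) (Rp_mem h _))
  have h4 : ld h c (lam h z2 z1 z3) = lam h (ld h c z2) (ld h c z1) (ld h c z3) := by
    have := congrArg (fun f : Equiv.Perm Q => f z3) (lam_conj h ha (Subgroup.inv_mem _ (Lp_mem h c)) z2 z1)
    exact this
  rw [h4, iv_lam h ha]
  have h5 := congrArg (fun f : Equiv.Perm Q => f (iv h (ld h c z1)))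
    (lam_conj h ha hm (iv h (ld h c z2)) (iv h (ld h c z3)))
  rw [h2 s, h3 s] at h5
  have h6 := h1 s
  generalize (Rp h (((Lp h c)⁻¹ * g * Lp h c) s))⁻¹ * (Rp h s * Rp h (ld h c d)) = w at h5 h6 ⊢
  rw [Equiv.Perm.mul_apply, Equiv.Perm.mul_apply, h6] at h5
  exact h5

theorem D_mul {z1 z3 c d : Q} {g : Equiv.Perm Q} (h0 : lam h e d * (lam h e c)⁻¹ = g)
    (h1 : lam h z1 d * (lam h z1 c)⁻¹ = g) (h3 : lam h z3 d * (lam h z3 c)⁻¹ = g) :
    lam h (mul z1 z3) d * (lam h (mul z1 z3) c)⁻¹ = g := by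
  have := D_lam h ha h1 h0 h3
  rwa [lam_e, Lp_apply] at this

omit ha in
theorem lam_li (z d : Q) : lam h z d = Lp h d * li h z (ld h z d) * (Lp h z)⁻¹ := by
  unfold lam li
  rw [mul_ld h]
  group

omit ha in
/-- `lam z d (lam z c)⁻¹ = lam e d (lam e c)⁻¹` iff `l(z, z \ d) = l(z, z \ c)`. -/
theorem D_li (z c d : Q) : lam h z d * (lam h z c)⁻¹ = lam h e d * (lam h e c)⁻¹ ↔
    li h z (ld h z d) = li h z (ld h z c) := by
  rw [lam_li h z d, lam_li h z c, lam_e, lam_e]
  constructor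
  · intro hh
    have e1 : li h z (ld h z d) = (Lp h d)⁻¹ * ((Lp h d * li h z (ld h z d) * (Lp h z)⁻¹) *
        (Lp h c * li h z (ld h z c) * (Lp h z)⁻¹)⁻¹) * Lp h c * li h z (ld h z c) := by group
    rw [e1, hh]
    group
  · intro hh
    rw [hh]
    group

theorem li_fix (x y : Q) : li h x y x = x := by
  unfold li
  rw [Equiv.Perm.mul_apply, Equiv.Perm.inv_eq_iff_eq]
  exact flex h ha x y

/-- An inner mapping that fixes `a` commutes with `T_a`. -/
theorem Tt_comm {u : Equiv.Perm Q} (hu : u ∈ inn mul) {a : Q} (hua : u a = a) : u * Tt h a = Tt h a * u := by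
  rw [aut_Tt h ha hu, hua]

/-- `l(x, T_x y) = l(x, y)`. -/
theorem li_Tt (x y : Q) : li h x (Tt h x y) = li h x y := by
  have h1 := aut_li h ha (Tt_mem h x) x y
  rw [Tt_self h] at h1
  have h2 := Tt_comm h ha (li_mem h x y) (li_fix h ha x y)
  rw [← h2] at h1
  exact (mul_right_cancel h1).symm

/-- **I3**, first form. -/
theorem I3a (x w : Q) : UU mul (ld h (mul x w) (mul w x)) (mul x w) := by
  have hTx : Tt h x (mul x w) = mul w x := Tt_eq h (flex h ha x w)
  have hTw : Tt h w (mul w x) = mul x w := Tt_eq h (flex h ha w x)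
  have hx : lam h x (mul w x) * (lam h x (mul x w))⁻¹ =
      lam h e (mul w x) * (lam h e (mul x w))⁻¹ := by
    rw [D_li h, ld_mul h]
    have h1 : ld h x (mul w x) = Tt h x w := by
      apply mul_left_inj' h (a := x)
      rw [mul_ld h, mul_Tt h]
    rw [h1, li_Tt h ha]
  have hw : lam h w (mul w x) * (lam h w (mul x w))⁻¹ =
      lam h e (mul w x) * (lam h e (mul x w))⁻¹ := by
    rw [D_li h, ld_mul h]
    have h1 : ld h w (mul x w) = Tt h w x := by
      apply mul_left_inj' h (a := w)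
      rw [mul_ld h, mul_Tt h]
    rw [h1, li_Tt h ha]
  have hc := D_mul h ha rfl hx hw
  rw [lam_self, inv_one, mul_one, lam_e, lam_e] at hc
  unfold lam at hc
  rw [UU_L h, mul_ld h]
  have := congrArg (fun f => f * Lp h (mul x w)) hc
  simp only [inv_mul_cancel_right] at this
  exact this.symm

/-- The point `c \ T_x c` and `c`. -/
theorem cm_U1 (c x : Q) : UU mul (cm h c x) c := by
  have h1 := I3a h ha x (ld h x c)
  rw [mul_ld h] at h1
  have h2 : Tt h x c = mul (ld h x c) x := by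
    apply Tt_eq h
    rw [flex h ha, mul_ld h]
  unfold cm
  rw [h2]
  exact h1

/-- If `c ∈ U_n` then `z ∈ U_n` iff `l(z, z \ (c n)) = l(z, z \ c)`. -/
theorem D_U {n c : Q} (hc : UU mul n c) (z : Q) :
    li h z (ld h z (mul c n)) = li h z (ld h z c) ↔ UU mul n z := by
  rw [← D_li h, D_iff h ha, ld_mul h]
  have h1 := (UU_L h n c).1 hc
  have h2 : (Lp h c)⁻¹ * (lam h e (mul c n) * (lam h e c)⁻¹) * Lp h c = Lp h n := by
    rw [lam_e, lam_e, h1]
    group
  rw [h2]
  have h3 : (∀ s, ((Rp h ((Lp h n) s))⁻¹ * (Rp h s * Rp h n)) (iv h (ld h c z)) = iv h (ld h c z)) ↔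
      UU mul n (iv h (ld h c z)) := by
    constructor
    · intro hh s
      have := hh s
      simp only [Equiv.Perm.mul_apply, Rp_apply] at this
      rw [Equiv.Perm.inv_eq_iff_eq, Rp_apply] at this
      exact this
    · intro hh s
      simp only [Equiv.Perm.mul_apply, Rp_apply]
      rw [Equiv.Perm.inv_eq_iff_eq, Rp_apply]
      exact hh s
  rw [h3]
  constructor
  · intro hh
    have h4 := (U_clo h ha n).iv_mem h hh
    rw [iv_iv h ha] at h4
    have h5 := (U_clo h ha n).mul_mem _ _ hc h4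
    rwa [mul_ld h] at h5
  · intro hh
    exact (U_clo h ha n).iv_mem h ((U_clo h ha n).ld_mem h hc hh)

/-- **Lemma Z.** -/
theorem lemZ {z w : Q} (hz : Tt h w z = z) (x : Q) : li h z (Tt h w x) = li h z x := by
  have h1 := (UU_L h _ _).1 (cm_U1 h ha x w)
  rw [mul_cm h] at h1
  have h2 := (UU_L h _ _).1 (cm_U1 h ha (mul z x) w)
  rw [mul_cm h, inn_aut ha (Tt_mem h w), hz] at h2
  have h3 : cm h (mul z x) w = li h z x (cm h x w) := by
    apply mul_left_inj' h (a := mul z x)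
    rw [mul_cm h, inn_aut ha (Tt_mem h w), hz, ← mul_cm h]
    have := congrArg (fun f : Equiv.Perm Q => f (cm h x w)) (li_def h z x)
    exact this
  rw [h3] at h2
  have h4 := aut_Lp h (inn_aut ha (li_mem h z x)) (cm h x w)
  have h5 : Lp h (li h z x (cm h x w)) = li h z x * Lp h (cm h x w) * (li h z x)⁻¹ := by
    rw [h4]
    group
  rw [h5] at h2
  have h6 := li_def h z x
  have h7 : Lp h (mul z (Tt h w x)) = Lp h z * Lp h (Tt h w x) * (li h z x)⁻¹ := by
    rw [h2, h1]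
    calc Lp h (mul z x) * (li h z x * Lp h (cm h x w) * (li h z x)⁻¹)
        = (Lp h (mul z x) * li h z x) * Lp h (cm h x w) * (li h z x)⁻¹ := by group
      _ = _ := by rw [← h6]; group
  have h8 : li h z (Tt h w x) = (Lp h (mul z (Tt h w x)))⁻¹ * (Lp h z * Lp h (Tt h w x)) := rfl
  rw [h8, h7]
  group

/-- `C(w) ≤ U_{[x,w]}`. -/
theorem CU1 {z w : Q} (hz : Tt h w z = z) (x : Q) : UU mul (cm h x w) z := by
  rw [← D_U h ha (cm_U1 h ha x w), mul_cm h]
  have h1 : ld h z (Tt h w x) = Tt h w (ld h z x) := by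
    rw [aut_ld h (inn_aut ha (Tt_mem h w)), hz]
  rw [h1, lemZ h ha hz]

theorem cm_U2 (x w : Q) : UU mul (cm h x w) w := CU1 h ha (Tt_self h w) x

/-- `[x, w]⁻¹ = [w, x]`. -/
theorem cm_iv (x w : Q) : iv h (cm h x w) = cm h w x := by
  have h1 : mul x (mul (cm h x w) (iv h w)) = mul (iv h w) x := by
    rw [← cm_U1 h ha x w (iv h w), mul_cm h, Tt_mul_iv h ha]
  have h2 := congrArg (iv h) h1
  rw [aaip h ha, aaip h ha, aaip h ha, iv_iv h ha] at h2
  have h3 : Tt h (iv h x) (mul w (iv h (cm h x w))) = w := Tt_eq h h2.symm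
  have h4 := congrArg (Tt h x) h3
  rw [Tt_app_iv h ha] at h4
  apply mul_left_inj' h (a := w)
  rw [h4, mul_cm h]

/-- `C(x) ≤ U_{[x,w]}`. -/
theorem CU2 {z x : Q} (hz : Tt h x z = z) (w : Q) : UU mul (cm h x w) z := by
  have := CU1 h ha hz w
  rw [← cm_iv h ha] at this
  exact UU_iv' h ha this

/-- `[x, w] ∈ U_{[x,w]}`. -/
theorem cm_U3 (x w : Q) : UU mul (cm h x w) (cm h x w) :=
  (U_clo h ha _).cm_mem h (cm_U1 h ha x w) (cm_U2 h ha x w)

/-- (F-g) -/
theorem Fg {v b : Q} (hb : UU mul v b) (hbv : Tt h b v = v) (a : Q) :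
    UU mul v (cm h a b) ∧ UU mul v (Tt h a b) := by
  have hT := Tt_mem h b
  -- `l(a n, v) = l(a, v)`
  have hfix : li h a v b = b := by
    unfold li
    rw [Equiv.Perm.mul_apply, Equiv.Perm.inv_eq_iff_eq]
    exact (U_third h ha hb a).symm
  have h1 : li h (mul a (cm h a b)) v = li h a v := by
    rw [mul_cm h]
    have h2 := aut_li h ha hT a v
    rw [hbv, ← Tt_comm h ha (li_mem h a v) hfix] at h2
    exact (mul_right_cancel h2).symm
  -- the cocycle relation
  have h2 := (UU_L h _ _).1 (cm_U1 h ha a b)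
  have h3 : mul (mul a (cm h a b)) v = mul a (mul (cm h a b) v) := cm_U1 h ha a b v
  have h4 : li h a (mul (cm h a b) v) * li h (cm h a b) v = li h (mul a (cm h a b)) v := by
    have e1 := li_def h (mul a (cm h a b)) v
    have e2 := li_def h a (mul (cm h a b) v)
    have e3 := li_def h (cm h a b) v
    rw [h2, h3] at e1
    have e4 : Lp h a * Lp h (cm h a b) * Lp h v =
        Lp h (mul a (mul (cm h a b) v)) * (li h a (mul (cm h a b) v) * li h (cm h a b) v) := by
      calc Lp h a * Lp h (cm h a b) * Lp h v = Lp h a * (Lp h (cm h a b) * Lp h v) := by group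
        _ = (Lp h a * Lp h (mul (cm h a b) v)) * li h (cm h a b) v := by rw [e3]; group
        _ = _ := by rw [e2]; group
    rw [e1] at e4
    exact (mul_left_cancel e4).symm
  -- `l(a, n v) = l(a, v)`
  have h5 : UU mul (cm h (mul a v) b) a :=
    (U_clo h ha _).rdiv_mem a v (CU1 h ha hbv (mul a v)) (cm_U1 h ha (mul a v) b)
  rw [← D_U h ha (cm_U1 h ha (mul a v) b), mul_cm h, inn_aut ha hT, hbv, ← mul_cm h, h3, ld_mul h, ld_mul h] at h5
  rw [h5, h1] at h4
  have h6 : UU mul v (cm h a b) := by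
    rw [UU_li h]
    exact mul_left_cancel (h4.trans (mul_one _).symm)
  refine ⟨h6, ?_⟩
  have h7 : Tt h a (iv h b) = mul (cm h a b) (iv h b) := by
    apply Tt_eq h
    rw [← cm_U1 h ha a b (iv h b), mul_cm h, Tt_mul_iv h ha]
  have h8 : UU mul v (Tt h a (iv h b)) := by
    rw [h7]
    exact (U_clo h ha v).mul_mem _ _ h6 ((U_clo h ha v).iv_mem h hb)
  rw [aut_iv h ha (Tt_mem h a)] at h8
  have h9 := (U_clo h ha v).iv_mem h h8
  rwa [iv_iv h ha] at h9

/-- (F-h) -/
theorem Fh (x w a : Q) : UU mul (cm h x w) (Tt h a (cm h x w)) :=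
  (Fg h ha (cm_U3 h ha x w) (Tt_self h _) a).2

/-- (F-i) -/
theorem Fi {v b : Q} (hb : UU mul v b) {y : Q} (hy : UU mul v y) : UU mul (cm h v b) y := by
  have hT := Tt_mem h b
  -- `y ∈ U_{T_b v}`
  have h1 : UU mul (Tt h b v) y := by
    have h2 : UU mul v (Tt h (iv h b) y) := (U_clo h ha v).Tt_mem h ((U_clo h ha v).iv_mem h hb) hy
    have h3 := UU_map h ha hT h2
    rwa [Tt_app_iv h ha] at h3
  have h4 := (UU_L h _ _).1 h1
  have h5 := (UU_L h _ _).1 (cm_U1 h ha v b)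
  rw [mul_cm h] at h5
  have h6 := (UU_L h _ _).1 hy
  rw [h5, ← mul_assoc, ← h6] at h4
  have h7 : mul y (Tt h b v) = mul (mul y v) (cm h v b) := by
    have := congrArg (fun f : Equiv.Perm Q => f e) h4
    simp only [Equiv.Perm.mul_apply, Lp_apply, h.mul_one] at this
    exact this
  have h8 : UU mul (cm h v b) (mul y v) := by
    rw [UU_L h, ← h7, h4]
  exact (U_clo h ha _).rdiv_mem y v (cm_U1 h ha v b) h8

end autom

end LPM
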