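import Pool.Agent.LPM.S1
import Pool.Agent.LPM.S2

set_option autoImplicit false
set_option linter.unusedSectionVars false
set_option linter.style.haveILetI false

/-!
Finite simple automorphic loops are associative or commutative.
-/

namespace LPM

open CAL

variable {Q : Type} {mul : Q → Q → Q} {e : Q}

/-- Commutators. -/
def QQ (h : IsLoop mul e) (v : Q) : Prop := ∃ x w, v = cm h x w

/-- Commutators `v ≠ e` with `U_v` maximal. -/
def MX (h : IsLoop mul e) (v : Q) : Prop :=
  QQ h v ∧ v ≠ e ∧ ∀ u, QQ h u → u ≠ e → (∀ y, UU mul v y → UU mul u y) → ∀ y, UU mul u y → UU mul v y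

/-- The group generated by the `T_a`. -/
def TT (h : IsLoop mul e) : Subgroup (Equiv.Perm Q) := Subgroup.closure (Set.range (Tt h))

/-- Subloops invariant under all `T_a`. -/
structure TI (h : IsLoop mul e) (S : Q → Prop) : Prop where
  clo : Clo mul e S
  inv : ∀ a x, S x → S (Tt h a x)

/-- The subloop generated by a set. -/
def gen (mul : Q → Q → Q) (e : Q) (X : Q → Prop) (z : Q) : Prop :=
  ∀ S : Q → Prop, Clo mul e S → (∀ x, X x → S x) → S z

theorem gen_clo (X : Q → Prop) : Clo mul e (gen mul e X) :=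
  ⟨fun _ hS _ => hS.one_mem, fun a b ha hb S hS hX => hS.mul_mem a b (ha S hS hX) (hb S hS hX),
    fun a b ha hb S hS hX => hS.ldiv_mem a b (ha S hS hX) (hb S hS hX),
    fun a b ha hb S hS hX => hS.rdiv_mem a b (ha S hS hX) (hb S hS hX)⟩

theorem gen_sub {X : Q → Prop} {x : Q} (hx : X x) : gen mul e X x := fun _ _ hX => hX x hx

theorem gen_le {X S : Q → Prop} (hS : Clo mul e S) (hX : ∀ x, X x → S x) {z : Q} (hz : gen mul e X z) : S z :=
  hz S hS hX

/-- The preimage of a subloop under an inner mapping is a subloop. -/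
theorem Clo.comap (ha : IsAut mul) (h : IsLoop mul e) {S : Q → Prop} (hS : Clo mul e S) {u : Equiv.Perm Q}
    (hu : u ∈ inn mul) : Clo mul e (fun x => S (u x)) := by
  have hau := inn_aut ha hu
  refine ⟨?_, ?_, ?_, ?_⟩
  · show S (u e)
    rw [inn_e h hu]
    exact hS.one_mem
  · intro a b h1 h2
    rw [hau]
    exact hS.mul_mem _ _ h1 h2
  · intro a b h1 h2
    rw [hau] at h2
    exact hS.ldiv_mem _ _ h1 h2
  · intro a b h1 h2
    rw [hau] at h2
    exact hS.rdiv_mem _ _ h1 h2

theorem gen_map (ha : IsAut mul) (h : IsLoop mul e) {X : Q → Prop} {u : Equiv.Perm Q} (hu : u ∈ inn mul)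
    (hX : ∀ x, X x → X (u x)) {z : Q} (hz : gen mul e X z) : gen mul e X (u z) :=
  gen_le (S := fun x => gen mul e X (u x)) ((gen_clo X).comap ha h hu) (fun x hx => gen_sub (hX x hx)) hz

section main

variable (h : IsLoop mul e) (ha : IsAut mul)
include h ha

theorem TT_le : TT h ≤ inn mul := by
  unfold TT
  rw [Subgroup.closure_le]
  rintro _ ⟨a, rfl⟩
  exact Tt_mem h a

theorem MX_map {u : Equiv.Perm Q} (hu : u ∈ inn mul) {v : Q} (hv : MX h v) : MX h (u v) := by
  obtain ⟨⟨x, w, rfl⟩, h2, h3⟩ := hv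
  have hu' := Subgroup.inv_mem _ hu
  refine ⟨⟨u x, u w, aut_cm h ha hu x w⟩, fun hh => h2 ?_, ?_⟩
  · exact u.injective (hh.trans (inn_e h hu).symm)
  · rintro m ⟨a, b, rfl⟩ hm hle y hy
    have h4 := h3 (u⁻¹ (cm h a b)) ⟨u⁻¹ a, u⁻¹ b, aut_cm h ha hu' a b⟩
      (fun hh => hm (by rw [← app_inv u (cm h a b), hh, inn_e h hu])) (fun z hz => by
        have := UU_map h ha hu' (hle (u z) (UU_map h ha hu hz))
        rwa [inv_app] at this)
    have h5 := UU_map h ha hu (h4 (u⁻¹ y) (UU_map h ha hu' hy))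
    rwa [app_inv] at h5

/-- Claim 2 and the step of Claim 3. -/
theorem step {v w : Q} (hv : MX h v) (hw : MX h w) (h1 : UU mul v w) (h2 : UU mul w v) (a : Q) :
    UU mul v (Tt h a w) := by
  by_cases hc : Tt h w v = v
  · exact (Fg h ha h1 hc a).2
  · have hm : cm h v w ≠ e := by
      intro hh
      apply hc
      rw [← mul_cm h, hh, h.mul_one]
    have hle : ∀ y, UU mul v y → UU mul (cm h v w) y := fun y hy => Fi h ha h1 hy
    have hle' : ∀ y, UU mul w y → UU mul (cm h v w) y := by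
      intro y hy
      have := Fi h ha h2 hy
      rw [← cm_iv h ha] at this
      exact UU_iv' h ha this
    have e1 := hv.2.2 _ ⟨v, w, rfl⟩ hm hle
    obtain ⟨⟨x, z, rfl⟩, -⟩ := hw
    exact e1 _ (hle' _ (Fh h ha x z a))

/-- Claim 3. -/
theorem claim3 {t : Equiv.Perm Q} (ht : t ∈ TT h) :
    ∀ v, MX h v → UU mul v (t v) ∧ UU mul (t v) v := by
  unfold TT at ht
  induction ht using Subgroup.closure_induction_left with
  | one =>
    rintro v ⟨⟨x, w, rfl⟩, -⟩
    exact ⟨cm_U3 h ha x w, cm_U3 h ha x w⟩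
  | mul_left s hs t ht ih =>
    obtain ⟨a, rfl⟩ := hs
    intro v hv
    obtain ⟨i1, i2⟩ := ih v hv
    have hw := MX_map h ha (TT_le h ha ht) hv
    refine ⟨step h ha hv hw i1 i2 a, ?_⟩
    have h3 := UU_map h ha (Tt_mem h a) (step h ha hw hv i2 i1 (iv h a))
    rwa [Tt_app_iv h ha] at h3
  | inv_mul_cancel s hs t ht ih =>
    obtain ⟨a, rfl⟩ := hs
    intro v hv
    obtain ⟨i1, i2⟩ := ih v hv
    have hw := MX_map h ha (TT_le h ha ht) hv
    rw [← Tt_iv h ha]
    refine ⟨step h ha hv hw i1 i2 (iv h a), ?_⟩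
    have h3 := UU_map h ha (Tt_mem h (iv h a)) (step h ha hw hv i2 i1 a)
    rwa [Tt_iv_app h ha] at h3

theorem claim3' {s t : Equiv.Perm Q} (hs : s ∈ TT h) (ht : t ∈ TT h) {v : Q} (hv : MX h v) :
    UU mul (s v) (t v) := by
  have h1 := (claim3 h ha (Subgroup.mul_mem _ (Subgroup.inv_mem _ hs) ht) v hv).1
  have h2 := UU_map h ha (TT_le h ha hs) h1
  rwa [Equiv.Perm.mul_apply, app_inv] at h2

end main

/-- Existence of maximal elements. -/
theorem exists_MX [Finite Q] (h : IsLoop mul e) {v0 : Q} (h0 : QQ h v0) (h1 : v0 ≠ e) : ∃ v, MX h v := by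
  classical
  have hne : Nonempty {v : Q // QQ h v ∧ v ≠ e} := ⟨⟨v0, h0, h1⟩⟩
  obtain ⟨⟨v, hv⟩, hmax⟩ := Finite.exists_max (fun v : {v : Q // QQ h v ∧ v ≠ e} => {y | UU mul v.1 y}.ncard)
  refine ⟨v, hv.1, hv.2, fun u hu hue hle y hy => ?_⟩
  have h2 : {y | UU mul v y} ⊆ {y | UU mul u y} := hle
  have h3 := Set.eq_of_subset_of_ncard_le h2 (hmax ⟨u, hu, hue⟩) (Set.toFinite _)
  have h4 : y ∈ {y | UU mul v y} := h3.symm ▸ (show y ∈ {y | UU mul u y} from hy)
  exact h4

/-- A minimal nontrivial `T`-invariant subloop inside a given one. -/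
theorem exists_min [Finite Q] (h : IsLoop mul e) {N : Q → Prop} (hN : TI h N) {x0 : Q} (hx0 : N x0) (hx : x0 ≠ e) :
    ∃ M : Q → Prop, TI h M ∧ (∀ x, M x → N x) ∧ (∃ x, M x ∧ x ≠ e) ∧
      ∀ S : Q → Prop, TI h S → (∃ x, S x ∧ x ≠ e) → (∀ x, S x → M x) → ∀ x, M x → S x := by
  classical
  have hne : Nonempty {M : Q → Prop // TI h M ∧ (∀ x, M x → N x) ∧ ∃ x, M x ∧ x ≠ e} :=
    ⟨⟨N, hN, fun _ hh => hh, x0, hx0, hx⟩⟩
  obtain ⟨⟨M, hM, hMN, hMe⟩, hmin⟩ := Finite.exists_min
    (fun M : {M : Q → Prop // TI h M ∧ (∀ x, M x → N x) ∧ ∃ x, M x ∧ x ≠ e} => {y | M.1 y}.ncard)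
  refine ⟨M, hM, hMN, hMe, fun S hS hSe hSM x hMx => ?_⟩
  have h2 : {y | S y} ⊆ {y | M y} := hSM
  have h3 := Set.eq_of_subset_of_ncard_le h2 (hmin ⟨S, hS, fun y hy => hMN y (hSM y hy), hSe⟩) (Set.toFinite _)
  have h4 : x ∈ {y | S y} := h3.symm ▸ (show x ∈ {y | M y} from hMx)
  exact h4

section main2

variable (h : IsLoop mul e) (ha : IsAut mul)
include h ha

/-- The image of a `T`-invariant subloop under an inner mapping. -/
theorem TI_map {S : Q → Prop} (hS : TI h S) {u : Equiv.Perm Q} (hu : u ∈ inn mul) : TI h (fun x => S (u x)) := by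
  refine ⟨hS.clo.comap ha h hu, fun a x hx => ?_⟩
  show S (u (Tt h a x))
  rw [aut_Tt' h ha hu]
  exact hS.inv _ _ hx

/-- The group `N`. -/
theorem exists_N {v : Q} (hv : MX h v) : ∃ N : Q → Prop, TI h N ∧ N v ∧ ∀ x y, N x → N y → UU mul x y := by
  refine ⟨gen mul e (fun x => ∃ t ∈ TT h, t v = x), ⟨gen_clo _, fun a x hx => ?_⟩, gen_sub ⟨1, Subgroup.one_mem _, rfl⟩, ?_⟩
  · apply gen_map ha h (Tt_mem h a) _ hx
    rintro y ⟨t, ht, rfl⟩
    exact ⟨Tt h a * t, Subgroup.mul_mem _ (Subgroup.subset_closure ⟨a, rfl⟩) ht, rfl⟩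
  · have h1 : ∀ x y, (∃ t ∈ TT h, t v = x) → gen mul e (fun x => ∃ t ∈ TT h, t v = x) y → UU mul x y := by
      rintro x y ⟨t, ht, rfl⟩ hy
      refine gen_le (U_clo h ha _) ?_ hy
      rintro z ⟨s, hs, rfl⟩
      exact claim3' h ha ht hs hv
    intro x y hx hy
    exact gen_le (S := fun x => UU mul x y) (N_clo h ha y) (fun z hz => h1 z y hz hy) hx

end main2

/-- **Every finite simple automorphic loop is associative or commutative.** -/
theorem simple_assoc_or_comm [Finite Q] (h : IsLoop mul e) (ha : IsAut mul) (hs : Simp mul e) :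
    (∀ a b c, mul (mul a b) c = mul a (mul b c)) ∨ (∀ a b, mul a b = mul b a) := by
  classical
  by_cases hq : ∃ v0, QQ h v0 ∧ v0 ≠ e
  swap
  · right
    intro a b
    have h1 : cm h b a = e := by
      by_contra hcon
      exact hq ⟨_, ⟨b, a, rfl⟩, hcon⟩
    have h2 := mul_cm h b a
    rw [h1, h.mul_one] at h2
    have h3 := mul_Tt h a b
    rw [← h2] at h3
    exact h3
  obtain ⟨v0, h0, h01⟩ := hq
  obtain ⟨v, hv⟩ := exists_MX h h0 h01
  obtain ⟨N, hN, hNv, hNN⟩ := exists_N h ha hv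
  obtain ⟨M, hM, hMN, ⟨x1, hx1, hx1e⟩, hmin⟩ := exists_min h hN hNv hv.2.1
  have hMM : ∀ x y, M x → M y → UU mul x y := fun x y hx hy => hNN x y (hMN x hx) (hMN y hy)
  -- the union of the translates generates `Q`
  let SS : Q → Prop := fun x => ∃ u ∈ inn mul, M (u x)
  have hSSinv : ∀ g ∈ inn mul, ∀ x, SS x → SS (g x) := by
    rintro g hg x ⟨u, hu, hux⟩
    refine ⟨u * g⁻¹, Subgroup.mul_mem _ hu (Subgroup.inv_mem _ hg), ?_⟩
    rwa [Equiv.Perm.mul_apply, inv_app]
  have hgen : ∀ x, gen mul e SS x := by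
    rcases hs (gen mul e SS) ⟨gen_clo SS, fun g hg x hx => gen_map ha h hg (hSSinv g hg) hx⟩ with h1 | h1
    · exact absurd (h1 x1 (gen_sub ⟨1, Subgroup.one_mem _, hx1⟩)) hx1e
    · exact h1
  -- different translates commute elementwise
  have hcomm : ∀ u ∈ inn mul, (∀ x, M x → M (u x)) ∨ ∀ n n', M n → M (u n') → Tt h n' n = n := by
    intro u hu
    by_cases hint : ∃ x, (M x ∧ M (u x)) ∧ x ≠ e
    · left
      intro x hx
      have hTI : TI h (fun x => M x ∧ M (u x)) := by
        have h1 := TI_map h ha hM hu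
        refine ⟨⟨⟨hM.clo.one_mem, h1.clo.one_mem⟩,
          fun a b hha hb => ⟨hM.clo.mul_mem a b hha.1 hb.1, h1.clo.mul_mem a b hha.2 hb.2⟩,
          fun a b hha hb => ⟨hM.clo.ldiv_mem a b hha.1 hb.1, h1.clo.ldiv_mem a b hha.2 hb.2⟩,
          fun a b hha hb => ⟨hM.clo.rdiv_mem a b hha.1 hb.1, h1.clo.rdiv_mem a b hha.2 hb.2⟩⟩,
          fun a x hx => ⟨hM.inv a x hx.1, h1.inv a x hx.2⟩⟩
      exact (hmin _ hTI hint (fun y hy => hy.1) x hx).2
    · right
      intro n n' hn hn'
      by_contra hcon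
      apply hint
      refine ⟨cm h n n', ⟨?_, ?_⟩, ?_⟩
      · exact hM.clo.ld_mem h hn (hM.inv n' n hn)
      · -- `c = (T_{n'} n') ...`
        have h1 := TI_map h ha hM hu
        have h2 : M (u (cm h n' n)) := h1.clo.ld_mem h hn' (h1.inv n n' hn')
        have h3 := h1.clo.iv_mem h h2
        rw [cm_iv h ha] at h3
        exact h3
      · intro hh
        apply hcon
        rw [← mul_cm h, hh, h.mul_one]
  -- the case distinction
  by_cases hab : ∀ n n', M n → M n' → Tt h n' n = n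
  · right
    -- `M` is commutative: `Q` is commutative
    have h1 : ∀ x y, SS x → SS y → Tt h y x = x := by
      rintro x y ⟨u, hu, hux⟩ ⟨w, hw, hwy⟩
      -- move `x` into `M`
      have h2 : Tt h (u y) (u x) = u x := by
        rcases hcomm (w * u⁻¹) (Subgroup.mul_mem _ hw (Subgroup.inv_mem _ hu)) with h3 | h3
        · -- the same translate
          have h4 : ∀ k : ℕ, ∀ z, M z → M (((w * u⁻¹) ^ k) z) := by
            intro k
            induction k with
            | zero => exact fun z hz => hz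
            | succ k ih =>
              intro z hz
              rw [pow_succ', Equiv.Perm.mul_apply]
              exact h3 _ (ih z hz)
          have h5 : ∃ k : ℕ, (w * u⁻¹) ^ k = (w * u⁻¹)⁻¹ := by
            refine ⟨orderOf (w * u⁻¹) - 1, ?_⟩
            rw [eq_inv_iff_mul_eq_one, ← pow_succ, Nat.sub_add_cancel (orderOf_pos _), pow_orderOf_eq_one]
          obtain ⟨k, hk⟩ := h5
          have h6 := h4 k _ hwy
          rw [hk] at h6
          have h7 : ((w * u⁻¹)⁻¹ : Equiv.Perm Q) (w y) = u y := by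
            rw [mul_inv_rev, inv_inv, Equiv.Perm.mul_apply, inv_app]
          rw [h7] at h6
          exact hab _ _ hux h6
        · apply h3 _ _ hux
          rw [Equiv.Perm.mul_apply, inv_app]
          exact hwy
      rw [← aut_Tt' h ha hu] at h2
      exact u.injective h2
    have h2 : ∀ x y, SS y → Tt h y x = x := fun x y hy =>
      gen_le (S := fun x => Tt h y x = x) (fix_clo ha h (Tt_mem h y)) (fun z hz => h1 z y hz hy) (hgen x)
    have h3 : ∀ x y, Tt h y x = x := by
      intro x y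
      refine gen_le (S := fun x => Tt h y x = x) (fix_clo ha h (Tt_mem h y)) (fun z hz => ?_) (hgen x)
      have h4 := h2 y z hz
      apply Tt_eq h
      have h5 := mul_Tt h z y
      rw [h4] at h5
      exact h5.symm
    intro a b
    have h4 := mul_Tt h a b
    rw [h3] at h4
    exact h4
  · left
    push Not at hab
    obtain ⟨n0, n0', hn0, hn0', hne⟩ := hab
    -- `M` is generated by the commutators `[n, a]`
    have hMgen : ∀ x, M x → gen mul e (fun z => ∃ n a, M n ∧ z = cm h n a) x := by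
      apply hmin
      · refine ⟨gen_clo _, fun a x hx => ?_⟩
        apply gen_map ha h (Tt_mem h a) _ hx
        rintro z ⟨n, b, hn, rfl⟩
        exact ⟨Tt h a n, Tt h a b, hM.inv a n hn, aut_cm h ha (Tt_mem h a) n b⟩
      · refine ⟨cm h n0 n0', gen_sub ⟨n0, n0', hn0, rfl⟩, fun hh => hne ?_⟩
        rw [← mul_cm h, hh, h.mul_one]
      · intro x hx
        refine gen_le hM.clo ?_ hx
        rintro z ⟨n, b, hn, rfl⟩
        exact hM.clo.ld_mem h hn (hM.inv b n hn)
    have h1 : ∀ x y, SS x → SS y → UU mul x y := by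
      rintro x y ⟨u, hu, hux⟩ ⟨w, hw, hwy⟩
      have h2 : UU mul (u x) (u y) := by
        rcases hcomm (w * u⁻¹) (Subgroup.mul_mem _ hw (Subgroup.inv_mem _ hu)) with h3 | h3
        · have h4 : ∀ k : ℕ, ∀ z, M z → M (((w * u⁻¹) ^ k) z) := by
            intro k
            induction k with
            | zero => exact fun z hz => hz
            | succ k ih =>
              intro z hz
              rw [pow_succ', Equiv.Perm.mul_apply]
              exact h3 _ (ih z hz)
          have h5 : ∃ k : ℕ, (w * u⁻¹) ^ k = (w * u⁻¹)⁻¹ := by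
            refine ⟨orderOf (w * u⁻¹) - 1, ?_⟩
            rw [eq_inv_iff_mul_eq_one, ← pow_succ, Nat.sub_add_cancel (orderOf_pos _), pow_orderOf_eq_one]
          obtain ⟨k, hk⟩ := h5
          have h6 := h4 k _ hwy
          rw [hk] at h6
          have h7 : ((w * u⁻¹)⁻¹ : Equiv.Perm Q) (w y) = u y := by
            rw [mul_inv_rev, inv_inv, Equiv.Perm.mul_apply, inv_app]
          rw [h7] at h6
          exact hMM _ _ hux h6
        · -- `u y` commutes with `M`
          refine gen_le (S := fun z => UU mul z (u y)) (N_clo h ha (u y)) ?_ (hMgen _ hux)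
          rintro z ⟨n, b, hn, rfl⟩
          apply CU2 h ha
          have h4 : Tt h (u y) n = n := by
            apply h3 _ _ hn
            rw [Equiv.Perm.mul_apply, inv_app]
            exact hwy
          apply Tt_eq h
          have h5 := mul_Tt h (u y) n
          rw [h4] at h5
          exact h5.symm
      have h3 := UU_map h ha (Subgroup.inv_mem _ hu) h2
      rwa [inv_app, inv_app] at h3
    have h2 : ∀ x y, SS x → UU mul x y := fun x y hx =>
      gen_le (U_clo h ha x) (fun z hz => h1 x z hx hz) (hgen y)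
    intro a b c
    exact gen_le (S := fun b => UU mul b a) (N_clo h ha a) (fun z hz => h2 z a hz) (hgen b) c

end LPM
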