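import Pool.Agent.LPM.Z1
import Pool.Agent.LPM.BS
import Pool.Agent.LPM.C2
import Pool.Agent.LPM.C4
import Pool.Agent.LPM.C5a
import Pool.Agent.LPM.C6
import Pool.Agent.LPM.C7

set_option autoImplicit false

/-!
Finite simple automorphic loops are groups.
-/

namespace LPM

open CAL

/-- **Every finite simple automorphic loop is associative.** -/
theorem simple_assoc {Q : Type} [Finite Q] {mul : Q → Q → Q} {e : Q} (h : IsLoop mul e) (ha : IsAut mul)
    (hs : Simp mul e) (a b c : Q) : mul (mul a b) c = mul a (mul b c) := by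
  rcases simple_assoc_or_comm h ha hs with h1 | hc
  · exact h1 a b c
  · have hE : ∀ a, EE h a = 1 := by
      intro a
      ext x
      exact simple_comm_ip h ha hc hs a x
    rcases trichotomy h ha hc hE hs with h2 | h3 | ⟨h4, h5⟩
    · exact assoc_of_exp_two h ha hc (fun x z => simple_comm_ip h ha hc hs x z) h2 a b c
    · exact h3 a b c
    · obtain ⟨h6, h7⟩ := exp_three_cen h ha hc hE h4 h5
      have : Fact (Nat.Prime 3) := ⟨Nat.prime_three⟩
      exact assoc_of_three h ha hc hs h6 (fun a hg => baer_suzuki 3 a hg) h7 a b c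

end LPM
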