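import Pool.Agent.LPM.S1

set_option autoImplicit false

/-!
Cauchy's theorem for finite automorphic loops from the theorem on simple loops.
-/

namespace LPM

open CAL

theorem cauchy_all_of_simple
    (hsimple : ∀ {Q : Type} [Finite Q] {mul : Q → Q → Q} {e : Q}, IsLoop mul e → IsAut mul → Simp mul e →
      ∀ a b c, mul (mul a b) c = mul a (mul b c)) :
    ∀ (Q : Type) [Fintype Q] (mul : Q → Q → Q) (e : Q),
      (∀ x, mul e x = x) →
      (∀ x, mul x e = x) →
      (∀ a b, ∃! x, mul a x = b) →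
      (∀ a b, ∃! y, mul y a = b) →
      (∀ (x y : Q) (f : Q → Q), (∀ z, mul (mul y x) (f z) = mul y (mul x z)) →
          ∀ u v, f (mul u v) = mul (f u) (f v)) →
      (∀ (x y : Q) (f : Q → Q), (∀ z, mul (f z) (mul x y) = mul (mul z x) y) →
          ∀ u v, f (mul u v) = mul (f u) (f v)) →
      (∀ (x : Q) (f : Q → Q), (∀ z, mul x (f z) = mul z x) →
          ∀ u v, f (mul u v) = mul (f u) (f v)) →
      ∀ p : ℕ, p.Prime → p ∣ Fintype.card Q →
        ∃ x : Q, x ≠ e ∧ (fun z => mul z x)^[p] e = e := by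
  intro Q _ mul e h1 h2 h3 h4 h5 h6 h7 p hp hdvd
  refine cauchy_simple_red ?_ _ rfl ⟨h1, h2, h3, h4⟩ ⟨h5, h6, h7⟩ p hp hdvd
  clear hdvd hp p h7 h6 h5 h4 h3 h2 h1
  intro Q _ mul e h ha hs p hp hdvd
  rw [← Nat.card_eq_fintype_card] at hdvd
  exact cauchy_assoc h ha (hsimple h ha hs) p hp hdvd

end LPM
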